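import Mathlib

set_option autoImplicit false
set_option linter.style.haveILetI false

/-!
Commutative algebra: chain conditions, strongly pi-regular rings, idempotents.
-/

namespace Pool.Agent.Hp8CR

open Ideal

section
variable {R : Type} [CommRing R]

/-- bounded ascending chains in the part of the ring given by `f` -/
def Chn (f : R) (l : ℕ) : Prop :=
  ∀ y : ℕ → R, ∃ i ≤ l, ∃ c : ℕ → R, f * y i = ∑ j ∈ Finset.range i, c j * (f * y j)

theorem chn_of_artinian [IsArtinianRing R] : ∃ l, Chn (1 : R) l := by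
  have h1 : Module.length R R ≠ ⊤ := Module.length_ne_top
  obtain ⟨n, hn⟩ := ENat.ne_top_iff_exists.1 h1
  refine ⟨n, fun y => ?_⟩
  by_contra hc
  push Not at hc
  let I : ℕ → Ideal R := fun k => span (Set.range fun j : Fin k => y j)
  have hI : ∀ k ≤ n, I k < I (k + 1) := by
    intro k hk
    refine lt_of_le_of_ne ?_ ?_
    · refine span_mono ?_
      rintro _ ⟨j, rfl⟩
      exact ⟨j.castSucc, rfl⟩
    · intro he
      have h2 : y k ∈ I k := by
        rw [he]
        exact subset_span ⟨Fin.last k, rfl⟩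
      obtain ⟨c, hc'⟩ := (mem_span_range_iff_exists_fun).1 h2
      refine hc k hk (fun j => if h : j < k then c ⟨j, h⟩ else 0) ?_
      rw [one_mul, ← hc', ← Fin.sum_univ_eq_sum_range
        (fun j => (if h : j < k then c ⟨j, h⟩ else 0) * (1 * y j)) k]
      refine Finset.sum_congr rfl fun j _ => ?_
      rw [one_mul, dif_pos j.2]
  have h3 : ∀ k ≤ n + 1, (k : ℕ∞) ≤ Order.height (I k) := by
    intro k
    induction k with
    | zero => intro _; simp
    | succ k ih =>
      intro hk
      have h4 := ih (by omega)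
      have h5 := Submodule.height_strictMono (R := R) (M := R) (hI k (by omega))
      have h6 : (k : ℕ∞) < Order.height (I (k + 1)) := lt_of_le_of_lt h4 h5
      have h7 := Order.add_one_le_of_lt h6
      exact_mod_cast h7
  have h4 := h3 (n + 1) le_rfl
  have h5 : Order.height (I (n + 1)) ≤ Order.height (⊤ : Ideal R) := Order.height_mono le_top
  have h6 : Order.height (⊤ : Ideal R) = (n : ℕ∞) := by
    rw [hn]
    exact (Module.length_eq_height (R := R) (M := R)).symm
  rw [h6] at h5
  have h7 : ((n + 1 : ℕ) : ℕ∞) ≤ n := h4.trans h5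
  have h8 : n + 1 ≤ n := by exact_mod_cast h7
  omega

theorem artinian_of_chn {f : R} (hf : f * f = f) {l : ℕ} (h : Chn f l) :
    IsArtinian R (span {f} : Ideal R) := by
  show WellFoundedLT _
  refine ⟨?_⟩
  rw [RelEmbedding.wellFounded_iff_isEmpty]
  refine ⟨fun e => ?_⟩
  have hlt : ∀ i j : ℕ, i < j → e j < e i := fun i j hij => e.map_rel_iff.2 hij
  have hle : ∀ i j : ℕ, i ≤ j → e j ≤ e i := by
    intro i j hij
    rcases hij.eq_or_lt with rfl | h1
    · exact le_rfl
    · exact (hlt i j h1).le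
  choose y hy1 hy2 using fun k => SetLike.exists_of_lt (hlt k (k + 1) (Nat.lt_succ_self k))
  have hfy : ∀ k, f * (y k : R) = y k := by
    intro k
    obtain ⟨c, hc⟩ := mem_span_singleton'.1 (y k).2
    rw [← hc, mul_comm c, ← mul_assoc, hf]
  obtain ⟨i, hi, c, hc⟩ := h (fun k => (y (l - k) : R))
  have h1 : y (l - i) = ∑ j ∈ Finset.range i, c j • y (l - j) := by
    apply Subtype.ext
    rw [Submodule.coe_sum]
    rw [hfy] at hc
    rw [hc]
    refine Finset.sum_congr rfl fun j _ => ?_
    rw [hfy, Submodule.coe_smul, smul_eq_mul]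
  refine hy2 (l - i) ?_
  rw [h1]
  refine Submodule.sum_mem _ fun j hj => Submodule.smul_mem _ _ ?_
  have hji := Finset.mem_range.1 hj
  exact hle (l - i + 1) (l - j) (by omega) (hy1 (l - j))

end

section
variable {R : Type} [CommRing R]

/-- idempotents of a strongly pi-regular ring -/
theorem idem_of_pi {n : ℕ} (h : ∀ a : R, a ^ (n + 1) ∣ a ^ n) (q : R) :
    ∃ e : R, e * e = e ∧ q ∣ e ∧ (1 - e) * q ^ n = 0 := by
  obtain ⟨c, hc⟩ := h q
  rcases Nat.eq_zero_or_pos n with rfl | hn
  · refine ⟨1, by ring, ⟨c, ?_⟩, by ring⟩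
    simpa using hc
  have h1 : ∀ k, q ^ n = q ^ (n + k) * c ^ k := by
    intro k
    induction k with
    | zero => simp
    | succ k ih =>
      have h2 : q ^ (n + (k + 1)) * c ^ (k + 1) = q ^ k * (q ^ (n + 1) * c) * c ^ k := by ring
      rw [h2, ← hc]
      conv_lhs => rw [ih]
      ring
  have h2 : q ^ n * (q ^ n * c ^ n) = q ^ n := by
    have h3 := h1 n
    rw [pow_add] at h3
    rw [← mul_assoc]
    exact h3.symm
  refine ⟨q ^ n * c ^ n, ?_, ?_, ?_⟩
  · have : q ^ n * c ^ n * (q ^ n * c ^ n) = q ^ n * (q ^ n * c ^ n) * c ^ n := by ring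
    rw [this, h2]
  · obtain ⟨m, rfl⟩ : ∃ m, n = m + 1 := ⟨n - 1, by omega⟩
    exact ⟨q ^ m * c ^ (m + 1), by ring⟩
  · have : (1 - q ^ n * c ^ n) * q ^ n = q ^ n - q ^ n * (q ^ n * c ^ n) := by ring
    rw [this, h2, sub_self]

/-- the idempotents on which the first `m` powers of some element differ -/
def Lrg (m : ℕ) (e : R) : Prop :=
  e * e = e ∧ ∃ a : R, ∀ i < m, ∀ j < m, i ≠ j → (a ^ (i + 1) - a ^ (j + 1)) ∣ e

theorem Lrg.mul {m : ℕ} {e g : R} (h : Lrg m e) (hg : g * g = g) : Lrg m (g * e) := by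
  obtain ⟨he, a, ha⟩ := h
  refine ⟨?_, a, fun i hi j hj hij => (ha i hi j hj hij).mul_left g⟩
  calc g * e * (g * e) = (g * g) * (e * e) := by ring
    _ = g * e := by rw [hg, he]

/-- families of orthogonal large idempotents -/
def Fam (m t : ℕ) (f : ℕ → R) : Prop :=
  (∀ k < t, Lrg m (f k)) ∧ (∀ k < t, f k ≠ 0) ∧ ∀ k < t, ∀ l < t, k ≠ l → f k * f l = 0

theorem fam_big {m t : ℕ} {f : ℕ → R} (h : Fam m t f) (hmt : m ≤ t) :
    ∃ (e : ℕ → R) (a : R), (∀ k < m, e k * e k = e k) ∧ (∀ k < m, e k ≠ 0) ∧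
    (∀ k < m, ∀ l < m, k ≠ l → e k * e l = 0) ∧
    ∀ k < m, ∀ i < m, ∀ j < m, i ≠ j → (a ^ (i + 1) - a ^ (j + 1)) ∣ e k := by
  obtain ⟨h1, h2, h3⟩ := h
  choose! a ha using fun k (hk : k < t) => (h1 k hk).2
  have hid : ∀ k < t, f k * f k = f k := fun k hk => (h1 k hk).1
  let A : R := ∑ k ∈ Finset.range t, f k * a k
  have hA : ∀ k < t, f k * A = f k * a k := by
    intro k hk
    rw [Finset.mul_sum, Finset.sum_eq_single k]
    · rw [← mul_assoc, hid k hk]
    · intro l hl hlk
      rw [← mul_assoc, h3 k hk l (Finset.mem_range.1 hl) hlk.symm, zero_mul]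
    · exact fun hh => absurd (Finset.mem_range.2 hk) hh
  have hAp : ∀ k < t, ∀ i, f k * A ^ (i + 1) = f k * a k ^ (i + 1) := by
    intro k hk i
    induction i with
    | zero => rw [zero_add, pow_one, pow_one, hA k hk]
    | succ i ih =>
      have e1 : f k * A ^ (i + 1 + 1) = (f k * A ^ (i + 1)) * A := by ring
      have e2 : f k * a k ^ (i + 1) * A = a k ^ (i + 1) * (f k * A) := by ring
      rw [e1, ih, e2, hA k hk]
      ring
  refine ⟨f, A, fun k hk => hid k (hk.trans_le hmt), fun k hk => h2 k (hk.trans_le hmt),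
    fun k hk l hl => h3 k (hk.trans_le hmt) l (hl.trans_le hmt), ?_⟩
  intro k hk i hi j hj hij
  have hk' := hk.trans_le hmt
  obtain ⟨c, hc⟩ := ha k hk' i hi j hj hij
  refine ⟨f k * c, ?_⟩
  have e1 : (A ^ (i + 1) - A ^ (j + 1)) * (f k * c) =
      (f k * A ^ (i + 1) - f k * A ^ (j + 1)) * c := by ring
  rw [e1, hAp k hk', hAp k hk']
  have e2 : (f k * a k ^ (i + 1) - f k * a k ^ (j + 1)) * c =
      f k * ((a k ^ (i + 1) - a k ^ (j + 1)) * c) := by ring
  rw [e2, ← hc, hid k hk']

theorem sum_idem {t : ℕ} {f : ℕ → R} (hid : ∀ k < t, f k * f k = f k)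
    (ho : ∀ k < t, ∀ l < t, k ≠ l → f k * f l = 0) :
    ∀ k < t, f k * (∑ l ∈ Finset.range t, f l) = f k := by
  intro k hk
  rw [Finset.mul_sum, Finset.sum_eq_single k]
  · exact hid k hk
  · intro l hl hlk
    exact ho k hk l (Finset.mem_range.1 hl) hlk.symm
  · exact fun hh => absurd (Finset.mem_range.2 hk) hh

/-- a maximal family of large idempotents -/
theorem exists_fam (m : ℕ) (hm : ¬ ∃ (e : ℕ → R) (a : R), (∀ k < m, e k * e k = e k) ∧
    (∀ k < m, e k ≠ 0) ∧ (∀ k < m, ∀ l < m, k ≠ l → e k * e l = 0) ∧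
    ∀ k < m, ∀ i < m, ∀ j < m, i ≠ j → (a ^ (i + 1) - a ^ (j + 1)) ∣ e k) :
    ∃ (t : ℕ) (f : ℕ → R), Fam m t f ∧
      (∀ g : R, Lrg m g → g * (1 - ∑ l ∈ Finset.range t, f l) = 0) ∧
      ∀ k < t, ∀ g : R, g * g = g → g * f k = g → g = 0 ∨ g = f k := by
  classical
  have hex : ∃ t, (∃ f : ℕ → R, Fam m t f) ∧ ∀ t', (∃ f : ℕ → R, Fam m t' f) → t' ≤ t := by
    have hb : ∀ t, (∃ f : ℕ → R, Fam m t f) → t ≤ m := by
      rintro t ⟨f, hf⟩
      by_contra hlt
      exact hm (fam_big hf (not_le.1 hlt).le)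
    have h0 : ∃ f : ℕ → R, Fam m 0 f :=
      ⟨fun _ => 0, fun k hk => absurd hk (Nat.not_lt_zero k),
        fun k hk => absurd hk (Nat.not_lt_zero k), fun k hk => absurd hk (Nat.not_lt_zero k)⟩
    refine ⟨Nat.findGreatest (fun t => ∃ f : ℕ → R, Fam m t f) m,
      Nat.findGreatest_spec (P := fun t => ∃ f : ℕ → R, Fam m t f) (Nat.zero_le m) h0,
      fun t' ht' => Nat.le_findGreatest (hb t' ht') ht'⟩
  obtain ⟨t, ⟨f, hf⟩, hmax⟩ := hex
  obtain ⟨h1, h2, h3⟩ := hf
  have hid : ∀ k < t, f k * f k = f k := fun k hk => (h1 k hk).1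
  have hs := sum_idem hid h3
  refine ⟨t, f, ⟨h1, h2, h3⟩, ?_, ?_⟩
  · intro g hg
    by_contra hne
    let s : R := ∑ l ∈ Finset.range t, f l
    have hss : s * s = s := by
      show (∑ l ∈ Finset.range t, f l) * s = _
      rw [Finset.sum_mul]
      exact Finset.sum_congr rfl fun k hk => hs k (Finset.mem_range.1 hk)
    have h1s : (1 - s) * (1 - s) = 1 - s := by
      have : (1 - s) * (1 - s) = 1 - s - s + s * s := by ring
      rw [this, hss]
      ring
    have hg' : Lrg m (g * (1 - s)) := by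
      rw [mul_comm]
      exact hg.mul h1s
    have hfo : ∀ k < t, f k * (g * (1 - s)) = 0 := by
      intro k hk
      have : f k * (g * (1 - s)) = g * (f k - f k * s) := by ring
      rw [this, hs k hk, sub_self, mul_zero]
    let f' : ℕ → R := fun k => if k < t then f k else g * (1 - s)
    have hf'1 : ∀ k < t, f' k = f k := fun k hk => if_pos hk
    have hf'2 : f' t = g * (1 - s) := if_neg (lt_irrefl t)
    have : t + 1 ≤ t := hmax (t + 1) ⟨f', ?_, ?_, ?_⟩
    · omega
    · intro k hk
      rcases Nat.lt_succ_iff_lt_or_eq.1 hk with hk' | rfl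
      · rw [hf'1 k hk']; exact h1 k hk'
      · rw [hf'2]; exact hg'
    · intro k hk
      rcases Nat.lt_succ_iff_lt_or_eq.1 hk with hk' | rfl
      · rw [hf'1 k hk']; exact h2 k hk'
      · rw [hf'2]; exact hne
    · intro k hk l hl hkl
      rcases Nat.lt_succ_iff_lt_or_eq.1 hk with hk' | rfl <;>
        rcases Nat.lt_succ_iff_lt_or_eq.1 hl with hl' | rfl
      · rw [hf'1 k hk', hf'1 l hl']; exact h3 k hk' l hl' hkl
      · rw [hf'1 k hk', hf'2]; exact hfo k hk'
      · rw [hf'1 l hl', hf'2, mul_comm]; exact hfo l hl'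
      · exact absurd rfl hkl
  · intro k hk g hg hgk
    by_contra hc
    push Not at hc
    obtain ⟨hg0, hgf⟩ := hc
    let f' : ℕ → R := fun i => if i = t then g else if i = k then f k - g else f i
    have hf't : f' t = g := if_pos rfl
    have hkt : k ≠ t := hk.ne
    have hf'k : f' k = f k - g := by
      show (if k = t then g else if k = k then f k - g else f k) = _
      rw [if_neg hkt, if_pos rfl]
    have hf'o : ∀ i < t, i ≠ k → f' i = f i := by
      intro i hi hik
      show (if i = t then g else if i = k then f k - g else f i) = _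
      rw [if_neg hi.ne, if_neg hik]
    have hkk := hid k hk
    have hLg : Lrg m g := by
      have := (h1 k hk).mul hg
      rw [hgk] at this
      exact this
    have hkg : f k * g = g := by rw [mul_comm]; exact hgk
    have hid2 : (f k - g) * (f k - g) = f k - g := by
      have : (f k - g) * (f k - g) = f k * f k - f k * g - f k * g + g * g := by ring
      rw [this, hkk, hkg, hg]
      ring
    have hLk : Lrg m (f k - g) := by
      have := (h1 k hk).mul hid2
      have e : (f k - g) * f k = f k - g := by rw [sub_mul, hkk, hgk]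
      rw [e] at this
      exact this
    have hog : ∀ i < t, i ≠ k → f i * g = 0 := by
      intro i hi hik
      rw [← hkg, ← mul_assoc, h3 i hi k hk hik, zero_mul]
    have hok : ∀ i < t, i ≠ k → f i * (f k - g) = 0 := by
      intro i hi hik
      rw [mul_sub, h3 i hi k hk hik, hog i hi hik, sub_self]
    have hgg : g * (f k - g) = 0 := by rw [mul_sub, hgk, hg, sub_self]
    have : t + 1 ≤ t := hmax (t + 1) ⟨f', ?_, ?_, ?_⟩
    · omega
    · intro i hi
      rcases Nat.lt_succ_iff_lt_or_eq.1 hi with hi' | rfl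
      · by_cases hik : i = k
        · rw [hik, hf'k]; exact hLk
        · rw [hf'o i hi' hik]; exact h1 i hi'
      · rw [hf't]; exact hLg
    · intro i hi
      rcases Nat.lt_succ_iff_lt_or_eq.1 hi with hi' | rfl
      · by_cases hik : i = k
        · rw [hik, hf'k]
          exact fun h0 => hgf (sub_eq_zero.1 h0).symm
        · rw [hf'o i hi' hik]; exact h2 i hi'
      · rw [hf't]; exact hg0
    · have key : ∀ i < t + 1, ∀ l < t + 1, i < l → f' i * f' l = 0 := by
        intro i hi l hl hil
        have hi' : i < t := by omega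
        rcases Nat.lt_succ_iff_lt_or_eq.1 hl with hl' | rfl
        · by_cases hik : i = k
          · subst hik
            rw [hf'k, hf'o l hl' (by omega), mul_comm]
            exact hok l hl' (by omega)
          · by_cases hlk : l = k
            · subst hlk
              rw [hf'k, hf'o i hi' hik]
              exact hok i hi' hik
            · rw [hf'o i hi' hik, hf'o l hl' hlk]
              exact h3 i hi' l hl' hil.ne
        · rw [hf't]
          by_cases hik : i = k
          · subst hik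
            rw [hf'k, mul_comm]
            exact hgg
          · rw [hf'o i hi' hik]
            exact hog i hi' hik
      intro i hi l hl hil
      rcases lt_or_gt_of_ne hil with h4 | h4
      · exact key i hi l hl h4
      · rw [mul_comm]
        exact key l hl i hi h4

end

end Pool.Agent.Hp8CR
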