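import Pool.Agent.Hp8CR.Alg

set_option autoImplicit false
set_option linter.style.haveILetI false

/-!
Commutative algebra: a strongly pi-regular ring without large parts, which is the product of a
reduced ring and a ring of finite length, is the product of a ring with `x ^ q = x` and an Artinian
ring.
-/

namespace Pool.Agent.Hp8CR

open Ideal

section
variable {R : Type} [CommRing R]

theorem red_pow {e : R} (h : ∀ x : R, e * (x * x) = 0 → e * x = 0) (K : ℕ) (x : R)
    (hx : e * x ^ K = 0) : e * x = 0 := by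
  have h1 : ∀ j : ℕ, e * x ^ 2 ^ j = 0 → e * x = 0 := by
    intro j
    induction j with
    | zero => intro h0; simpa using h0
    | succ j ih =>
      intro h0
      refine ih (h _ ?_)
      rw [← pow_two, ← pow_mul, ← pow_succ]
      exact h0
  refine h1 K ?_
  obtain ⟨c, hc⟩ := pow_dvd_pow x (Nat.lt_two_pow_self (n := K)).le
  rw [hc, ← mul_assoc, hx, zero_mul]

/-- the product of the differences of the powers -/
def Qd (m : ℕ) (a : R) : R :=
  ∏ p ∈ (Finset.range m ×ˢ Finset.range m).filter (fun p => p.1 < p.2),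
    (a ^ (p.1 + 1) - a ^ (p.2 + 1))

theorem dvd_Qd {m : ℕ} (a : R) {i j : ℕ} (hi : i < m) (hj : j < m) (hij : i ≠ j) :
    (a ^ (i + 1) - a ^ (j + 1)) ∣ Qd m a := by
  rcases lt_or_gt_of_ne hij with h | h
  · exact Finset.dvd_prod_of_mem (fun p : ℕ × ℕ => a ^ (p.1 + 1) - a ^ (p.2 + 1))
      (Finset.mem_filter.2 ⟨Finset.mem_product.2
        ⟨Finset.mem_range.2 hi, Finset.mem_range.2 hj⟩, h⟩ : (i, j) ∈ _)
  · have h1 : (a ^ (j + 1) - a ^ (i + 1)) ∣ Qd m a :=
      Finset.dvd_prod_of_mem (fun p : ℕ × ℕ => a ^ (p.1 + 1) - a ^ (p.2 + 1))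
        (Finset.mem_filter.2 ⟨Finset.mem_product.2
          ⟨Finset.mem_range.2 hj, Finset.mem_range.2 hi⟩, h⟩ : (j, i) ∈ _)
    rw [← neg_sub, neg_dvd]
    exact h1

theorem Qd_dvd (m : ℕ) (a : R) : ∃ K : ℕ, Qd m a ∣ (a ^ (m.factorial + 1) - a) ^ K := by
  refine ⟨m * ((Finset.range m ×ˢ Finset.range m).filter (fun p => p.1 < p.2)).card, ?_⟩
  rw [pow_mul, ← Finset.prod_const]
  refine Finset.prod_dvd_prod_of_dvd _ _ fun p hp => ?_
  obtain ⟨hp1, hp2⟩ := Finset.mem_filter.1 hp
  obtain ⟨hp3, hp4⟩ := Finset.mem_product.1 hp1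
  rw [Finset.mem_range] at hp3 hp4
  have e1 : a ^ (p.1 + 1) - a ^ (p.2 + 1) = a ^ (p.1 + 1) * (1 - a ^ (p.2 - p.1)) := by
    rw [mul_sub, mul_one, ← pow_add]
    congr 2
    omega
  have e2 : (a ^ (m.factorial + 1) - a) ^ m = a ^ m * (a ^ m.factorial - 1) ^ m := by
    rw [← mul_pow]
    congr 1
    ring
  rw [e1, e2]
  refine mul_dvd_mul (pow_dvd_pow a (by omega)) ?_
  have h1 : p.2 - p.1 ∣ m.factorial := Nat.dvd_factorial (by omega) (by omega)
  obtain ⟨c, hc⟩ := h1
  have h2 : (1 - a ^ (p.2 - p.1)) ∣ (a ^ m.factorial - 1) := by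
    rw [← neg_sub, neg_dvd, hc, pow_mul]
    have := sub_dvd_pow_sub_pow (a ^ (p.2 - p.1)) 1 c
    rw [one_pow] at this
    exact this
  exact h2.trans (dvd_pow_self _ (by omega))

theorem chn_simple {h : R} (hh : ∀ x : R, h * x = 0 ∨ h * x ∣ h) : Chn h 1 := by
  intro y
  rcases hh (y 0) with h0 | ⟨d, hd⟩
  · exact ⟨0, by omega, fun _ => 0, by simpa using h0⟩
  · refine ⟨1, le_rfl, fun _ => d * y 1, ?_⟩
    rw [Finset.sum_range_one]
    conv_lhs => rw [hd]
    ring

/-- The structure theorem. -/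
theorem structure_thm {n m l : ℕ} (hpi : ∀ a : R, a ^ (n + 1) ∣ a ^ n)
    (hm : ¬ ∃ (e : ℕ → R) (a : R), (∀ k < m, e k * e k = e k) ∧
      (∀ k < m, e k ≠ 0) ∧ (∀ k < m, ∀ l < m, k ≠ l → e k * e l = 0) ∧
      ∀ k < m, ∀ i < m, ∀ j < m, i ≠ j → (a ^ (i + 1) - a ^ (j + 1)) ∣ e k)
    {e : R} (he : e * e = e) (hred : ∀ x : R, e * (x * x) = 0 → e * x = 0)
    (hch : Chn (1 - e) l) :
    ∃ (q : ℕ) (e1 : R), 2 ≤ q ∧ e1 * e1 = e1 ∧ (∀ y, (e1 * y) ^ q = e1 * y) ∧
      IsArtinianRing (R ⧸ span {e1}) := by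
  classical
  obtain ⟨t, f, ⟨hf1, hf2, hf3⟩, hmax, hmin⟩ := exists_fam m hm
  have hid : ∀ k < t, f k * f k = f k := fun k hk => (hf1 k hk).1
  have hs := sum_idem hid hf3
  let s : R := ∑ l ∈ Finset.range t, f l
  have hss : s * s = s := by
    show (∑ l ∈ Finset.range t, f l) * s = _
    rw [Finset.sum_mul]
    exact Finset.sum_congr rfl fun k hk => hs k (Finset.mem_range.1 hk)
  let e1 : R := e * (1 - s)
  have he1 : e1 * e1 = e1 := by
    have : e1 * e1 = (e * e) * (1 - s - s + s * s) := by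
      show e * (1 - s) * (e * (1 - s)) = _
      ring
    rw [this, he, hss]
    show _ = e * (1 - s)
    ring
  have hQ : ∀ a : R, (1 - s) * (Qd m a) ^ n = 0 := by
    intro a
    obtain ⟨g, hg1, hg2, hg3⟩ := idem_of_pi hpi (Qd m a)
    have hL : Lrg m g := ⟨hg1, a, fun i hi j hj hij => (dvd_Qd a hi hj hij).trans hg2⟩
    have h1 := hmax g hL
    have h2 : (1 - s) * (Qd m a) ^ n = (1 - s) * ((1 - g) * (Qd m a) ^ n) +
        (g * (1 - s)) * (Qd m a) ^ n := by ring
    rw [h2, hg3, h1]
    ring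
  have hM : ∀ a : R, e1 * (a ^ (m.factorial + 1) - a) = 0 := by
    intro a
    obtain ⟨K, c, hc⟩ := Qd_dvd m a
    have h1 : (1 - s) * (a ^ (m.factorial + 1) - a) ^ (K * n) = 0 := by
      rw [pow_mul, hc, mul_pow, ← mul_assoc, hQ, zero_mul]
    have h2 := red_pow hred (K * n + 1) ((1 - s) * (a ^ (m.factorial + 1) - a)) (by
      have : e * ((1 - s) * (a ^ (m.factorial + 1) - a)) ^ (K * n + 1) =
          e * (1 - s) ^ (K * n) * ((1 - s) * (a ^ (m.factorial + 1) - a) ^ (K * n)) *
            (a ^ (m.factorial + 1) - a) := by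
        generalize a ^ (m.factorial + 1) - a = X
        rw [pow_succ, mul_pow]
        ring
      rw [this, h1]
      ring)
    show e * (1 - s) * _ = 0
    rw [mul_assoc]
    exact h2
  refine ⟨m.factorial + 1, e1, ?_, he1, ?_, ?_⟩
  · have := Nat.factorial_pos m
    omega
  · intro y
    have hep : ∀ k : ℕ, e1 ^ (k + 1) = e1 := by
      intro k
      induction k with
      | zero => simp
      | succ k ih => rw [pow_succ, ih, he1]
    rw [mul_pow, hep]
    have := hM y
    rw [mul_sub, sub_eq_zero] at this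
    exact this
  · have hA0 : IsArtinian R (span {1 - e} : Ideal R) := by
      refine artinian_of_chn ?_ hch
      have : (1 - e) * (1 - e) = 1 - e - e + e * e := by ring
      rw [this, he]
      ring
    have hAk : ∀ k : Fin t, IsArtinian R (span {e * f k} : Ideal R) := by
      intro k
      have hk1 : e * f k * (e * f k) = e * f k := by
        have : e * f k * (e * f k) = (e * e) * (f k * f k) := by ring
        rw [this, he, hid k k.2]
      refine artinian_of_chn (l := 1) hk1 (chn_simple ?_)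
      intro x
      rcases hmin k k.2 (e * f k) hk1 (by rw [mul_assoc, hid k k.2]) with h0 | h0
      · left
        rw [h0, zero_mul]
      · obtain ⟨g, hg1, hg2, hg3⟩ := idem_of_pi hpi (e * f k * x)
        have hgf : g * f k = g := by
          obtain ⟨c, hc⟩ := hg2
          rw [hc]
          have : e * f k * x * c * f k = e * (f k * f k) * x * c := by ring
          rw [this, hid k k.2]
        rcases hmin k k.2 g hg1 hgf with h1 | h1
        · left
          rw [h1, sub_zero, one_mul] at hg3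
          have h2 : e * (e * f k * x) ^ n = 0 := by rw [hg3, mul_zero]
          have h3 := red_pow hred n _ h2
          rw [← mul_assoc, ← mul_assoc, he] at h3
          exact h3
        · right
          rw [h1] at hg2
          conv_rhs => rw [h0]
          exact hg2
    have hA1 : IsArtinian R (⨆ k : Fin t, (span {e * f k} : Ideal R) : Ideal R) :=
      isArtinian_iSup
    have hA2 : IsArtinian R ((span {1 - e} : Ideal R) ⊔
      ⨆ k : Fin t, (span {e * f k} : Ideal R) : Ideal R) := isArtinian_sup _ _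
    have hle : (span {1 - e1} : Ideal R) ≤ (span {1 - e} : Ideal R) ⊔
        ⨆ k : Fin t, (span {e * f k} : Ideal R) := by
      rw [span_singleton_le_iff_mem]
      have h1 : 1 - e1 = (1 - e) + ∑ k : Fin t, e * f k := by
        show 1 - e * (1 - s) = _
        rw [← Finset.mul_sum, Fin.sum_univ_eq_sum_range (fun k => f k) t]
        show 1 - e * (1 - s) = 1 - e + e * s
        ring
      rw [h1]
      refine Submodule.add_mem _ (Submodule.mem_sup_left (mem_span_singleton_self _)) ?_
      refine Submodule.mem_sup_right (Submodule.sum_mem _ fun k _ => ?_)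
      exact Submodule.mem_iSup_of_mem k (mem_span_singleton_self _)
    have hA3 : IsArtinian R (span {1 - e1} : Ideal R) := isArtinian_of_le hle
    have hA4 : IsArtinian R (R ⧸ (span {e1} : Ideal R)) := by
      refine isArtinian_of_surjective _
        ((Submodule.mkQ (span {e1} : Ideal R)).comp (Submodule.subtype (span {1 - e1} : Ideal R)))
        ?_
      intro x
      obtain ⟨y, rfl⟩ := Submodule.mkQ_surjective _ x
      refine ⟨⟨(1 - e1) * y, mul_mem_right _ _ (mem_span_singleton_self _)⟩, ?_⟩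
      show Submodule.mkQ _ ((1 - e1) * y) = Submodule.mkQ _ y
      rw [← sub_eq_zero, ← map_sub, Submodule.mkQ_apply, Submodule.Quotient.mk_eq_zero]
      have : (1 - e1) * y - y = e1 * (-y) := by ring
      rw [this]
      exact mul_mem_right _ _ (mem_span_singleton_self _)
    exact isArtinian_of_tower R hA4

end

end Pool.Agent.Hp8CR
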