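import Pool.Agent.Hp8CR.Wit

set_option autoImplicit false
set_option linter.style.haveILetI false

/-!
Countable Artinian rings whose residue fields are finite or algebraically closed: there are
countably many isomorphism types.
-/

namespace Pool.Agent.Hp8CR

open Ideal WittVector

section
variable {Λ B K : Type} [CommRing Λ] [CommRing B] [Field K] (π : B →+* K) {N : ℕ}

theorem cov_of_res (f : Λ →+* B) (hf : Function.Surjective (π.comp f))
    (hn : RingHom.ker π ^ N = ⊥) (hfg : (RingHom.ker π).FG) : Cov Λ B := by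
  obtain ⟨r, b, hb⟩ := Submodule.fg_iff_exists_fin_generating_family.1 hfg
  let g : MvPolynomial (Fin r) Λ →+* B := MvPolynomial.eval₂Hom f b
  have hgC : ∀ c, g (MvPolynomial.C c) = f c := fun c => MvPolynomial.eval₂Hom_C f b c
  have hgX : ∀ i, g (MvPolynomial.X i) = b i := fun i => MvPolynomial.eval₂Hom_X' f b i
  have hA : ∀ k : ℕ, ∀ z ∈ RingHom.ker π ^ k, ∃ s, z - g s ∈ RingHom.ker π ^ (k + 1) := by
    intro k
    induction k with
    | zero =>
      intro z _
      obtain ⟨c, hc⟩ := hf (π z)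
      refine ⟨MvPolynomial.C c, ?_⟩
      rw [hgC, zero_add, pow_one, RingHom.mem_ker, map_sub, sub_eq_zero]
      exact hc.symm
    | succ k ih =>
      intro z hz
      rw [pow_succ] at hz
      refine Submodule.mul_induction_on hz ?_ ?_
      · intro a ha n hn'
        rw [← hb] at hn'
        have key : ∀ a ∈ RingHom.ker π ^ k, ∃ s, a * n - g s ∈ RingHom.ker π ^ (k + 1 + 1) := by
          refine Submodule.span_induction (p := fun n _ => ∀ a ∈ RingHom.ker π ^ k,
            ∃ s, a * n - g s ∈ RingHom.ker π ^ (k + 1 + 1)) ?_ ?_ ?_ ?_ hn'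
          · rintro _ ⟨i, rfl⟩ a ha
            obtain ⟨s, hs⟩ := ih a ha
            refine ⟨s * MvPolynomial.X i, ?_⟩
            rw [map_mul, hgX, ← sub_mul, pow_succ]
            refine Ideal.mul_mem_mul hs ?_
            rw [← hb]
            exact Submodule.subset_span ⟨i, rfl⟩
          · intro a _
            exact ⟨0, by simp⟩
          · intro x y _ _ hx hy a ha
            obtain ⟨s, hs⟩ := hx a ha
            obtain ⟨t, ht⟩ := hy a ha
            refine ⟨s + t, ?_⟩
            have : a * (x + y) - g (s + t) = (a * x - g s) + (a * y - g t) := by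
              rw [map_add]
              ring
            rw [this]
            exact Ideal.add_mem _ hs ht
          · intro c x _ hx a ha
            obtain ⟨s, hs⟩ := hx (a * c) (Ideal.mul_mem_right _ _ ha)
            refine ⟨s, ?_⟩
            rw [smul_eq_mul, ← mul_assoc]
            exact hs
        exact key a ha
      · rintro x y ⟨s, hs⟩ ⟨t, ht⟩
        refine ⟨s + t, ?_⟩
        have : x + y - g (s + t) = (x - g s) + (y - g t) := by
          rw [map_add]
          ring
        rw [this]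
        exact Ideal.add_mem _ hs ht
  have hB : ∀ k : ℕ, ∀ z, ∃ s, z - g s ∈ RingHom.ker π ^ k := by
    intro k
    induction k with
    | zero => exact fun z => ⟨0, by simp⟩
    | succ k ih =>
      intro z
      obtain ⟨s, hs⟩ := ih z
      obtain ⟨t, ht⟩ := hA k _ hs
      refine ⟨s + t, ?_⟩
      have : z - g (s + t) = z - g s - g t := by
        rw [map_add]
        ring
      rw [this]
      exact ht
  refine ⟨r, g, fun z => ?_⟩
  obtain ⟨s, hs⟩ := hB N z
  rw [hn] at hs
  exact ⟨s, (sub_eq_zero.1 hs).symm⟩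

theorem isUnit_of_res (hn : RingHom.ker π ^ N = ⊥) (hπ : Function.Surjective π) {b : B}
    (hb : π b ≠ 0) : IsUnit b := by
  obtain ⟨c, hc⟩ := hπ (π b)⁻¹
  have h1 : b * c - 1 ∈ RingHom.ker π := by
    rw [RingHom.mem_ker, map_sub, map_mul, hc, map_one, mul_inv_cancel₀ hb, sub_self]
  have h2 : IsNilpotent (b * c - 1) := by
    refine ⟨N, ?_⟩
    have := Ideal.pow_mem_pow h1 N
    rw [hn] at this
    exact this
  have h3 : IsUnit (b * c) := by
    have := h2.isUnit_add_one
    rwa [sub_add_cancel] at this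
  exact isUnit_of_mul_isUnit_left h3

theorem exists_section [CharZero K] (hπ : Function.Surjective π) (hn : RingHom.ker π ^ N = ⊥) :
    ∃ f : K →+* B, Function.Surjective (π.comp f) := by
  have hu : ∀ y : nonZeroDivisors ℤ, IsUnit (Int.castRingHom B y) := by
    rintro ⟨y, hy⟩
    refine isUnit_of_res π hn hπ ?_
    show π ((y : ℤ) : B) ≠ 0
    rw [map_intCast, Int.cast_ne_zero]
    exact nonZeroDivisors.ne_zero hy
  letI : Algebra ℚ B := (IsLocalization.lift (M := nonZeroDivisors ℤ) (S := ℚ) hu).toAlgebra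
  obtain ⟨s, hs⟩ := exists_isTranscendenceBasis ℚ K
  haveI := hs.isAlgebraic_field
  haveI : Algebra.FormallySmooth ℚ K :=
    Algebra.FormallySmooth.of_algebraicIndependent_of_isSeparable hs.1
  let πQ : B →ₐ[ℚ] K := π.toRatAlgHom
  have hker : IsNilpotent (RingHom.ker (πQ : B →+* K)) := ⟨N, hn⟩
  let f : K →ₐ[ℚ] B := Algebra.FormallySmooth.liftOfSurjective (AlgHom.id ℚ K) πQ hπ hker
  refine ⟨(f : K →+* B), fun c => ⟨c, ?_⟩⟩
  exact Algebra.FormallySmooth.liftOfSurjective_apply (AlgHom.id ℚ K) πQ hπ hker c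

end

/-- local rings with given residue field -/
def LocP (E : ℕ → Ff) (B : Type) [CommRing B] : Prop :=
  ∃ (j : ℕ) (π : B →+* (E j).1) (N : ℕ), GoodF (E j).1 ∧ Function.Surjective π ∧
    RingHom.ker π ^ N = ⊥ ∧ (RingHom.ker π).FG

theorem perfectRing_of_good {K : Type} [Field K] (h : GoodF K) (p : ℕ) [Fact p.Prime] [CharP K p] :
    PerfectRing K p := by
  obtain ⟨-, h | h⟩ := h
  · infer_instance
  · infer_instance

theorem few_loc (E : ℕ → Ff) : FewR (fun (B : Type) [CommRing B] => LocP E B) := by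
  classical
  let W : Option (Nat.Primes × ℕ) → ℕ → Fm := fun o j => match o with
    | none => ⟨(E j).1, inferInstance⟩
    | some (p, N) => ⟨@WN p ⟨p.2⟩ (E j).1 _ N, inferInstance⟩
  have h1 : ∀ d : Option (Nat.Primes × ℕ) × ℕ, FewR (fun (B : Type) [CommRing B] =>
      (Countable (W d.1 d.2).1 ∧ IsNoetherianRing (W d.1 d.2).1) ∧ Cov (W d.1 d.2).1 B) := by
    intro d
    by_cases hj : Countable (W d.1 d.2).1 ∧ IsNoetherianRing (W d.1 d.2).1
    · haveI := hj.1
      haveI := hj.2
      exact (few_cov (W d.1 d.2).1).mono fun B _ hB => hB.2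
    · exact ⟨fun _ => ⟨ℤ, inferInstance⟩, fun A _ hA => absurd hA.1 hj⟩
  refine (FewR.iUnion h1).mono fun B _ hB => ?_
  obtain ⟨j, π, N, hG, hπ, hn, hfg⟩ := hB
  haveI := hG.1
  obtain ⟨p, hp⟩ := CharP.exists (E j).1
  rcases CharP.char_is_prime_or_zero (E j).1 p with h0 | h0
  · haveI : Fact p.Prime := ⟨h0⟩
    haveI := perfectRing_of_good hG p
    obtain ⟨f, hf⟩ := exists_witt π p hπ hn
    refine ⟨(some (⟨p, h0⟩, N), j), wn_props p (E j).1 N, ?_⟩
    have hpN : ∀ a ∈ span {((p : WittVector p (E j).1) ^ N)}, f a = 0 := by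
      intro a ha
      obtain ⟨c, rfl⟩ := mem_span_singleton'.1 ha
      have h2 : (p : B) ^ N ∈ RingHom.ker π ^ N := by
        refine Ideal.pow_mem_pow ?_ N
        rw [RingHom.mem_ker, map_natCast, CharP.cast_eq_zero]
      rw [hn] at h2
      rw [map_mul, map_pow, map_natCast, show (p : B) ^ N = 0 from h2, mul_zero]
    refine cov_of_res π (Ideal.Quotient.lift _ f hpN) ?_ hn hfg
    intro c
    obtain ⟨x, hx⟩ := hf c
    exact ⟨Ideal.Quotient.mk _ x, hx⟩
  · subst h0
    haveI : CharZero (E j).1 := CharP.charP_to_charZero _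
    obtain ⟨f, hf⟩ := exists_section π hπ hn
    exact ⟨(none, j), ⟨hG.1, inferInstance⟩, cov_of_res π f hf hn hfg⟩

/-- the Artinian rings that we consider -/
def GoodA (F : Type) [CommRing F] : Prop :=
  Countable F ∧ IsArtinianRing F ∧
    ∀ (K : Type) [Field K] (ρ : F →+* K), Function.Surjective ρ → Finite K ∨ IsAlgClosed K

theorem few_artinian : FewR (fun (F : Type) [CommRing F] => GoodA F) := by
  classical
  obtain ⟨E, hE⟩ := few_fields
  refine (few_loc E).prod.mono fun F _ hF => ?_
  obtain ⟨h1, h2, h3⟩ := hF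
  haveI := h1
  haveI := h2
  obtain ⟨N, hN⟩ := IsArtinianRing.isNilpotent_nilradical (R := F)
  let e := IsArtinianRing.quotNilradicalPowEquivPi F N
  haveI : Finite (MaximalSpectrum F) := inferInstance
  obtain ⟨n, ⟨g⟩⟩ := Finite.exists_equiv_fin (MaximalSpectrum F)
  refine ⟨n, fun i => F ⧸ (g.symm i).asIdeal ^ N, inferInstance, fun i => ?_, ?_⟩
  · letI : Field (F ⧸ (g.symm i).asIdeal) := Ideal.Quotient.field _
    have hct : Countable (F ⧸ (g.symm i).asIdeal) :=
      (Ideal.Quotient.mk_surjective (I := (g.symm i).asIdeal)).countable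
    have hG : GoodF (F ⧸ (g.symm i).asIdeal) :=
      ⟨hct,
        h3 (F ⧸ (g.symm i).asIdeal) (Ideal.Quotient.mk (g.symm i).asIdeal)
          Ideal.Quotient.mk_surjective⟩
    obtain ⟨j, ⟨e'⟩⟩ := hE _ hG
    have hG' : GoodF (E j).1 := by
      refine ⟨e'.symm.injective.countable, ?_⟩
      rcases hG.2 with h | h
      · exact Or.inl (Finite.of_equiv _ e'.toEquiv)
      · exact Or.inr (IsAlgClosed.of_ringEquiv _ _ e')
    rcases Nat.eq_zero_or_pos N with h0 | h0
    · exfalso
      rw [h0, pow_zero] at hN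
      have h4 : (1 : F) = 0 := by
        have : (1 : F) ∈ (1 : Ideal F) := by simp
        rw [hN] at this
        exact this
      exact (g.symm i).isMaximal.ne_top (Ideal.eq_top_of_isUnit_mem _
        (by rw [h4]; exact Ideal.zero_mem _ : (1 : F) ∈ (g.symm i).asIdeal) isUnit_one)
    have hle : (g.symm i).asIdeal ^ N ≤ (g.symm i).asIdeal := Ideal.pow_le_self (by omega)
    let π : (F ⧸ (g.symm i).asIdeal ^ N) →+* (E j).1 :=
      (e' : _ →+* (E j).1).comp (Ideal.Quotient.factor hle)
    have hker : ∀ x, π (Ideal.Quotient.mk _ x) = 0 ↔ x ∈ (g.symm i).asIdeal := by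
      intro x
      show e' (Ideal.Quotient.mk _ x) = 0 ↔ _
      rw [map_eq_zero_iff e' e'.injective, Ideal.Quotient.eq_zero_iff_mem]
    have hk : RingHom.ker π = (g.symm i).asIdeal.map (Ideal.Quotient.mk _) := by
      ext y
      obtain ⟨x, rfl⟩ := Ideal.Quotient.mk_surjective y
      rw [RingHom.mem_ker, hker, Ideal.mem_map_iff_of_surjective _ Ideal.Quotient.mk_surjective]
      constructor
      · intro hx
        exact ⟨x, hx, rfl⟩
      · rintro ⟨z, hz, hzx⟩
        rw [Ideal.Quotient.eq] at hzx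
        have := hle hzx
        have h5 := Ideal.sub_mem _ hz this
        simpa using h5
    refine ⟨j, π, N, hG', ?_, ?_, ?_⟩
    · exact e'.surjective.comp (Ideal.Quotient.factor_surjective hle)
    · rw [hk, ← Ideal.map_pow, Ideal.map_quotient_self]
    · exact IsNoetherian.noetherian _
  · let e1 : F ≃+* (F ⧸ nilradical F ^ N) :=
      (RingEquiv.quotientBot F).symm.trans (Ideal.quotEquivOfEq hN.symm)
    let e2 : (F ⧸ nilradical F ^ N) ≃+* ∀ I : MaximalSpectrum F, F ⧸ I.asIdeal ^ N :=
      e.toRingEquiv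
    let e3 : (∀ I : MaximalSpectrum F, F ⧸ I.asIdeal ^ N) ≃+*
        ∀ i : Fin n, F ⧸ (g.symm i).asIdeal ^ N :=
      (RingEquiv.piCongrLeft' (fun I : MaximalSpectrum F => F ⧸ I.asIdeal ^ N) g)
    exact ⟨e1.trans (e2.trans e3)⟩

end Pool.Agent.Hp8CR
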