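import Pool.Agent.Hp8CR.Rel

set_option autoImplicit false
set_option linter.style.haveILetI false

/-!
Structures with the theory of a commutative ring are commutative rings.
-/

namespace Pool.Agent.Hp8CR

open FirstOrder FirstOrder.Language Pool.Agent.N641.VB

/-- sums of terms -/
def ta {n : ℕ} (s t : LR.Term (Empty ⊕ Fin n)) : LR.Term (Empty ⊕ Fin n) :=
  Functions.apply₂ (SymR.add : LR.Functions 2) s t

/-- products of terms -/
def tm {n : ℕ} (s t : LR.Term (Empty ⊕ Fin n)) : LR.Term (Empty ⊕ Fin n) :=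
  Functions.apply₂ (SymR.mul : LR.Functions 2) s t

/-- variables -/
def tv {n : ℕ} (i : Fin n) : LR.Term (Empty ⊕ Fin n) := Term.var (Sum.inr i)

/-- the addition of the structure -/
def sa {U : Type} (S : LR.Structure U) (x y : U) : U :=
  @Structure.funMap LR U S 2 SymR.add ![x, y]

/-- the multiplication of the structure -/
def sm {U : Type} (S : LR.Structure U) (x y : U) : U :=
  @Structure.funMap LR U S 2 SymR.mul ![x, y]

section
variable {U : Type} [S : LR.Structure U]

theorem real_ta {n : ℕ} (s t : LR.Term (Empty ⊕ Fin n)) (v : Empty ⊕ Fin n → U) :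
    (ta s t).realize v = sa S (s.realize v) (t.realize v) := Term.realize_functions_apply₂

theorem real_tm {n : ℕ} (s t : LR.Term (Empty ⊕ Fin n)) (v : Empty ⊕ Fin n → U) :
    (tm s t).realize v = sm S (s.realize v) (t.realize v) := Term.realize_functions_apply₂

theorem real_tv {n : ℕ} (i : Fin n) (v : Empty → U) (xs : Fin n → U) :
    (tv i).realize (Sum.elim v xs) = xs i := rfl

theorem real_eq3 (s t : LR.Term (Empty ⊕ Fin 3)) :
    Sentence.Realize U (BoundedFormula.all (BoundedFormula.all (BoundedFormula.all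
      (Term.bdEqual s t))) : LR.Sentence) ↔ ∀ a b c : U,
      s.realize (Sum.elim (default : Empty → U)
        (Fin.snoc (Fin.snoc (Fin.snoc (default : Fin 0 → U) a : Fin 1 → U) b : Fin 2 → U) c :
          Fin 3 → U)) =
      t.realize (Sum.elim (default : Empty → U)
        (Fin.snoc (Fin.snoc (Fin.snoc (default : Fin 0 → U) a : Fin 1 → U) b : Fin 2 → U) c :
          Fin 3 → U)) := Iff.rfl

end

/-- the axioms -/
def ax1 : LR.Sentence := BoundedFormula.all (BoundedFormula.all (BoundedFormula.all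
  (Term.bdEqual (ta (ta (tv 0) (tv 1)) (tv 2)) (ta (tv 0) (ta (tv 1) (tv 2))))))

/-- the axioms -/
def ax2 : LR.Sentence := BoundedFormula.all (BoundedFormula.all (BoundedFormula.all
  (Term.bdEqual (tm (tm (tv 0) (tv 1)) (tv 2)) (tm (tv 0) (tm (tv 1) (tv 2))))))

/-- the axioms -/
def ax3 : LR.Sentence := BoundedFormula.all (BoundedFormula.all (BoundedFormula.all
  (Term.bdEqual (tm (tv 0) (ta (tv 1) (tv 2))) (ta (tm (tv 0) (tv 1)) (tm (tv 0) (tv 2))))))

/-- the axioms -/
def ax4 : LR.Sentence := BoundedFormula.all (BoundedFormula.all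
  (Term.bdEqual (n := 2) (tm (tv 0) (tv 1)) (tm (tv 1) (tv 0))))

/-- the axioms -/
def ax5 : LR.Sentence := BoundedFormula.ex (BoundedFormula.all
  (Term.bdEqual (n := 2) (tm (tv 0) (tv 1)) (tv 1)))

/-- the axioms -/
def ax6 : LR.Sentence := BoundedFormula.ex (BoundedFormula.all
  ((Term.bdEqual (n := 2) (ta (tv 0) (tv 1)) (tv 1)) ⊓
    BoundedFormula.ex (Term.bdEqual (n := 3) (ta (tv 2) (tv 1)) (tv 0))))

theorem axs {U : Type} (S : LR.Structure U) :
    (@Sentence.Realize LR U S ax1 ↔ ∀ a b c, sa S (sa S a b) c = sa S a (sa S b c)) ∧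
    (@Sentence.Realize LR U S ax2 ↔ ∀ a b c, sm S (sm S a b) c = sm S a (sm S b c)) ∧
    (@Sentence.Realize LR U S ax3 ↔ ∀ a b c, sm S a (sa S b c) = sa S (sm S a b) (sm S a c)) ∧
    (@Sentence.Realize LR U S ax4 ↔ ∀ a b, sm S a b = sm S b a) ∧
    (@Sentence.Realize LR U S ax5 ↔ ∃ a, ∀ b, sm S a b = b) ∧
    (@Sentence.Realize LR U S ax6 ↔ ∃ a, ∀ b, sa S a b = b ∧ ∃ c, sa S c b = a) := by
  letI := S
  refine ⟨?_, ?_, ?_, ?_, ?_, ?_⟩
  · simp only [ax1, Sentence.Realize, Formula.Realize, BoundedFormula.realize_all,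
      BoundedFormula.realize_bdEqual, real_ta, real_tv]
    rfl
  · simp only [ax2, Sentence.Realize, Formula.Realize, BoundedFormula.realize_all,
      BoundedFormula.realize_bdEqual, real_tm, real_tv]
    rfl
  · simp only [ax3, Sentence.Realize, Formula.Realize, BoundedFormula.realize_all,
      BoundedFormula.realize_bdEqual, real_ta, real_tm, real_tv]
    rfl
  · simp only [ax4, Sentence.Realize, Formula.Realize, BoundedFormula.realize_all,
      BoundedFormula.realize_bdEqual, real_tm, real_tv]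
    rfl
  · simp only [ax5, Sentence.Realize, Formula.Realize, BoundedFormula.realize_all,
      BoundedFormula.realize_ex, BoundedFormula.realize_bdEqual, real_tm, real_tv]
    rfl
  · simp only [ax6, Sentence.Realize, Formula.Realize, BoundedFormula.realize_all,
      BoundedFormula.realize_inf,
      BoundedFormula.realize_ex, BoundedFormula.realize_bdEqual, real_ta, real_tv]
    rfl

/-- structures with the theory of a commutative ring -/
theorem exists_ring {U : Type} (S : LR.Structure U) {A : Type} [R : CommRing A]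
    (h : ∀ χ : LR.Sentence, @Sentence.Realize LR U S χ ↔
      @Sentence.Realize LR A (strR inferInstance) χ) : ∃ R : CommRing U, S = strR R := by
  obtain ⟨s1, s2, s3, s4, s5, s6⟩ := axs S
  obtain ⟨a1, a2, a3, a4, a5, a6⟩ := axs (strR R)
  have h1 := s1.1 ((h ax1).2 (a1.2 fun a b c => R.add_assoc a b c))
  have h2 := s2.1 ((h ax2).2 (a2.2 fun a b c => R.mul_assoc a b c))
  have h3 := s3.1 ((h ax3).2 (a3.2 fun a b c => R.left_distrib a b c))
  have h4 := s4.1 ((h ax4).2 (a4.2 fun a b => R.mul_comm a b))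
  obtain ⟨o, h5⟩ := s5.1 ((h ax5).2 (a5.2 ⟨R.one, fun a => R.one_mul a⟩))
  obtain ⟨z, h6⟩ := s6.1 ((h ax6).2 (a6.2 ⟨R.zero, fun a => ⟨R.zero_add a, R.neg a,
    R.neg_add_cancel a⟩⟩))
  choose h6 ng h7 using h6
  letI : _root_.Add U := ⟨sa S⟩
  letI : Mul U := ⟨sm S⟩
  letI : Neg U := ⟨ng⟩
  letI : Zero U := ⟨z⟩
  letI : One U := ⟨o⟩
  refine ⟨CommRing.ofMinimalAxioms h1 h6 h7 h2 h4 h5 h3, ?_⟩
  refine Structure.ext ?_ ?_
  · funext n F v
    cases F with
    | add =>
      show @Structure.funMap LR U S 2 SymR.add v = @Structure.funMap LR U S 2 SymR.add ![v 0, v 1]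
      congr 1
      funext i
      fin_cases i <;> rfl
    | mul =>
      show @Structure.funMap LR U S 2 SymR.mul v = @Structure.funMap LR U S 2 SymR.mul ![v 0, v 1]
      congr 1
      funext i
      fin_cases i <;> rfl
  · funext n Q
    exact Empty.elim Q

end Pool.Agent.Hp8CR
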