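import Pool.Agent.Hp8CR.Res

set_option autoImplicit false
set_option linter.style.haveILetI false

/-!
Infinite residue fields of countable rings whose ultrapower has countably many types.
-/

namespace Pool.Agent.Hp8CR

open FirstOrder FirstOrder.Language Pool.Agent.N641.VB Pool.Agent.Hp8VC Set H968 Filter Polynomial

/-- the field structure of the ultrapower of a field -/
noncomputable instance ultField (K : Type) [Field K] : Field (Ult K) :=
  inferInstanceAs (Field (Filter.Germ (hyp : Filter ℕ) K))

/-- the homomorphism onto the ultrapower of a field -/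
noncomputable def clsF (K : Type) [Field K] : (ℕ → K) →+* Ult K :=
  Filter.Germ.coeRingHom (hyp : Filter ℕ)

theorem clsF_eq {K : Type} [Field K] (r : ℕ → K) : clsF K r = cls r := rfl

theorem clsHom_surj (N : Type) [CommRing N] : Function.Surjective (clsHom N) := fun x => by
  obtain ⟨r, hr⟩ := cls_surj_sat x
  exact ⟨r, hr⟩

theorem clsHom_eq_zero {N : Type} [CommRing N] (r : ℕ → N) :
    clsHom N r = 0 ↔ ∀ᶠ i in (hyp : Filter ℕ), r i = 0 := by
  rw [← map_zero (clsHom N)]
  exact cls_eq r 0

theorem clsF_eq_zero {K : Type} [Field K] (r : ℕ → K) :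
    clsF K r = 0 ↔ ∀ᶠ i in (hyp : Filter ℕ), r i = 0 := by
  rw [← map_zero (clsF K)]
  exact cls_eq r 0

section
variable {N : Type} [CommRing N] {K : Type} [Field K] (ρ : N →+* K)

/-- the map on sequences -/
noncomputable def seqHom : (ℕ → N) →+* Ult K :=
  (clsF K).comp (RingHom.pi fun i => ρ.comp (Pi.evalRingHom (fun _ : ℕ => N) i))

theorem seqHom_apply (r : ℕ → N) : seqHom ρ r = clsF K (fun i => ρ (r i)) := rfl

/-- the map between the ultrapowers -/
noncomputable def ultMap : Ult N →+* Ult K :=
  (clsHom N).liftOfSurjective (clsHom_surj N) ⟨seqHom ρ, by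
    intro r hr
    rw [RingHom.mem_ker] at hr ⊢
    rw [clsHom_eq_zero] at hr
    rw [seqHom_apply, clsF_eq_zero]
    exact hr.mono fun i hi => by rw [hi, map_zero]⟩

theorem ultMap_cls (r : ℕ → N) : ultMap ρ (clsHom N r) = clsF K (fun i => ρ (r i)) :=
  RingHom.liftOfRightInverse_comp_apply _ _ _ _ _

end

theorem isAlgClosed_of_ult {K : Type} [Field K] (h : IsAlgClosed (Ult K)) : IsAlgClosed K := by
  refine IsAlgClosed.of_exists_root K fun f hf hi => ?_
  let D : K →+* Ult K := (clsF K).comp (Pi.constRingHom ℕ K)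
  have hdeg : (f.map D).degree ≠ 0 := by
    rw [degree_map]
    exact (degree_pos_of_irreducible hi).ne'
  obtain ⟨x, hx⟩ := IsAlgClosed.exists_root (f.map D) hdeg
  obtain ⟨r, rfl⟩ := cls_surj_sat x
  have key : ∀ q : K[X], (q.map D).eval (cls r : Ult K) = clsF K (fun i => q.eval (r i)) := by
    have h1 : (evalRingHom (cls r : Ult K)).comp (mapRingHom D) =
        (clsF K).comp (RingHom.pi fun i => evalRingHom (r i)) := by
      refine Polynomial.ringHom_ext (fun a => ?_) ?_
      · simp only [RingHom.comp_apply, coe_mapRingHom, map_C, coe_evalRingHom, eval_C]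
        show clsF K (fun _ => a) = clsF K (fun i => (C a).eval (r i))
        congr 1
        funext i
        rw [eval_C]
      · simp only [RingHom.comp_apply, coe_mapRingHom, map_X, coe_evalRingHom, eval_X]
        show clsF K r = clsF K (fun i => (X : K[X]).eval (r i))
        congr 1
        funext i
        rw [eval_X]
    intro q
    exact RingHom.congr_fun h1 q
  have h2 : clsF K (fun i => f.eval (r i)) = 0 := by
    rw [← key]
    exact hx
  rw [clsF_eq_zero] at h2
  obtain ⟨i, hi'⟩ := h2.exists
  exact ⟨r i, hi'⟩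

/-- an element of the ultrapower with different powers -/
theorem exists_gen_pow {K : Type} [Field K] [Infinite K] :
    ∃ t0 : Ult K, Function.Injective fun i : ℕ => t0 ^ i := by
  classical
  have h1 : ∀ m : ℕ, ∃ r : K, ∀ i ≤ m, ∀ j ≤ m, i < j → r ^ i ≠ r ^ j := by
    intro m
    by_contra hc
    push Not at hc
    let q : K[X] := ∏ p ∈ (Finset.range (m + 1) ×ˢ Finset.range (m + 1)).filter
      (fun p => p.1 < p.2), (X ^ p.1 - X ^ p.2)
    have hq : q ≠ 0 := by
      refine Finset.prod_ne_zero_iff.2 fun p hp => ?_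
      intro h0
      have h2 := (Finset.mem_filter.1 hp).2
      have h3 := congrArg (fun f => f.coeff p.1) h0
      simp [coeff_X_pow, h2.ne] at h3
    have h2 : ∀ r : K, q.eval r = 0 := by
      intro r
      obtain ⟨i, hi, j, hj, hij, he⟩ := hc r
      rw [eval_prod]
      refine Finset.prod_eq_zero (i := (i, j)) ?_ ?_
      · rw [Finset.mem_filter, Finset.mem_product, Finset.mem_range, Finset.mem_range]
        exact ⟨⟨Nat.lt_succ_of_le hi, Nat.lt_succ_of_le hj⟩, hij⟩
      · simp [he]
    exact hq (Polynomial.funext fun r => by rw [h2, eval_zero])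
  choose r hr using h1
  refine ⟨cls r, ?_⟩
  intro i j hij
  by_contra hne
  wlog h : i < j generalizing i j with H
  · exact H hij.symm (Ne.symm hne) (lt_of_le_of_ne (not_lt.1 h) (Ne.symm hne))
  have h2 : clsF K (fun m => r m ^ i) = clsF K (fun m => r m ^ j) := by
    have e : ∀ k : ℕ, clsF K (fun m => r m ^ k) = (cls r : Ult K) ^ k := by
      intro k
      have : (fun m => r m ^ k) = r ^ k := rfl
      rw [this, map_pow]
      rfl
    rw [e, e]
    exact hij
  have h3 : ∀ᶠ m in (hyp : Filter ℕ), r m ^ i = r m ^ j := (cls_eq _ _).1 h2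
  have h4 : ∀ᶠ m in (hyp : Filter ℕ), j ≤ m :=
    (eventually_ge_atTop j).filter_mono Nat.hyperfilter_le_atTop
  obtain ⟨m, hm1, hm2⟩ := (h3.and h4).exists
  exact hr m i (h.le.trans hm2) j hm2 h hm1

/-- Infinite residue fields are algebraically closed. -/
theorem closed_res {N : Type} [CommRing N] (hfew : FewT (Ult N)) {K : Type} [Field K] [Infinite K]
    (ρ : N →+* K) (hρ : Function.Surjective ρ) (g : N) (n : ℕ)
    (hk : ∀ x, ρ x = 0 ↔ (g * x) ^ n = 0) : IsAlgClosed K := by
  obtain ⟨t0, ht⟩ := exists_gen_pow (K := K)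
  refine isAlgClosed_of_ult ?_
  refine closed_of (satd_ring N) hfew (ultMap ρ) ?_ (clsHom N fun _ => g) n ?_ t0 ht
  · intro y
    obtain ⟨s, rfl⟩ := cls_surj_sat y
    choose r hr using fun i => hρ (s i)
    refine ⟨clsHom N r, ?_⟩
    rw [ultMap_cls]
    show clsF K _ = clsF K s
    rw [show (fun i => ρ (r i)) = s from funext hr]
  · intro x
    obtain ⟨r, rfl⟩ := clsHom_surj N x
    rw [ultMap_cls, clsF_eq_zero, ← map_mul, ← map_pow, clsHom_eq_zero]
    refine eventually_congr (Eventually.of_forall fun i => ?_)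
    exact hk (r i)

end Pool.Agent.Hp8CR
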