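import Pool.Agent.Hp8CR.Art
import Pool.Agent.Hp8CR.Axm
import Pool.Agent.Hp8CR.ResN
import Pool.Agent.N641.VB.Final8

set_option autoImplicit false
set_option linter.style.haveILetI false

/-!
Commutative rings: assembly.
-/

namespace Pool.Agent.Hp8CR

open FirstOrder FirstOrder.Language Pool.Agent.N641.VB Pool.Agent.Hp8VC Set H968 Filter

/-- the decomposition of the models -/
theorem model_decomp {T : LR.Theory} (hP : ¬ Perfect LR T) {N : Type} [R : CommRing N]
    [Countable N] [Infinite N] (hR : @Theory.Model LR N (strR R) T) {A B : Type} [CommRing A]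
    [IsReduced A] [CommRing B] [IsNoetherianRing B] (h : Eqv N (A × B)) :
    ∃ (q : ℕ) (A F : Type) (_ : CommRing A) (_ : CommRing F), 2 ≤ q ∧ (∀ x : A, x ^ q = x) ∧
      (∀ x : F, Dq F q x → x = 0) ∧ GoodA F ∧ Countable A ∧ Nonempty (N ≃+* A × F) := by
  obtain ⟨n, hn⟩ : ∃ n, PiReg N n := by
    by_contra hc
    push Not at hc
    exact hP (perf_of_not_pi (R := R) hR hc)
  obtain ⟨m, hm⟩ : ∃ m, ¬ Big N m := by
    by_contra hc
    push Not at hc
    exact hP (perf_of_big (R := R) hR hc)
  have hfew : FewT (Ult N) := by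
    intro ι _
    haveI : Countable LR.Symbols := ctbl_LR'
    haveI := infinite_ult N
    refine @few_types LR _ T hP (Ult N) (strR (ultRing N)) _ ?_ ι _
    rw [str_ult]
    letI := strR R
    exact model_ult N hR
  obtain ⟨q, e0, hq, he0, hDq, hA⟩ := good_decomp hn hm h
  haveI := hA
  refine ⟨q, N ⧸ Ideal.span {1 - e0}, N ⧸ Ideal.span {e0}, inferInstance, inferInstance, hq,
    quot_pow hDq he0, dq_quot hq he0 hDq, ⟨?_, hA, ?_⟩, ?_, prod_equiv he0⟩
  · exact (Ideal.Quotient.mk_surjective (I := Ideal.span {e0})).countable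
  · intro K _ ρ hρ
    rcases finite_or_infinite K with hK | hK
    · exact Or.inl hK
    · right
      obtain ⟨g, n, hg⟩ := sep_res' he0 ρ
      exact closed_res hfew (ρ.comp (Ideal.Quotient.mk _))
        (hρ.comp Ideal.Quotient.mk_surjective) g n hg
  · exact (Ideal.Quotient.mk_surjective (I := Ideal.span {1 - e0})).countable

/-- isomorphic structures on `ℕ` -/
theorem iso_of_ring {R R' : CommRing ℕ} (e : @RingEquiv ℕ ℕ R.toMul R'.toMul R.toAdd R'.toAdd) :
    Iso (strR R) (strR R') := ⟨@lrEquiv ℕ ℕ R R' e⟩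

/-- the theories of the models -/
theorem few_theories {T : LR.Theory} (hP : ¬ Perfect LR T) :
    {d : Set LR.Sentence | ∃ S : LR.Structure ℕ, @Theory.Model LR ℕ S T ∧
      d = {χ | @Sentence.Realize LR ℕ S χ}}.Countable := by
  have h1 := lv.st1 LR ctbl_LR' T 0 hP
  refine (h1.image (fun t => {χ : LR.Sentence | Formula.relabel (Empty.elim : Empty → Fin 0) χ ∈
    t})).mono ?_
  rintro _ ⟨S, hS, rfl⟩
  refine ⟨_, ⟨S, Fin.elim0, hS, rfl⟩, ?_⟩
  ext χ
  letI := S
  show (Formula.relabel (Empty.elim : Empty → Fin 0) χ).Realize _ ↔ Formula.Realize χ _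
  rw [Formula.realize_relabel]
  exact iff_of_eq (congrArg _ (Subsingleton.elim _ _))

/-- all elements satisfy `x ^ q = x` -/
def PowQ (U : Type) [CommRing U] (q : ℕ) : Prop := ∀ x : U, x ^ q = x

/-- the product of a structure with a ring -/
@[reducible] def prodS {F : Type} [RF : CommRing F] (e : ℕ × F ≃ ℕ) (S : LR.Structure ℕ) : LR.Structure ℕ where
  funMap := fun {n} G v => e (@Structure.funMap LR ℕ S n G fun i => (e.symm (v i)).1,
    @Structure.funMap LR F (strR RF) n G fun i => (e.symm (v i)).2)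
  RelMap := fun {_} Q => Empty.elim Q

/-- the product of a structure with a ring is the product -/
def prodS_equiv {F : Type} [RF : CommRing F] (e : ℕ × F ≃ ℕ) (R : CommRing ℕ) :
    @FirstOrder.Language.Equiv LR ℕ (ℕ × F) (prodS e (strR R)) (strR inferInstance) :=
  @FirstOrder.Language.Equiv.mk LR ℕ (ℕ × F) (prodS e (strR R)) (strR inferInstance) e.symm
    (fun {n} G v => by
      cases G with
      | add =>
        show e.symm (e _) = _
        rw [e.symm_apply_apply]
        rfl
      | mul =>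
        show e.symm (e _) = _
        rw [e.symm_apply_apply]
        rfl)
    (fun {n} Q v => Empty.elim Q)

/-- perfectly many products -/
theorem perfect_prod {T TA : LR.Theory} {q : ℕ} (hq : 2 ≤ q) {F : Type} [CommRing F] [Countable F]
    (hF : ∀ x : F, Dq F q x → x = 0)
    (hA : ∀ S : LR.Structure ℕ, @Theory.Model LR ℕ S TA → ∃ R : CommRing ℕ, S = strR R ∧
      @PowQ ℕ R q ∧ ∀ χ ∈ T,
        @Sentence.Realize LR (ℕ × F) (strR (@Prod.instCommRing ℕ F R _)) χ)
    (h : Final.PerfectlyMany LR TA) : Perfect LR T := by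
  obtain ⟨f, h1, h2, h3, h4⟩ := h
  haveI : Nonempty F := ⟨0⟩
  haveI : Infinite (ℕ × F) := inferInstance
  obtain ⟨hd⟩ := nonempty_denumerable (ℕ × F)
  let e : ℕ × F ≃ ℕ := Denumerable.eqv (ℕ × F)
  choose R hR1 hR2 hR3 using fun x => hA (f x) (h1 x)
  refine ⟨fun x => prodS e (f x), fun x => ?_, fun x y hxy => ?_, fun n Q => Empty.elim Q,
    fun n G a b => ?_⟩
  · refine @Theory.Model.mk LR ℕ (prodS e (f x)) T fun χ hχ => ?_
    have h5 := hR3 x χ hχ
    rw [hR1 x]
    letI := prodS e (strR (R x))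
    letI := R x
    letI : LR.Structure (ℕ × F) := strR inferInstance
    exact (StrongHomClass.realize_sentence (prodS_equiv e (R x) : ℕ ≃[LR] (ℕ × F)) χ).2 h5
  · refine h2 x y ?_
    have key : ∀ (S S' : LR.Structure ℕ) (Rx Ry : CommRing ℕ), S = strR Rx → S' = strR Ry →
        @PowQ ℕ Rx q → @PowQ ℕ Ry q →
        Nonempty (@FirstOrder.Language.Equiv LR ℕ ℕ (prodS e S) (prodS e S')) →
        Nonempty (@FirstOrder.Language.Equiv LR ℕ ℕ S S') := by
      rintro _ _ Rx Ry rfl rfl hx hy ⟨g⟩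
      let rx : CommRing (ℕ × F) := @Prod.instCommRing ℕ F Rx _
      let ry : CommRing (ℕ × F) := @Prod.instCommRing ℕ F Ry _
      let g1 := @prodS_equiv F _ e Rx
      let g2 := @prodS_equiv F _ e Ry
      let g3 : @FirstOrder.Language.Equiv LR (ℕ × F) (ℕ × F) (strR rx) (strR ry) :=
        @FirstOrder.Language.Equiv.comp LR (ℕ × F) ℕ (strR rx) (prodS e (strR Ry)) (ℕ × F)
          (strR ry) g2
          (@FirstOrder.Language.Equiv.comp LR (ℕ × F) ℕ (strR rx) (prodS e (strR Rx)) ℕ
            (prodS e (strR Ry)) g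
            (@FirstOrder.Language.Equiv.symm LR ℕ (ℕ × F) (prodS e (strR Rx)) (strR rx) g1))
      have g4 := @ringEquiv_of_lr (ℕ × F) (ℕ × F) rx ry g3
      obtain ⟨g5⟩ := @iso_fst q hq ℕ F ℕ F Rx _ Ry _ hx hF hy hF g4
      exact iso_of_ring g5
    exact key _ _ _ _ (hR1 x) (hR1 y) (hR2 x) (hR2 y) hxy
  · by_cases hc : @Structure.funMap LR F (strR inferInstance) n G (fun i => (e.symm (a i)).2) =
      (e.symm b).2
    · have : {x : ℕ → Bool | @Structure.funMap LR ℕ (prodS e (f x)) n G a = b} =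
          {x : ℕ → Bool | @Structure.funMap LR ℕ (f x) n G (fun i => (e.symm (a i)).1) =
            (e.symm b).1} := by
        ext x
        show e (_, _) = b ↔ _
        rw [← Equiv.eq_symm_apply, Prod.ext_iff]
        exact ⟨fun hh => hh.1, fun hh => ⟨hh, hc⟩⟩
      rw [this]
      exact h4 n G _ _
    · have : {x : ℕ → Bool | @Structure.funMap LR ℕ (prodS e (f x)) n G a = b} = ∅ := by
        ext x
        show e (_, _) = b ↔ _
        rw [← Equiv.eq_symm_apply, Prod.ext_iff]
        exact ⟨fun hh => hc hh.2, fun hh => hh.elim⟩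
      rw [this]
      exact isOpen_empty

end Pool.Agent.Hp8CR
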