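import Mathlib

set_option autoImplicit false

/-!
A countable compact Hausdorff space contains a nonempty finite set that is mapped into itself by all
continuous self-maps with finite fibres (the points of maximal Cantor-Bendixson rank).
-/

namespace Pool.Agent.Hp8CR

open Set Topology Filter

universe u

section
variable {X : Type} [TopologicalSpace X]

/-- The Cantor-Bendixson derivatives. -/
noncomputable def cbd (X : Type) [TopologicalSpace X] (α : Ordinal.{0}) : Set X :=
  ⋂ β : Iio α, derivedSet (cbd X β.1)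
termination_by α
decreasing_by exact β.2

theorem cbd_eq (α : Ordinal.{0}) : cbd X α = ⋂ β : Iio α, derivedSet (cbd X β.1) := by
  rw [cbd]

theorem cbd_anti {α β : Ordinal.{0}} (h : α ≤ β) : cbd X β ⊆ cbd X α := by
  rw [cbd_eq α, cbd_eq β]
  intro x hx
  rw [mem_iInter] at hx ⊢
  exact fun γ => hx ⟨γ.1, lt_of_lt_of_le γ.2 h⟩

theorem cbd_lt {α β : Ordinal.{0}} (h : α < β) : cbd X β ⊆ derivedSet (cbd X α) := by
  rw [cbd_eq β]
  intro x hx
  exact mem_iInter.1 hx ⟨α, h⟩

variable [T2Space X]

theorem cbd_closed (α : Ordinal.{0}) : IsClosed (cbd X α) := by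
  rw [cbd_eq]
  exact isClosed_iInter fun β => isClosed_derivedSet _

theorem derived_sub (α : Ordinal.{0}) : derivedSet (cbd X α) ⊆ cbd X α := by
  intro x hx
  have h := (mem_derivedSet.1 hx)
  exact (cbd_closed α).closure_subset (by
    rw [mem_closure_iff_clusterPt]
    exact h.clusterPt)

variable [CompactSpace X] [Countable X]

theorem not_perf {C : Set X} (hC : IsClosed C) (hne : C.Nonempty) : ¬ C ⊆ derivedSet C := by
  intro h
  have : CompactSpace C := isCompact_iff_compactSpace.1 hC.isCompact
  have : Nonempty C := hne.to_subtype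
  obtain ⟨x, hx⟩ := nonempty_interior_of_iUnion_of_closed (X := C) (f := fun x : C => ({x} : Set C))
    (fun _ => isClosed_singleton) (by
      ext x
      simp)
  obtain ⟨y, hy⟩ := hx
  have h1 : IsOpen ({x} : Set C) := by
    have h2 : interior ({x} : Set C) = {x} := by
      refine subset_antisymm interior_subset ?_
      intro z hz
      rw [mem_singleton_iff] at hz
      have : y = x := mem_singleton_iff.1 (interior_subset hy)
      rw [this] at hy
      rw [hz]
      exact hy
    rw [← h2]
    exact isOpen_interior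
  obtain ⟨V, hV, hVx⟩ := isOpen_induced_iff.1 h1
  have h3 := h x.2
  rw [mem_derivedSet, accPt_iff_nhds] at h3
  have hxV : (x : X) ∈ V := by
    have : x ∈ Subtype.val ⁻¹' V := by rw [hVx]; rfl
    exact this
  obtain ⟨z, ⟨hz1, hz2⟩, hz3⟩ := h3 V (hV.mem_nhds hxV)
  have : (⟨z, hz2⟩ : C) ∈ Subtype.val ⁻¹' V := hz1
  rw [hVx] at this
  exact hz3 (congrArg Subtype.val (mem_singleton_iff.1 this))

theorem exists_empty [Nonempty X] : ∃ α : Ordinal.{0}, cbd X α = ∅ := by
  by_contra hc
  push Not at hc
  have hinj : Function.Injective (fun α : Ordinal.{0} => cbd X α) := by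
    intro α β hab
    by_contra hne
    wlog h : α < β generalizing α β with H
    · exact H hab.symm (Ne.symm hne) (lt_of_le_of_ne (not_lt.1 h) (Ne.symm hne))
    refine not_perf (cbd_closed α) (hc α) ?_
    have h1 := cbd_lt (X := X) h
    have h2 : cbd X α = cbd X β := hab
    rw [← h2] at h1
    exact h1
  exact not_injective_of_ordinal _ hinj

/-- The points of maximal rank. -/
theorem exists_core [Nonempty X] : ∃ F : Set X, F.Finite ∧ F.Nonempty ∧ ∀ g : X → X,
    Continuous g → (∀ x, {y | g y = x}.Finite) → ∀ x ∈ F, g x ∈ F := by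
  classical
  obtain ⟨α, hα, hmin⟩ : ∃ α : Ordinal.{0}, cbd X α = ∅ ∧ ∀ β < α, cbd X β ≠ ∅ := by
    obtain ⟨α, hα⟩ := exists_empty (X := X)
    exact ⟨sInf {α | cbd X α = ∅}, csInf_mem (s := {α | cbd X α = ∅}) ⟨α, hα⟩,
      fun β hβ hb => notMem_of_lt_csInf' (s := {α | cbd X α = ∅}) hβ hb⟩
  have hne : Nonempty (Iio α) := by
    by_contra h
    rw [not_nonempty_iff] at h
    rw [cbd_eq, iInter_of_empty] at hα
    exact (univ_nonempty (α := X)).ne_empty hα
  obtain ⟨β, hβ⟩ : ∃ β : Iio α, derivedSet (cbd X β.1) = ∅ := by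
    by_contra hc
    push Not at hc
    have := IsCompact.nonempty_iInter_of_directed_nonempty_isCompact_isClosed
      (fun β : Iio α => derivedSet (cbd X β.1)) (by
        intro β γ
        rcases le_total β.1 γ.1 with h | h
        · exact ⟨γ, derivedSet_mono _ _ (cbd_anti h), subset_rfl⟩
        · exact ⟨β, subset_rfl, derivedSet_mono _ _ (cbd_anti h)⟩) hc
      (fun β => (isClosed_derivedSet _).isCompact) (fun β => isClosed_derivedSet _)
    rw [← cbd_eq, hα] at this
    exact this.ne_empty rfl
  refine ⟨cbd X β.1, ?_, nonempty_iff_ne_empty.2 (hmin β.1 β.2), ?_⟩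
  · by_contra hinf
    obtain ⟨x, -, hx⟩ := Set.Infinite.exists_accPt_of_subset_isCompact (K := univ) hinf
      isCompact_univ (subset_univ _)
    have : x ∈ derivedSet (cbd X β.1) := hx
    rw [hβ] at this
    exact this
  · intro g hg hfin
    have key : ∀ γ : Ordinal.{0}, ∀ x ∈ cbd X γ, g x ∈ cbd X γ := by
      intro γ
      induction γ using WellFoundedLT.induction with
      | ind γ ih =>
        intro x hx
        rw [cbd_eq, mem_iInter] at hx ⊢
        intro δ
        have h1 := hx δ
        rw [mem_derivedSet, accPt_iff_nhds] at h1 ⊢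
        intro V hV
        have h2 : g ⁻¹' V ∈ 𝓝 x := hg.continuousAt hV
        have h3 : ({y | g y = g x} \ {x})ᶜ ∈ 𝓝 x := by
          refine IsOpen.mem_nhds ?_ ?_
          · exact ((hfin (g x)).subset sdiff_subset).isClosed.isOpen_compl
          · intro h
            exact h.2 rfl
        obtain ⟨y, ⟨⟨hy1, hy2⟩, hy3⟩, hy4⟩ := h1 _ (inter_mem h2 h3)
        refine ⟨g y, ⟨hy1, ih δ.1 δ.2 y hy3⟩, ?_⟩
        intro h
        exact hy2 ⟨h, hy4⟩
    exact key β.1

end

end Pool.Agent.Hp8CR
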