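import Pool.Agent.N641.VB.Lang

set_option autoImplicit false

/-!
Commutative rings as structures with addition and multiplication; the dichotomy of Vaught's
conjecture.

`LR` is the language with two binary function symbols, `strR R` is the structure of the ring `R` in
this language (addition and multiplication; `0`, `1` and `-` are definable).
-/

namespace Pool.Agent.Hp8CR.Rings

open FirstOrder FirstOrder.Language Pool.Agent.N641.VB

/-- The structure `S` is elementarily equivalent to the ring `A`. -/
def ElemEquiv {U A : Type} (S : LR.Structure U) (RA : CommRing A) : Prop :=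
  ∀ χ : LR.Sentence, @Sentence.Realize LR U S χ ↔ @Sentence.Realize LR A (strR RA) χ

/-- The ring `N` is isomorphic to `A × F`, where all elements of `A` satisfy `x ^ q = x` for some
`q ≥ 2` and `F` is an Artinian ring all of whose residue fields are finite or algebraically
closed. -/
def Decomposes {N : Type} (_ : CommRing N) : Prop :=
  ∃ (q : ℕ) (A F : Type) (_ : CommRing A) (_ : CommRing F), 2 ≤ q ∧ (∀ x : A, x ^ q = x) ∧
    IsArtinianRing F ∧ (∀ (K : Type) [Field K] (ρ : F →+* K), Function.Surjective ρ →
      Finite K ∨ IsAlgClosed K) ∧ Nonempty (N ≃+* A × F)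

/-- There are perfectly many models with universe `ℕ` (second alternative of the frozen statement):
some continuous family of models, indexed by the Cantor space, consists of pairwise non-isomorphic
models. -/
def PerfectlyMany (L : FirstOrder.Language.{0, 0}) (T : L.Theory) : Prop :=
  ∃ f : (ℕ → Bool) → L.Structure ℕ,
    (∀ x : ℕ → Bool, @Theory.Model L ℕ (f x) T) ∧
    (∀ x y : ℕ → Bool, Nonempty (@FirstOrder.Language.Equiv L ℕ ℕ (f x) (f y)) → x = y) ∧
    (∀ (n : ℕ) (R : L.Relations n) (a : Fin n → ℕ),
      IsClopen {x : ℕ → Bool | @Structure.RelMap L ℕ (f x) n R a}) ∧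
    (∀ (n : ℕ) (F : L.Functions n) (a : Fin n → ℕ) (b : ℕ),
      IsOpen {x : ℕ → Bool | @Structure.funMap L ℕ (f x) n F a = b})

/-- The models with universe `ℕ` fall into countably many isomorphism classes (first alternative of
the frozen statement). -/
def CountablyMany (L : FirstOrder.Language.{0, 0}) (T : L.Theory) : Prop :=
  ∃ g : ℕ → L.Structure ℕ, ∀ S : L.Structure ℕ, @Theory.Model L ℕ S T →
    ∃ n : ℕ, Nonempty (@FirstOrder.Language.Equiv L ℕ ℕ S (g n))

end Pool.Agent.Hp8CR.Rings
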