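import Pool.Agent.Hp8CR.Asm

set_option autoImplicit false
set_option linter.style.haveILetI false

/-!
Commutative rings: the dichotomy.
-/

namespace Pool.Agent.Hp8CR

open FirstOrder FirstOrder.Language Pool.Agent.N641.VB Pool.Agent.Hp8VC Set H968 Filter

/-- isomorphic rings -/
def RE {A B : Type} (_ : CommRing A) (_ : CommRing B) : Prop := Nonempty (A ≃+* B)

theorem RE.symm {A B : Type} {RA : CommRing A} {RB : CommRing B} (h : RE RA RB) : RE RB RA := by
  obtain ⟨e⟩ := h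
  exact ⟨e.symm⟩

theorem RE.trans {A B C : Type} {RA : CommRing A} {RB : CommRing B} {RC : CommRing C}
    (h : RE RA RB) (h' : RE RB RC) : RE RA RC := by
  obtain ⟨e⟩ := h
  obtain ⟨e'⟩ := h'
  exact ⟨e.trans e'⟩

theorem RE.prod {A A' B B' : Type} {RA : CommRing A} {RA' : CommRing A'} {RB : CommRing B}
    {RB' : CommRing B'} (h : RE RA RA') (h' : RE RB RB') :
    RE (@Prod.instCommRing A B RA RB) (@Prod.instCommRing A' B' RA' RB') := by
  obtain ⟨e⟩ := h
  obtain ⟨e'⟩ := h'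
  exact ⟨RingEquiv.prodCongr e e'⟩

theorem RE.eqv {A B : Type} {RA : CommRing A} {RB : CommRing B} (h : RE RA RB) :
    @Eqv A B RA RB := by
  obtain ⟨e⟩ := h
  exact Eqv.of_equiv e

theorem RE.iso {R R' : CommRing ℕ} (h : RE R R') : Iso (strR R) (strR R') := by
  obtain ⟨e⟩ := h
  exact iso_of_ring e

theorem transport {N A : Type} (RA : CommRing A) (e : N ≃ A) : ∃ R : CommRing N, RE R RA :=
  ⟨e.commRing, ⟨e.ringEquiv⟩⟩

theorem nat_ring {A : Type} (RA : CommRing A) [Countable A] [Infinite A] :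
    ∃ R : CommRing ℕ, RE R RA := by
  obtain ⟨hd⟩ := nonempty_denumerable A
  exact transport RA (Denumerable.eqv A).symm

theorem dn_powq (q : ℕ) : Dn (κ := Empty) nop (fun k _ => PowQ k.1 q) := by
  have h : Dn nop (fun (k : Fm) (_ : Empty → k.1) => ∀ w : Unit → k.1, (w ()) ^ q = w ()) :=
    Dn.all (κ := Empty) (κ' := Unit) (Dn.eq ((DnF.var (Sum.inr ())).pow q)
      (DnF.var (Sum.inr ())))
  exact h.congr fun k _ => ⟨fun h a => h fun _ => a, fun h w => h (w ())⟩

theorem iso_of_eqv {T : LR.Theory} (hP : ¬ Perfect LR T) {q : ℕ} (hq : 2 ≤ q) {A A' F : Type}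
    [CommRing A] [CommRing A'] [CommRing F] [Countable A] [Infinite A] [Countable A']
    [Infinite A'] [Countable F] (hA : PowQ A q) (hF : ∀ x : F, Dq F q x → x = 0)
    (hAA : Eqv A A') (hT : ∀ χ ∈ T, @Sentence.Realize LR (A × F) (strR inferInstance) χ) :
    RE (inferInstance : CommRing A) (inferInstance : CommRing A') := by
  let TA : LR.Theory := {χ | @Sentence.Realize LR A (strR inferInstance) χ}
  have hTA : ∀ S : LR.Structure ℕ, @Theory.Model LR ℕ S TA → ∀ χ : LR.Sentence,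
      (@Sentence.Realize LR ℕ S χ ↔ @Sentence.Realize LR A (strR inferInstance) χ) := by
    intro S hS χ
    constructor
    · intro h
      by_contra hn
      letI := S
      have h1 : χ.not ∈ TA := by
        letI : LR.Structure A := strR inferInstance
        exact (Sentence.realize_not A).2 hn
      exact (Sentence.realize_not ℕ).1 (hS.realize_of_mem _ h1) h
    · intro h
      exact @Theory.Model.realize_of_mem LR ℕ S TA hS χ h
  have hst : ∀ S : LR.Structure ℕ, @Theory.Model LR ℕ S TA → ∃ R : CommRing ℕ, S = strR R ∧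
      @PowQ ℕ R q ∧ @Eqv ℕ A R _ := by
    intro S hS
    obtain ⟨R, hR⟩ := exists_ring S (hTA S hS)
    have hE : @Eqv ℕ A R _ := by
      intro χ
      have := hTA S hS χ
      rw [hR] at this
      exact this
    exact ⟨R, hR, (@Dn.transfer _ (dn_powq q) ℕ A R _ hE).2 hA, hE⟩
  rcases (Final.main7 agb).2.2.2.2.1 TA (fun S hS => by
    obtain ⟨R, h1, h2, -⟩ := hst S hS
    exact ⟨q, R, hq, h2, h1⟩) with h | h
  · obtain ⟨R, e⟩ := nat_ring (inferInstance : CommRing A)
    obtain ⟨R', e'⟩ := nat_ring (inferInstance : CommRing A')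
    have hR := e.eqv
    have hR' := e'.eqv
    have m1 : @Theory.Model LR ℕ (strR R) TA :=
      @Theory.Model.mk LR ℕ (strR R) TA fun χ hχ => (hR χ).2 hχ
    have m2 : @Theory.Model LR ℕ (strR R') TA :=
      @Theory.Model.mk LR ℕ (strR R') TA fun χ hχ => (hR' χ).2 ((hAA χ).1 hχ)
    obtain ⟨g⟩ := h.2 (strR R) (strR R') m1 m2 fun χ =>
      (hR χ).trans ((hAA χ).trans (hR' χ).symm)
    have g1 : RE R R' := ⟨@ringEquiv_of_lr ℕ ℕ R R' g⟩
    exact e.symm.trans (g1.trans e')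
  · exfalso
    refine hP (perfect_prod hq hF (TA := TA) ?_ h)
    intro S hS
    obtain ⟨R, h1, h2, h3⟩ := hst S hS
    refine ⟨R, h1, h2, fun χ hχ => ?_⟩
    exact (@prod_eqv ℕ A F R _ _ h3 χ).2 (hT χ hχ)

/-- the models with a given second factor -/
def K2 (T : LR.Theory) (Fj : Fm) (q : ℕ) (S : LR.Structure ℕ) : Prop :=
  @Theory.Model LR ℕ S T ∧ ∃ R : CommRing ℕ, S = strR R ∧ ∃ (A : Type) (_ : CommRing A),
    Infinite A ∧ Countable A ∧ 2 ≤ q ∧ PowQ A q ∧ (∀ x : Fj.1, Dq Fj.1 q x → x = 0) ∧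
    Countable Fj.1 ∧ RE R (inferInstance : CommRing (A × Fj.1))

theorem few_K2 {T : LR.Theory} (hP : ¬ Perfect LR T) (Fj : Fm) (q : ℕ) : Few (K2 T Fj q) := by
  refine Few.of_inv (D := Set LR.Sentence) (fun S d => d = {χ | @Sentence.Realize LR ℕ S χ})
    _ (few_theories hP) ?_ ?_
  · intro S hS
    exact ⟨_, ⟨S, hS.1, rfl⟩, rfl⟩
  · rintro S S' d ⟨hS, R, rfl, A, _, hA1, hA2, hq, hA3, hF, hFc, e⟩
      ⟨hS', R', rfl, A', _, hA1', hA2', -, hA3', -, -, e'⟩ hd hd'
    have h1 : @Eqv ℕ ℕ R R' := by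
      intro χ
      rw [hd] at hd'
      exact Set.ext_iff.1 hd' χ
    have h2 := e.eqv
    have h3 := e'.eqv
    have h4 : Eqv (A × Fj.1) (A' × Fj.1) := fun χ =>
      (h2 χ).symm.trans ((h1 χ).trans (h3 χ))
    have h5 : Eqv A A' := eqv_fst hq hA3 hF hA3' hF h4
    have g := iso_of_eqv hP hq hA3 hF h5 fun χ hχ =>
      (h2 χ).1 (@Theory.Model.realize_of_mem LR ℕ (strR R) T hS χ hχ)
    exact (e.trans ((g.prod ⟨RingEquiv.refl _⟩).trans e'.symm)).iso

/-- the models that are products of two given rings -/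
def K1 (F G : Fm) (S : LR.Structure ℕ) : Prop :=
  ∃ R : CommRing ℕ, S = strR R ∧ RE R (inferInstance : CommRing (F.1 × G.1))

theorem few_K1 (F G : Fm) : Few (K1 F G) := by
  refine Few.of_inv (D := Unit) (fun _ _ => True) Set.univ (Set.countable_univ)
    (fun S _ => ⟨(), trivial, trivial⟩) ?_
  rintro S S' d ⟨R, rfl, e⟩ ⟨R', rfl, e'⟩ - -
  exact (e.trans e'.symm).iso

theorem goodA_of_finite (A : Type) [CommRing A] [Finite A] : GoodA A := by
  refine ⟨inferInstance, inferInstance, fun K _ ρ hρ => Or.inl (Finite.of_surjective _ hρ)⟩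

/-- the models are products -/
def Tm (q : ℕ) (N : Type) [CommRing N] : Prop :=
  ∃ (A F : Type) (_ : CommRing A) (_ : CommRing F), 2 ≤ q ∧ PowQ A q ∧
    (∀ x : F, Dq F q x → x = 0) ∧ GoodA F ∧ Countable A ∧
    RE (inferInstance : CommRing N) (inferInstance : CommRing (A × F))

theorem few_models {T : LR.Theory} (hP : ¬ Perfect LR T)
    (hT : ∀ S : LR.Structure ℕ, @Theory.Model LR ℕ S T → ∃ R : CommRing ℕ, S = strR R ∧
      ∃ q, @Tm q ℕ R) :
    Few (fun S : LR.Structure ℕ => @Theory.Model LR ℕ S T) := by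
  obtain ⟨F, hF⟩ := few_artinian
  have h1 : Few (fun S : LR.Structure ℕ => ∃ d : (ℕ × ℕ) ⊕ (ℕ × ℕ), match d with
      | Sum.inl (i, j) => K1 (F i) (F j) S
      | Sum.inr (j, q) => K2 T (F j) q S) := by
    refine Few.iUnion (ι := (ℕ × ℕ) ⊕ (ℕ × ℕ)) fun d => ?_
    match d with
    | Sum.inl (i, j) => exact few_K1 (F i) (F j)
    | Sum.inr (j, q) => exact few_K2 hP (F j) q
  obtain ⟨C, hC, h2⟩ := h1
  refine ⟨C, hC, fun S hS => h2 S ?_⟩
  obtain ⟨R, hR, q, A, G, _, _, hq, hA, hG, hGood, hAc, e⟩ := hT S hS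
  obtain ⟨j, ⟨g⟩⟩ := hF G hGood
  rcases finite_or_infinite A with hfin | hinf
  · obtain ⟨i, ⟨g'⟩⟩ := hF A (goodA_of_finite A)
    exact ⟨Sum.inl (i, j), R, hR, e.trans (RE.prod ⟨g'⟩ ⟨g⟩)⟩
  · refine ⟨Sum.inr (j, q), hS, R, hR, A, inferInstance, hinf, hAc, hq, hA, ?_, ?_,
      e.trans (RE.prod ⟨RingEquiv.refl _⟩ ⟨g⟩)⟩
    · intro x hx
      have h3 : Dq G q (g.symm x) := by
        intro y
        obtain ⟨y, rfl⟩ := g.symm.surjective y
        rw [← map_mul, ← map_pow, hx y]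
      have h4 := hG _ h3
      rw [map_eq_zero_iff _ g.symm.injective] at h4
      exact h4
    · haveI := hGood.1
      exact g.symm.injective.countable

end Pool.Agent.Hp8CR
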