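import Pool.Agent.Hp8CR.CRDefs
import Pool.Agent.Hp8CR.Fin

set_option autoImplicit false

/-!
Vaught's conjecture for commutative rings: the final theorem.
-/

namespace Pool.Agent.Hp8CR.Rings

open FirstOrder FirstOrder.Language Pool.Agent.N641.VB

theorem tm_aux {T : LR.Theory} (hP : ¬ Perfect LR T) {N : Type} [R : CommRing N] [Countable N]
    [Infinite N] (hR : @Theory.Model LR N (strR R) T) {A B : Type} (RA : CommRing A)
    (RB : CommRing B) (hA : IsReduced A) (hB : IsNoetherianRing B)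
    (h : ElemEquiv (strR R) (@Prod.instCommRing A B RA RB)) : ∃ q, Tm q N := by
  obtain ⟨q, A, F, h1, h2, h3, h4, h5, h6, h7, h8⟩ :=
    model_decomp (R := R) (A := A) (B := B) hP hR h
  exact ⟨q, A, F, h1, h2, h3, h4, h5, h6, h7, h8⟩

theorem dec_of_tm {N : Type} [R : CommRing N] {q : ℕ} (h : Tm q N) : Decomposes R := by
  obtain ⟨A, F, h1, h2, h3, h4, h5, h6, h7, h8⟩ := h
  exact ⟨q, A, F, h1, h2, h3, h4, h6.2.1, h6.2.2, h8⟩

theorem main (T : LR.Theory)
    (h : ∀ S : LR.Structure ℕ, @Theory.Model LR ℕ S T →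
      ∃ (A B : Type) (RA : CommRing A) (RB : CommRing B), IsReduced A ∧ IsNoetherianRing B ∧
        ElemEquiv S (@Prod.instCommRing A B RA RB)) :
    PerfectlyMany LR T ∨ (CountablyMany LR T ∧
      ∀ S : LR.Structure ℕ, @Theory.Model LR ℕ S T →
        ∃ R : CommRing ℕ, S = strR R ∧ Decomposes R) := by
  by_cases hP : Perfect LR T
  · exact Or.inl hP
  · right
    have key : ∀ S : LR.Structure ℕ, @Theory.Model LR ℕ S T → ∃ R : CommRing ℕ, S = strR R ∧
        ∃ q, @Tm q ℕ R := by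
      intro S hS
      obtain ⟨A, B, RA, RB, hA, hB, hE⟩ := h S hS
      obtain ⟨R, hR⟩ := @exists_ring ℕ S (A × B) (@Prod.instCommRing A B RA RB) hE
      subst hR
      exact ⟨R, rfl, @tm_aux T hP ℕ R _ _ hS A B RA RB hA hB hE⟩
    refine ⟨few_seq (few_models hP key), fun S hS => ?_⟩
    obtain ⟨R, hR, q, hq⟩ := key S hS
    exact ⟨R, hR, @dec_of_tm ℕ R q hq⟩

end Pool.Agent.Hp8CR.Rings
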