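import Pool.Agent.Hp8CR.Trn

set_option autoImplicit false
set_option linter.style.haveILetI false

/-!
Classes of commutative rings with countably many isomorphism types.
-/

namespace Pool.Agent.Hp8CR

open Ideal

/-- countably many isomorphism types of rings -/
def FewR (P : (A : Type) → [CommRing A] → Prop) : Prop :=
  ∃ F : ℕ → Fm, ∀ (A : Type) [CommRing A], P A → ∃ j, Nonempty (A ≃+* (F j).1)

theorem FewR.of_idx {P : (A : Type) → [CommRing A] → Prop} {D : Type} [Countable D]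
    (F : D → Fm) (h : ∀ (A : Type) [CommRing A], P A → ∃ d, Nonempty (A ≃+* (F d).1)) :
    FewR P := by
  rcases isEmpty_or_nonempty D with hD | hD
  · refine ⟨fun _ => ⟨ℤ, inferInstance⟩, fun A _ hA => ?_⟩
    obtain ⟨d, -⟩ := h A hA
    exact (hD.false d).elim
  · obtain ⟨g, hg⟩ := exists_surjective_nat D
    refine ⟨fun n => F (g n), fun A _ hA => ?_⟩
    obtain ⟨d, hd⟩ := h A hA
    obtain ⟨n, rfl⟩ := hg d
    exact ⟨n, hd⟩

theorem FewR.mono {P Q : (A : Type) → [CommRing A] → Prop} (h : FewR Q)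
    (hPQ : ∀ (A : Type) [CommRing A], P A → Q A) : FewR P := by
  obtain ⟨F, hF⟩ := h
  exact ⟨F, fun A _ hA => hF A (hPQ A hA)⟩

theorem FewR.iUnion {ι : Type} [Countable ι] {P : ι → (A : Type) → [CommRing A] → Prop}
    (h : ∀ i, FewR (P i)) : FewR (fun (A : Type) [CommRing A] => ∃ i, P i A) := by
  choose F hF using h
  refine FewR.of_idx (D := ι × ℕ) (fun d => F d.1 d.2) fun A _ hA => ?_
  obtain ⟨i, hi⟩ := hA
  obtain ⟨j, hj⟩ := hF i A hi
  exact ⟨(i, j), hj⟩

theorem countable_ideal (Λ : Type) [CommRing Λ] [Countable Λ] [IsNoetherianRing Λ] :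
    Countable (Ideal Λ) := by
  have : Function.Surjective (fun s : Finset Λ => (span (s : Set Λ) : Ideal Λ)) := by
    intro I
    exact IsNoetherian.noetherian I
  exact this.countable

/-- quotients of a countable Noetherian ring -/
theorem few_quot (Λ : Type) [CommRing Λ] [Countable Λ] [IsNoetherianRing Λ] :
    FewR (fun (A : Type) [CommRing A] => ∃ f : Λ →+* A, Function.Surjective f) := by
  haveI := countable_ideal Λ
  refine FewR.of_idx (D := Ideal Λ) (fun I => ⟨Λ ⧸ I, inferInstance⟩) fun A _ hA => ?_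
  obtain ⟨f, hf⟩ := hA
  exact ⟨RingHom.ker f, ⟨(RingHom.quotientKerEquivOfSurjective hf).symm⟩⟩

/-- finitely generated algebras -/
def Cov (Λ B : Type) [CommRing Λ] [CommRing B] : Prop :=
  ∃ (r : ℕ) (f : MvPolynomial (Fin r) Λ →+* B), Function.Surjective f

theorem few_cov (Λ : Type) [CommRing Λ] [Countable Λ] [IsNoetherianRing Λ] :
    FewR (fun (A : Type) [CommRing A] => Cov Λ A) := by
  refine FewR.iUnion (ι := ℕ) fun r => ?_
  haveI : Countable (MvPolynomial (Fin r) Λ) := by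
    refine Cardinal.mk_le_aleph0_iff.1 ?_
    refine (MvPolynomial.cardinalMk_le_max (σ := Fin r) (R := Λ)).trans ?_
    exact max_le (max_le Cardinal.mk_le_aleph0 Cardinal.mk_le_aleph0) le_rfl
  exact few_quot (MvPolynomial (Fin r) Λ)

theorem Cov.of_equiv {Λ Λ' B : Type} [CommRing Λ] [CommRing Λ'] [CommRing B] (e : Λ ≃+* Λ')
    (h : Cov Λ B) : Cov Λ' B := by
  obtain ⟨r, f, hf⟩ := h
  exact ⟨r, f.comp (MvPolynomial.mapEquiv (Fin r) e.symm).toRingHom,
    hf.comp (MvPolynomial.mapEquiv (Fin r) e.symm).surjective⟩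

theorem FewR.cov {P : (A : Type) → [CommRing A] → Prop} (h : FewR P)
    (hP : ∀ (A : Type) [CommRing A], P A → Countable A ∧ IsNoetherianRing A) :
    FewR (fun (B : Type) [CommRing B] => ∃ (Λ : Type) (_ : CommRing Λ), P Λ ∧ Cov Λ B) := by
  classical
  obtain ⟨F, hF⟩ := h
  have h1 : ∀ j, FewR (fun (B : Type) [CommRing B] =>
      (Countable (F j).1 ∧ IsNoetherianRing (F j).1) ∧ Cov (F j).1 B) := by
    intro j
    by_cases hj : Countable (F j).1 ∧ IsNoetherianRing (F j).1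
    · haveI := hj.1
      haveI := hj.2
      exact (few_cov (F j).1).mono fun B _ hB => hB.2
    · exact ⟨fun _ => ⟨ℤ, inferInstance⟩, fun A _ hA => absurd hA.1 hj⟩
  refine (FewR.iUnion h1).mono fun B _ hB => ?_
  obtain ⟨Λ, _, hΛ, hc⟩ := hB
  obtain ⟨j, ⟨e⟩⟩ := hF Λ hΛ
  obtain ⟨h2, h3⟩ := hP Λ hΛ
  exact ⟨j, ⟨e.symm.injective.countable, isNoetherianRing_of_ringEquiv Λ e⟩, hc.of_equiv e⟩

/-- finite products -/
theorem FewR.prod {P : (A : Type) → [CommRing A] → Prop} (h : FewR P) :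
    FewR (fun (A : Type) [CommRing A] => ∃ (n : ℕ) (B : Fin n → Type) (_ : ∀ i, CommRing (B i)),
      (∀ i, P (B i)) ∧ Nonempty (A ≃+* ∀ i, B i)) := by
  obtain ⟨F, hF⟩ := h
  refine FewR.of_idx (D := Σ n : ℕ, Fin n → ℕ)
    (fun d => ⟨∀ i : Fin d.1, (F (d.2 i)).1, inferInstance⟩) fun A _ hA => ?_
  obtain ⟨n, B, iB, hB, ⟨e⟩⟩ := hA
  choose s hs using fun i => hF (B i) (hB i)
  refine ⟨⟨n, s⟩, ⟨e.trans (RingEquiv.piCongrRight fun i => (hs i).some)⟩⟩

/-- the family of all fields -/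
abbrev Ff : Type 1 := Σ U : Type, Field U

instance (k : Ff) : Field k.1 := k.2

theorem fields_of_inv {D : Type} [Countable D] [Nonempty D]
    (rel : (K : Type) → [Field K] → D → Prop) (G : (K : Type) → [Field K] → Prop)
    (h1 : ∀ (K : Type) [Field K], G K → ∃ d, rel K d)
    (h2 : ∀ (K K' : Type) [Field K] [Field K'] (d : D), G K → G K' → rel K d → rel K' d →
      Nonempty (K ≃+* K')) :
    ∃ E : ℕ → Ff, ∀ (K : Type) [Field K], G K → ∃ j, Nonempty (K ≃+* (E j).1) := by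
  classical
  obtain ⟨g, hg⟩ := exists_surjective_nat D
  let E : D → Ff := fun d =>
    if h : ∃ k : Ff, G k.1 ∧ rel k.1 d then h.choose else ⟨ℚ, inferInstance⟩
  refine ⟨fun n => E (g n), fun K _ hK => ?_⟩
  obtain ⟨d, hd⟩ := h1 K hK
  obtain ⟨n, rfl⟩ := hg d
  have h : ∃ k : Ff, G k.1 ∧ rel k.1 (g n) := ⟨⟨K, inferInstance⟩, hK, hd⟩
  refine ⟨n, ?_⟩
  have hE : E (g n) = h.choose := dif_pos h
  obtain ⟨h3, h4⟩ := h.choose_spec
  show Nonempty (K ≃+* (E (g n)).1)
  rw [hE]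
  exact h2 K _ (g n) hK h3 hd h4

/-- index types -/
def Ix : Option ℕ → Type
  | none => ℕ
  | some n => Fin n

theorem exists_ix (s : Type) [Countable s] : ∃ o, Nonempty (s ≃ Ix o) := by
  rcases finite_or_infinite s with h | h
  · obtain ⟨n, ⟨e⟩⟩ := Finite.exists_equiv_fin s
    exact ⟨some n, ⟨e⟩⟩
  · obtain ⟨hd⟩ := nonempty_denumerable s
    exact ⟨none, ⟨Denumerable.eqv s⟩⟩

/-- the fields that we consider -/
def GoodF (K : Type) [Field K] : Prop := Countable K ∧ (Finite K ∨ IsAlgClosed K)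

theorem few_fields : ∃ E : ℕ → Ff, ∀ (K : Type) [Field K], GoodF K →
    ∃ j, Nonempty (K ≃+* (E j).1) := by
  refine fields_of_inv (D := ℕ ⊕ ℕ × Option ℕ) (fun (K : Type) [Field K] d => match d with
    | Sum.inl n => Finite K ∧ Nat.card K = n
    | Sum.inr (p, o) => IsAlgClosed K ∧ ∃ (_ : CharP K p) (v : Ix o → K),
      @IsTranscendenceBasis (Ix o) (ZMod p) K _ _ (ZMod.algebra K p) v) (fun K [Field K] => GoodF K) ?_ ?_
  · intro K _ hK
    obtain ⟨h1, h2 | h2⟩ := hK
    · exact ⟨Sum.inl (Nat.card K), h2, rfl⟩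
    · obtain ⟨p, hp⟩ := CharP.exists K
      letI := ZMod.algebra K p
      haveI : FaithfulSMul (ZMod p) K := by
        rw [faithfulSMul_iff_algebraMap_injective]
        exact ZMod.castHom_injective K
      obtain ⟨s, hs⟩ := exists_isTranscendenceBasis (ZMod p) K
      obtain ⟨o, ⟨e⟩⟩ := exists_ix s
      refine ⟨Sum.inr (p, o), h2, hp, fun i => (e.symm i : K), ?_⟩
      exact hs.comp_equiv e.symm
  · intro K K' _ _ d hK hK' h h'
    match d, h, h' with
    | Sum.inl n, h, h' =>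
      haveI := h.1
      haveI := h'.1
      haveI := Fintype.ofFinite K
      haveI := Fintype.ofFinite K'
      refine ⟨FiniteField.ringEquivOfCardEq ?_⟩
      rw [Fintype.card_eq_nat_card, Fintype.card_eq_nat_card, h.2, h'.2]
    | Sum.inr (p, o), h, h' =>
      obtain ⟨h1, h2, v, hv⟩ := h
      obtain ⟨h1', h2', v', hv'⟩ := h'
      letI := ZMod.algebra K p
      letI := ZMod.algebra K' p
      exact ⟨IsAlgClosed.equivOfTranscendenceBasis v v' (Equiv.refl _) hv hv'⟩

end Pool.Agent.Hp8CR
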