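import Pool.Agent.Hp8VC.Sat
import Pool.Agent.N641.VB.Lang

set_option autoImplicit false
set_option linter.style.haveILetI false

/-!
Definability in families of commutative rings with named parameters: closure properties.
-/

namespace Pool.Agent.Hp8CR

open FirstOrder FirstOrder.Language Pool.Agent.N641.VB Pool.Agent.Hp8VC

/-- truth in a commutative ring -/
abbrev Rz {U : Type} [R : CommRing U] {ι : Type} (φ : LR.Formula ι) (v : ι → U) : Prop :=
  @Formula.Realize LR U (strR R) ι φ v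

section
variable {K : Type 1} {U : K → Type} [∀ k, CommRing (U k)] {ι₀ : Type} (a : ∀ k, ι₀ → U k)

/-- `P` is defined by one formula in all rings of the family, with the parameters `a` -/
def Dn {κ : Type} (P : ∀ k, (κ → U k) → Prop) : Prop :=
  ∃ φ : LR.Formula (ι₀ ⊕ κ), ∀ k v, Rz φ (Sum.elim (a k) v) ↔ P k v

/-- `f` is definable -/
def DnF {κ : Type} (f : ∀ k, (κ → U k) → U k) : Prop :=
  Dn a (κ := κ ⊕ Unit) (fun k v => v (Sum.inr ()) = f k (v ∘ Sum.inl))

variable {a} {κ κ' : Type}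

theorem Dn.congr {P Q : ∀ k, (κ → U k) → Prop} (h : Dn a P) (hh : ∀ k v, P k v ↔ Q k v) :
    Dn a Q := by
  obtain ⟨φ, hφ⟩ := h
  exact ⟨φ, fun k v => (hφ k v).trans (hh k v)⟩

theorem Dn.not {P : ∀ k, (κ → U k) → Prop} (h : Dn a P) : Dn a (fun k v => ¬ P k v) := by
  obtain ⟨φ, hφ⟩ := h
  refine ⟨φ.not, fun k v => ?_⟩
  letI := strR (inferInstance : CommRing (U k))
  rw [Rz, Formula.realize_not]
  exact not_congr (hφ k v)

theorem Dn.and {P Q : ∀ k, (κ → U k) → Prop} (h : Dn a P) (h' : Dn a Q) :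
    Dn a (fun k v => P k v ∧ Q k v) := by
  obtain ⟨φ, hφ⟩ := h
  obtain ⟨ψ, hψ⟩ := h'
  refine ⟨φ ⊓ ψ, fun k v => ?_⟩
  letI := strR (inferInstance : CommRing (U k))
  rw [Rz, Formula.realize_inf]
  exact and_congr (hφ k v) (hψ k v)

theorem Dn.imp {P Q : ∀ k, (κ → U k) → Prop} (h : Dn a P) (h' : Dn a Q) :
    Dn a (fun k v => P k v → Q k v) :=
  (h.and h'.not).not.congr fun k v => by tauto

theorem Dn.or {P Q : ∀ k, (κ → U k) → Prop} (h : Dn a P) (h' : Dn a Q) :
    Dn a (fun k v => P k v ∨ Q k v) :=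
  (h.not.and h'.not).not.congr fun k v => by tauto

theorem Dn.const (p : Prop) : Dn (κ := κ) a (fun _ _ => p) := by
  by_cases hp : p
  · refine ⟨⊤, fun k v => ?_⟩
    letI := strR (inferInstance : CommRing (U k))
    rw [Rz, Formula.realize_top]
    exact ⟨fun _ => hp, fun _ => trivial⟩
  · refine ⟨⊥, fun k v => ?_⟩
    letI := strR (inferInstance : CommRing (U k))
    rw [Rz, Formula.realize_bot]
    exact ⟨fun h => h.elim, fun h => hp h⟩

theorem Dn.relabel {P : ∀ k, (κ → U k) → Prop} (h : Dn a P) (g : κ → κ') :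
    Dn a (fun k v => P k (v ∘ g)) := by
  obtain ⟨φ, hφ⟩ := h
  refine ⟨Formula.relabel (Sum.map id g) φ, fun k v => ?_⟩
  letI := strR (inferInstance : CommRing (U k))
  rw [Rz, Formula.realize_relabel]
  refine Iff.trans (iff_of_eq (congrArg _ ?_)) (hφ k (v ∘ g))
  funext x
  rcases x with x | x <;> rfl

theorem Dn.ex {P : ∀ k, (κ ⊕ κ' → U k) → Prop} (h : Dn a P) :
    Dn a (fun k v => ∃ w : κ' → U k, P k (Sum.elim v w)) := by
  obtain ⟨φ, hφ⟩ := h
  obtain ⟨ψ, hψ⟩ := exq (Formula.relabel (Equiv.sumAssoc ι₀ κ κ').symm φ)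
  refine ⟨ψ, fun k v => ?_⟩
  letI := strR (inferInstance : CommRing (U k))
  rw [Rz, hψ]
  refine exists_congr fun w => ?_
  rw [Formula.realize_relabel, ← hφ]
  refine iff_of_eq (congrArg _ ?_)
  funext x
  rcases x with x | x | x <;> rfl

theorem Dn.all {P : ∀ k, (κ ⊕ κ' → U k) → Prop} (h : Dn a P) :
    Dn a (fun k v => ∀ w : κ' → U k, P k (Sum.elim v w)) :=
  h.not.ex.not.congr fun k v => by push Not; rfl

theorem Dn.fin_and {ι : Type} (s : Finset ι) {P : ι → ∀ k, (κ → U k) → Prop}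
    (h : ∀ i, Dn a (P i)) : Dn a (fun k v => ∀ i ∈ s, P i k v) := by
  classical
  induction s using Finset.induction_on with
  | empty => exact (Dn.const True).congr fun k v => by simp
  | insert i s _ ih => exact ((h i).and ih).congr fun k v => by simp

theorem Dn.iAnd {ι : Type} [Finite ι] {P : ι → ∀ k, (κ → U k) → Prop}
    (h : ∀ i, Dn a (P i)) : Dn a (fun k v => ∀ i, P i k v) := by
  have := Fintype.ofFinite ι
  exact (Dn.fin_and Finset.univ h).congr fun k v => by simp

theorem Dn.iOr {ι : Type} [Finite ι] {P : ι → ∀ k, (κ → U k) → Prop}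
    (h : ∀ i, Dn a (P i)) : Dn a (fun k v => ∃ i, P i k v) :=
  (Dn.iAnd fun i => (h i).not).not.congr fun k v => by push Not; rfl

theorem Dn.eqv (i j : ι₀ ⊕ κ) : Dn a (fun k v => Sum.elim (a k) v i = Sum.elim (a k) v j) := by
  refine ⟨Term.equal (Term.var i) (Term.var j), fun k v => ?_⟩
  letI := strR (inferInstance : CommRing (U k))
  rw [Rz, Formula.realize_equal]
  rfl

theorem Dn.addv (i j l : ι₀ ⊕ κ) : Dn a (fun k v => Sum.elim (a k) v i + Sum.elim (a k) v j =
    Sum.elim (a k) v l) := by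
  refine ⟨Term.equal (Term.func (SymR.add : LR.Functions 2) ![Term.var i, Term.var j])
    (Term.var l), fun k v => ?_⟩
  letI := strR (inferInstance : CommRing (U k))
  rw [Rz, Formula.realize_equal]
  rfl

theorem Dn.mulv (i j l : ι₀ ⊕ κ) : Dn a (fun k v => Sum.elim (a k) v i * Sum.elim (a k) v j =
    Sum.elim (a k) v l) := by
  refine ⟨Term.equal (Term.func (SymR.mul : LR.Functions 2) ![Term.var i, Term.var j])
    (Term.var l), fun k v => ?_⟩
  letI := strR (inferInstance : CommRing (U k))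
  rw [Rz, Formula.realize_equal]
  rfl

theorem DnF.congr {f g : ∀ k, (κ → U k) → U k} (h : DnF a f) (hh : ∀ k v, f k v = g k v) :
    DnF a g :=
  Dn.congr h fun k v => by rw [hh]

theorem DnF.relabel {f : ∀ k, (κ → U k) → U k} (h : DnF a f) (g : κ → κ') :
    DnF a (fun k v => f k (v ∘ g)) :=
  (Dn.relabel h (Sum.map g id)).congr fun k v => by
    rw [show (v ∘ Sum.map g id) (Sum.inr ()) = v (Sum.inr ()) from rfl,
      show (v ∘ Sum.map g id) ∘ Sum.inl = (v ∘ Sum.inl) ∘ g from rfl]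

theorem Dn.comp [Finite κ'] {P : ∀ k, (κ' → U k) → Prop} (h : Dn a P)
    {f : κ' → ∀ k, (κ → U k) → U k} (hf : ∀ i, DnF a (f i)) :
    Dn a (fun k v => P k (fun i => f i k v)) := by
  have h1 : ∀ i : κ', Dn (κ := κ ⊕ κ') a (fun k v => v (Sum.inr i) = f i k (v ∘ Sum.inl)) := by
    intro i
    exact (Dn.relabel (hf i) (Sum.map id fun _ => i)).congr fun k v => by
      rw [show (v ∘ Sum.map id fun _ => i) (Sum.inr ()) = v (Sum.inr i) from rfl,
        show (v ∘ Sum.map id fun _ => i) ∘ Sum.inl = (v ∘ Sum.inl) from rfl]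
  have h2 : Dn (κ := κ ⊕ κ') a (fun k v => P k (v ∘ Sum.inr)) := h.relabel Sum.inr
  refine ((Dn.iAnd h1).and h2).ex.congr fun k v => ?_
  constructor
  · rintro ⟨w, hw1, hw2⟩
    have : w = fun i => f i k v := funext fun i => hw1 i
    rw [← this]
    exact hw2
  · intro h3
    exact ⟨fun i => f i k v, fun i => rfl, h3⟩

theorem DnF.par (i : ι₀) : DnF (κ := κ) a (fun k _ => a k i) :=
  (Dn.eqv (κ := κ ⊕ Unit) (Sum.inr (Sum.inr ())) (Sum.inl i)).congr fun _ _ => Iff.rfl

theorem DnF.var (i : κ) : DnF a (fun _ v => v i) :=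
  (Dn.eqv (κ := κ ⊕ Unit) (Sum.inr (Sum.inr ())) (Sum.inr (Sum.inl i))).congr fun _ _ => Iff.rfl

theorem Dn.eq {f g : ∀ k, (κ → U k) → U k} (hf : DnF a f) (hg : DnF a g) :
    Dn a (fun k v => f k v = g k v) :=
  (Dn.comp (κ' := Fin 2) (f := ![f, g]) (Dn.eqv (a := a) (Sum.inr 0) (Sum.inr 1)) (by
    intro i
    fin_cases i
    · exact hf
    · exact hg)).congr fun _ _ => Iff.rfl

theorem Dn.comp3 {P : ∀ k, (Fin 3 → U k) → Prop} (h : Dn a P) {f g e : ∀ k, (κ → U k) → U k}
    (hf : DnF a f) (hg : DnF a g) (he : DnF a e) :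
    Dn a (fun k v => P k ![f k v, g k v, e k v]) :=
  (Dn.comp (κ' := Fin 3) (f := ![f, g, e]) h (by
    intro i
    fin_cases i
    · exact hf
    · exact hg
    · exact he)).congr fun k v => by
      refine iff_of_eq (congrArg _ ?_)
      funext i
      fin_cases i <;> rfl

theorem DnF.add {f g : ∀ k, (κ → U k) → U k} (hf : DnF a f) (hg : DnF a g) :
    DnF a (fun k v => f k v + g k v) :=
  (Dn.comp3 (κ := κ ⊕ Unit) (Dn.addv (a := a) (κ := Fin 3) (Sum.inr 0) (Sum.inr 1) (Sum.inr 2))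
    (hf.relabel Sum.inl) (hg.relabel Sum.inl) (DnF.var (Sum.inr ()))).congr fun _ _ => eq_comm

theorem DnF.mul {f g : ∀ k, (κ → U k) → U k} (hf : DnF a f) (hg : DnF a g) :
    DnF a (fun k v => f k v * g k v) :=
  (Dn.comp3 (κ := κ ⊕ Unit) (Dn.mulv (a := a) (κ := Fin 3) (Sum.inr 0) (Sum.inr 1) (Sum.inr 2))
    (hf.relabel Sum.inl) (hg.relabel Sum.inl) (DnF.var (Sum.inr ()))).congr fun _ _ => eq_comm

theorem DnF.zero : DnF (κ := κ) a (fun _ _ => 0) :=
  (Dn.eq (κ := κ ⊕ Unit) ((DnF.var (Sum.inr ())).add (DnF.var (Sum.inr ())))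
    (DnF.var (Sum.inr ()))).congr fun _ _ => add_eq_left

theorem DnF.one : DnF (κ := κ) a (fun _ _ => 1) :=
  (Dn.all (κ := κ ⊕ Unit) (κ' := Unit) (Dn.eq
    ((DnF.var (Sum.inl (Sum.inr ()))).mul (DnF.var (Sum.inr ())))
    (DnF.var (Sum.inr ())))).congr fun k v => by
      constructor
      · intro h
        have h1 := h (fun _ => 1)
        simpa using h1
      · intro h w
        show v (Sum.inr ()) * w () = w ()
        rw [h, one_mul]

theorem DnF.neg {f : ∀ k, (κ → U k) → U k} (hf : DnF a f) : DnF a (fun k v => - f k v) :=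
  (Dn.eq (κ := κ ⊕ Unit) ((DnF.var (Sum.inr ())).add (hf.relabel Sum.inl))
    DnF.zero).congr fun _ _ => eq_neg_iff_add_eq_zero.symm

theorem DnF.sub {f g : ∀ k, (κ → U k) → U k} (hf : DnF a f) (hg : DnF a g) :
    DnF a (fun k v => f k v - g k v) :=
  (hf.add hg.neg).congr fun _ _ => (sub_eq_add_neg _ _).symm

theorem DnF.pow {f : ∀ k, (κ → U k) → U k} (hf : DnF a f) (n : ℕ) :
    DnF a (fun k v => f k v ^ n) := by
  induction n with
  | zero => exact DnF.one.congr fun _ _ => (pow_zero _).symm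
  | succ n ih => exact (ih.mul hf).congr fun _ _ => (pow_succ _ _).symm

theorem DnF.sum {ι : Type} (s : Finset ι) {f : ι → ∀ k, (κ → U k) → U k}
    (hf : ∀ i, DnF a (f i)) : DnF a (fun k v => ∑ i ∈ s, f i k v) := by
  classical
  induction s using Finset.induction_on with
  | empty => exact DnF.zero.congr fun _ _ => (Finset.sum_empty).symm
  | insert i s hi ih => exact ((hf i).add ih).congr fun _ _ => by rw [Finset.sum_insert hi]

theorem DnF.prod {ι : Type} (s : Finset ι) {f : ι → ∀ k, (κ → U k) → U k}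
    (hf : ∀ i, DnF a (f i)) : DnF a (fun k v => ∏ i ∈ s, f i k v) := by
  classical
  induction s using Finset.induction_on with
  | empty => exact DnF.one.congr fun _ _ => (Finset.prod_empty).symm
  | insert i s hi ih => exact ((hf i).mul ih).congr fun _ _ => by rw [Finset.prod_insert hi]

end

end Pool.Agent.Hp8CR
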