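import Pool.Agent.Hp8VC.Sat
import Pool.Agent.N641.VB.Main7

set_option autoImplicit false
set_option linter.style.haveILetI false

/-!
Theories without perfectly many models have countably many types; patterns of formulas.
-/

namespace Pool.Agent.Hp8CR

open FirstOrder FirstOrder.Language Pool.Agent.N641.VB Pool.Agent.Hp8VC Set H968

variable {L : FirstOrder.Language.{0, 0}} [Countable L.Symbols]

/-- types are realised in structures with universe `ℕ` -/
theorem real_nat {M : Type} [L.Structure M] [Infinite M] {ι : Type} [Countable ι] (v : ι → M) :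
    ∃ (S : L.Structure ℕ) (v' : ι → ℕ), @SameT L M ℕ _ S ι v v' := by
  have hL : Cardinal.lift.{0} L.card ≤ Cardinal.lift.{0} Cardinal.aleph0 := by
    have : L.card ≤ Cardinal.aleph0 := Cardinal.mk_le_aleph0_iff.2 inferInstance
    simpa using this
  obtain ⟨N, hN1, hN2⟩ := exists_elementarySubstructure_card_eq L (range v) Cardinal.aleph0 le_rfl
    (by
      have : Cardinal.mk (range v) ≤ Cardinal.aleph0 :=
        Cardinal.le_aleph0_iff_set_countable.2 (countable_range v)
      simpa using this) hL (by simp)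
  have hN3 : Cardinal.mk N = Cardinal.aleph0 := by simpa using hN2
  obtain ⟨hd⟩ := Cardinal.denumerable_iff.2 hN3
  let e : N ≃ ℕ := Denumerable.eqv N
  letI : L.Structure ℕ := e.inducedStructure
  refine ⟨e.inducedStructure, fun i => e ⟨v i, hN1 ⟨i, rfl⟩⟩, fun φ => ?_⟩
  have h1 := StrongHomClass.realize_formula (e.inducedStructureEquiv : N ≃[L] ℕ) φ
    (v := fun i => (⟨v i, hN1 ⟨i, rfl⟩⟩ : N))
  have h2 := N.subtype.map_formula φ (fun i => (⟨v i, hN1 ⟨i, rfl⟩⟩ : N))
  exact h2.trans h1.symm

/-- models of a theory without perfectly many models have countably many types -/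
theorem few_types {T : L.Theory} (hP : ¬ Perfect L T) (M : Type) [L.Structure M] [Infinite M]
    (hM : M ⊨ T) (ι : Type) [Finite ι] :
    {t : Set (L.Formula ι) | ∃ v : ι → M, t = {χ | χ.Realize v}}.Countable := by
  obtain ⟨n, ⟨e⟩⟩ := Finite.exists_equiv_fin ι
  have h1 := lv.st1 L inferInstance T n hP
  refine (h1.image (fun t => {χ : L.Formula ι | Formula.relabel e χ ∈ t})).mono ?_
  rintro _ ⟨v, rfl⟩
  obtain ⟨S, v', hv⟩ := real_nat (L := L) v
  refine ⟨_, ⟨S, v' ∘ e.symm, ?_, rfl⟩, ?_⟩
  · refine @Theory.Model.mk L ℕ S T fun χ hχ => ?_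
    have h2 := hv (Formula.relabel (Empty.elim : Empty → ι) χ)
    have h3 : M ⊨ χ := hM.realize_of_mem χ hχ
    have h4 : (Formula.relabel (Empty.elim : Empty → ι) χ).Realize v := by
      rw [Formula.realize_relabel]
      have : v ∘ (Empty.elim : Empty → ι) = default := Subsingleton.elim _ _
      rw [this]
      exact h3
    have h5 := h2.1 h4
    letI := S
    rw [Formula.realize_relabel] at h5
    exact (iff_of_eq (congrArg (@Formula.Realize L ℕ S _ χ) (Subsingleton.elim _ _))).1 h5
  · ext χ
    letI := S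
    show (Formula.relabel e χ).Realize (v' ∘ e.symm) ↔ χ.Realize v
    rw [Formula.realize_relabel, hv χ]
    have : (v' ∘ e.symm) ∘ e = v' := by
      funext i
      simp
    rw [this]

omit [Countable L.Symbols] in
/-- models of the ultrapower -/
theorem model_ult {T : L.Theory} (N : Type) [L.Structure N] [Nonempty N] (hN : N ⊨ T) :
    (Ult N) ⊨ T := by
  refine ⟨fun χ hχ => ?_⟩
  have h1 := sameT_diag (L := L) N (ι := Empty) Empty.elim χ
  have h2 : N ⊨ χ := hN.realize_of_mem χ hχ
  have h3 : Formula.Realize χ (Empty.elim : Empty → N) := by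
    have : (Empty.elim : Empty → N) = default := Subsingleton.elim _ _
    rw [this]
    exact h2
  have h4 := h1.1 h3
  have : (fun i : Empty => (cls fun _ => (Empty.elim : Empty → N) i : Ult N)) = default :=
    Subsingleton.elim _ _
  rw [this] at h4
  exact h4

/-- if uncountably many patterns of truth values of the formulas `ψ` are finitely satisfiable in a
model, then there are perfectly many models -/
theorem perf_of_patterns {T : L.Theory} (N : Type) [L.Structure N] [Infinite (Ult N)] [Nonempty N]
    (hN : N ⊨ T) {ι J : Type} [Finite ι] (ψ : J → L.Formula ι) (P : Set (J → Prop))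
    (hP : ¬ P.Countable)
    (hfin : ∀ p ∈ P, ∀ s : Finset J, ∃ v : ι → N, ∀ j ∈ s, ((ψ j).Realize v ↔ p j)) :
    Perfect L T := by
  classical
  by_contra hT
  refine hP ?_
  have h1 := few_types hT (Ult N) (model_ult N hN) ι
  refine (h1.image (fun t (j : J) => ψ j ∈ t)).mono ?_
  intro p hp
  obtain ⟨b, hb⟩ := satd_ult (L := L) N Empty ι Empty.elim
    {χ | ∃ j, χ = Formula.relabel Sum.inr (if p j then ψ j else (ψ j).not)} (by
      intro s hs hs'
      haveI := hs'.fintype
      choose j hj using fun χ : s => hs χ.2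
      obtain ⟨v, hv⟩ := hfin p hp (Finset.univ.image j)
      refine ⟨fun i => cls fun _ => v i, fun χ hχ => ?_⟩
      rw [show χ = _ from hj ⟨χ, hχ⟩, Formula.realize_relabel]
      have h2 : (Sum.elim (Empty.elim : Empty → Ult N) fun i => (cls fun _ => v i : Ult N)) ∘
        Sum.inr = fun i => (cls fun _ => v i : Ult N) := rfl
      rw [h2, ← sameT_diag (L := L) N v]
      have h3 := hv (j ⟨χ, hχ⟩) (Finset.mem_image_of_mem _ (Finset.mem_univ _))
      by_cases h4 : p (j ⟨χ, hχ⟩)
      · rw [if_pos h4]
        exact h3.2 h4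
      · rw [if_neg h4, Formula.realize_not]
        exact fun h5 => h4 (h3.1 h5))
  refine ⟨_, ⟨b, rfl⟩, ?_⟩
  funext j
  have h2 := hb _ ⟨j, rfl⟩
  rw [Formula.realize_relabel] at h2
  have h3 : (Sum.elim (Empty.elim : Empty → Ult N) b) ∘ Sum.inr = b := rfl
  rw [h3] at h2
  by_cases h4 : p j
  · rw [if_pos h4] at h2
    exact propext ⟨fun _ => h4, fun _ => h2⟩
  · rw [if_neg h4, Formula.realize_not] at h2
    exact propext ⟨fun h => (h2 h).elim, fun h => (h4 h).elim⟩

theorem infinite_ult (N : Type) [Infinite N] : Infinite (Ult N) := by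
  refine Infinite.of_injective (fun x : N => (cls fun _ => x : Ult N)) ?_
  intro x y hxy
  have h1 : ∀ᶠ _ in (hyp : Filter ℕ), x = y := Quotient.exact hxy
  simpa using h1

end Pool.Agent.Hp8CR
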