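import Pool.Agent.Hp8CR.Typ

set_option autoImplicit false
set_option linter.style.haveILetI false

/-!
Fields interpreted in a saturated ring with countably many types: powers and Artin-Schreier maps are
surjective on the elements definable over the parameters.
-/

namespace Pool.Agent.Hp8CR

open FirstOrder FirstOrder.Language Pool.Agent.N641.VB Pool.Agent.Hp8VC Set

section
variable {U : Type} [R : CommRing U] {ι₀ : Type} (a : ι₀ → U) {κ : Type} {L : Type}
  (π : (κ → U) → L)

/-- definable relations on the sort `L` -/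
def DE {ι : Type} (P : (ι → L) → Prop) : Prop :=
  Dfn a (fun v : ι × κ → U => P (fun i => π (fun j => v (i, j))))

/-- definable functions on the sort `L` -/
def DEF {ι : Type} (f : (ι → L) → L) : Prop :=
  DE a π (ι := ι ⊕ Unit) (fun w => w (Sum.inr ()) = f (w ∘ Sum.inl))

variable {a π} {ι ι' : Type}

theorem DE.congr {P Q : (ι → L) → Prop} (h : DE a π P) (hh : ∀ w, P w ↔ Q w) : DE a π Q :=
  Dfn.congr h fun _ => hh _

theorem DE.not {P : (ι → L) → Prop} (h : DE a π P) : DE a π (fun w => ¬ P w) := Dfn.not h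

theorem DE.and {P Q : (ι → L) → Prop} (h : DE a π P) (h' : DE a π Q) :
    DE a π (fun w => P w ∧ Q w) := Dfn.and h h'

theorem DE.or {P Q : (ι → L) → Prop} (h : DE a π P) (h' : DE a π Q) :
    DE a π (fun w => P w ∨ Q w) := Dfn.or h h'

theorem DE.iAnd {ι'' : Type} [Finite ι''] {P : ι'' → (ι → L) → Prop}
    (h : ∀ i, DE a π (P i)) : DE a π (fun w => ∀ i, P i w) :=
  Dfn.iAnd (P := fun i (v : ι × κ → U) => P i (fun i => π (fun j => v (i, j)))) h

theorem DE.relabel {P : (ι → L) → Prop} (h : DE a π P) (g : ι → ι') :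
    DE a π (fun w => P (w ∘ g)) :=
  (Dfn.relabel h (Prod.map g id)).congr fun _ => Iff.rfl

theorem DE.ex (hs : Function.Surjective π) {P : (ι ⊕ ι' → L) → Prop} (h : DE a π P) :
    DE a π (fun w => ∃ w', P (Sum.elim w w')) := by
  let e : (ι ⊕ ι') × κ → (ι × κ) ⊕ (ι' × κ) := fun x => match x with
    | (Sum.inl i, j) => Sum.inl (i, j)
    | (Sum.inr i, j) => Sum.inr (i, j)
  refine (Dfn.relabel h e).ex.congr fun v => ?_
  have key : ∀ u : ι' × κ → U, (fun i => π (fun j => (Sum.elim v u ∘ e) (i, j))) =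
      Sum.elim (fun i => π (fun j => v (i, j))) (fun i => π (fun j => u (i, j))) := by
    intro u
    funext i
    rcases i with i | i <;> rfl
  constructor
  · rintro ⟨u, hu⟩
    rw [key] at hu
    exact ⟨_, hu⟩
  · rintro ⟨w', hw'⟩
    choose u hu using fun i => hs (w' i)
    refine ⟨fun x => u x.1 x.2, ?_⟩
    rw [key]
    have : (fun i => π (fun j => u i j)) = w' := funext hu
    rw [this]
    exact hw'

theorem DE.all (hs : Function.Surjective π) {P : (ι ⊕ ι' → L) → Prop} (h : DE a π P) :
    DE a π (fun w => ∀ w', P (Sum.elim w w')) :=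
  (DE.ex hs h.not).not.congr fun w => by push Not; rfl

theorem DEF.congr {f g : (ι → L) → L} (h : DEF a π f) (hh : ∀ w, f w = g w) : DEF a π g :=
  DE.congr h fun w => by rw [hh]

theorem DEF.relabel {f : (ι → L) → L} (h : DEF a π f) (g : ι → ι') :
    DEF a π (fun w => f (w ∘ g)) :=
  (DE.relabel h (Sum.map g id)).congr fun _ => Iff.rfl

theorem DE.comp (hs : Function.Surjective π) [Finite ι'] {P : (ι' → L) → Prop} (h : DE a π P)
    {f : ι' → (ι → L) → L} (hf : ∀ i, DEF a π (f i)) :
    DE a π (fun w => P (fun i => f i w)) := by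
  have h1 : ∀ i : ι', DE (ι := ι ⊕ ι') a π (fun w => w (Sum.inr i) = f i (w ∘ Sum.inl)) := by
    intro i
    exact (DE.relabel (hf i) (Sum.map id fun _ => i)).congr fun _ => Iff.rfl
  have h2 : DE (ι := ι ⊕ ι') a π (fun w => P (w ∘ Sum.inr)) := h.relabel Sum.inr
  refine (DE.ex hs ((DE.iAnd h1).and h2)).congr fun w => ?_
  constructor
  · rintro ⟨w', hw1, hw2⟩
    have : w' = fun i => f i w := funext fun i => hw1 i
    rw [← this]
    exact hw2
  · intro h3
    exact ⟨fun i => f i w, fun i => rfl, h3⟩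

variable [Field L] (a π)

/-- the field `L` is interpreted in the ring with the parameters `a` -/
structure IntF : Prop where
  surj : Function.Surjective π
  add : DE a π (fun w : Fin 3 → L => w 0 + w 1 = w 2)
  mul : DE a π (fun w : Fin 3 → L => w 0 * w 1 = w 2)

variable {a π}

theorem IntF.eqv (h : IntF a π) (i j : ι) : DE a π (fun w : ι → L => w i = w j) := by
  have h1 : DE a π (fun w : ι ⊕ Unit → L => w (Sum.inr ()) + w (Sum.inr ()) = w (Sum.inr ())) :=
    (h.add.relabel ![Sum.inr (), Sum.inr (), Sum.inr ()]).congr fun _ => Iff.rfl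
  have h2 : DE a π (fun w : ι ⊕ Unit → L => w (Sum.inl i) + w (Sum.inr ()) = w (Sum.inl j)) :=
    (h.add.relabel ![Sum.inl i, Sum.inr (), Sum.inl j]).congr fun _ => Iff.rfl
  refine (DE.ex h.surj (h1.and h2)).congr fun w => ?_
  constructor
  · rintro ⟨z, hz1, hz2⟩
    have h3 : z () + z () = z () := hz1
    have h4 : w i + z () = w j := hz2
    rw [add_eq_left] at h3
    rw [h3, add_zero] at h4
    exact h4
  · intro h3
    refine ⟨fun _ => 0, add_zero _, ?_⟩
    show w i + 0 = w j
    rw [add_zero, h3]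

theorem IntF.var (h : IntF a π) (i : ι) : DEF a π (fun w : ι → L => w i) :=
  (h.eqv (ι := ι ⊕ Unit) (Sum.inr ()) (Sum.inl i)).congr fun _ => Iff.rfl

theorem IntF.comp3 (h : IntF a π) {P : (Fin 3 → L) → Prop} (hP : DE a π P)
    {f g e : (ι → L) → L} (hf : DEF a π f) (hg : DEF a π g) (he : DEF a π e) :
    DE a π (fun w => P ![f w, g w, e w]) :=
  (DE.comp h.surj (ι' := Fin 3) (f := ![f, g, e]) hP (by
    intro i
    fin_cases i
    · exact hf
    · exact hg
    · exact he)).congr fun w => by
      refine iff_of_eq (congrArg _ ?_)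
      funext i
      fin_cases i <;> rfl

theorem IntF.eq (h : IntF a π) {f g : (ι → L) → L} (hf : DEF a π f) (hg : DEF a π g) :
    DE a π (fun w => f w = g w) :=
  (h.comp3 (h.eqv (ι := Fin 3) 0 1) hf hg hf).congr fun _ => Iff.rfl

theorem IntF.addF (h : IntF a π) {f g : (ι → L) → L} (hf : DEF a π f) (hg : DEF a π g) :
    DEF a π (fun w => f w + g w) :=
  (h.comp3 (ι := ι ⊕ Unit) h.add (hf.relabel Sum.inl) (hg.relabel Sum.inl)
    (h.var (Sum.inr ()))).congr fun _ => eq_comm

theorem IntF.mulF (h : IntF a π) {f g : (ι → L) → L} (hf : DEF a π f) (hg : DEF a π g) :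
    DEF a π (fun w => f w * g w) :=
  (h.comp3 (ι := ι ⊕ Unit) h.mul (hf.relabel Sum.inl) (hg.relabel Sum.inl)
    (h.var (Sum.inr ()))).congr fun _ => eq_comm

theorem IntF.zero (h : IntF a π) : DEF a π (fun _ : ι → L => 0) :=
  (h.eq (ι := ι ⊕ Unit) (h.addF (h.var (Sum.inr ())) (h.var (Sum.inr ())))
    (h.var (Sum.inr ()))).congr fun _ => add_eq_left

theorem IntF.one (h : IntF a π) : DEF a π (fun _ : ι → L => 1) :=
  (DE.all h.surj (ι := ι ⊕ Unit) (ι' := Unit) (h.eq
    (h.mulF (h.var (Sum.inl (Sum.inr ()))) (h.var (Sum.inr ())))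
    (h.var (Sum.inr ())))).congr fun w => by
      constructor
      · intro h
        have h1 := h (fun _ => 1)
        simpa using h1
      · intro h w'
        show w (Sum.inr ()) * w' () = w' ()
        rw [h, one_mul]

theorem IntF.neg (h : IntF a π) {f : (ι → L) → L} (hf : DEF a π f) :
    DEF a π (fun w => - f w) :=
  (h.eq (ι := ι ⊕ Unit) (h.addF (h.var (Sum.inr ())) (hf.relabel Sum.inl))
    h.zero).congr fun _ => eq_neg_iff_add_eq_zero.symm

theorem IntF.sub (h : IntF a π) {f g : (ι → L) → L} (hf : DEF a π f) (hg : DEF a π g) :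
    DEF a π (fun w => f w - g w) :=
  (h.addF hf (h.neg hg)).congr fun _ => (sub_eq_add_neg _ _).symm

theorem IntF.inv (h : IntF a π) {f : (ι → L) → L} (hf : DEF a π f) :
    DEF a π (fun w => (f w)⁻¹) := by
  have h1 := (h.eq (ι := ι ⊕ Unit) (hf.relabel Sum.inl) h.zero).and
    (h.eq (ι := ι ⊕ Unit) (h.var (Sum.inr ())) h.zero)
  have h2 := h.eq (ι := ι ⊕ Unit) (h.mulF (h.var (Sum.inr ())) (hf.relabel Sum.inl)) h.one
  refine (h1.or h2).congr fun w => ?_
  show _ ↔ w (Sum.inr ()) = (f (w ∘ Sum.inl))⁻¹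
  constructor
  · rintro (⟨h3, h4⟩ | h3)
    · rw [h4, h3, inv_zero]
    · exact eq_inv_of_mul_eq_one_left h3
  · intro h3
    by_cases h4 : f (w ∘ Sum.inl) = 0
    · left
      refine ⟨h4, ?_⟩
      rw [h3, h4, inv_zero]
    · right
      rw [h3]
      exact inv_mul_cancel₀ h4

theorem IntF.pow (h : IntF a π) {f : (ι → L) → L} (hf : DEF a π f) (n : ℕ) :
    DEF a π (fun w => f w ^ n) := by
  induction n with
  | zero => exact h.one.congr fun _ => (pow_zero _).symm
  | succ n ih => exact (h.mulF ih hf).congr fun _ => (pow_succ _ _).symm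

omit [Field L] in
/-- constants in more variables -/
theorem const_of {s : L} (h : DEF a π (fun _ : Empty → L => s)) :
    DEF a π (fun _ : ι → L => s) :=
  (DEF.relabel h (Empty.elim : Empty → ι)).congr fun _ => rfl

/-- the field of the definable elements -/
def IntF.k (h : IntF a π) : Subfield L where
  carrier := {s | DEF a π (fun _ : Empty → L => s)}
  mul_mem' := fun {x y} h1 h2 => h.mulF (f := fun _ : Empty → L => x) (g := fun _ => y) h1 h2
  one_mem' := h.one
  add_mem' := fun {x y} h1 h2 => h.addF (f := fun _ : Empty → L => x) (g := fun _ => y) h1 h2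
  zero_mem' := h.zero
  neg_mem' := fun {x} h1 => h.neg (f := fun _ : Empty → L => x) h1
  inv_mem' := fun x h1 => h.inv (f := fun _ : Empty → L => x) h1

omit [Field L] in
theorem dm_of {g : L → L} (h : DEF a π (fun w : Unit → L => g (w ()))) : DM a π g := by
  let e : (Unit ⊕ Unit) × κ → κ ⊕ κ := fun x => match x with
    | (Sum.inl _, j) => Sum.inl j
    | (Sum.inr _, j) => Sum.inr j
  exact (Dfn.relabel h e).congr fun v => Iff.rfl

omit [Field L] in
theorem set_of {W : Set L} (h : DE a π (fun w : Unit → L => w () ∈ W)) :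
    Dfn a (fun x : κ → U => π x ∈ W) :=
  (Dfn.relabel h (fun x : Unit × κ => x.2)).congr fun _ => Iff.rfl

omit [Field L] in
theorem bf_inj {g : L → L} (hg : Function.Injective g) : BF 1 g := by
  intro f hf hinj
  have h1 : f 1 = f 0 := hg (hf 1)
  exact absurd (hinj h1) (by decide)

theorem bf_poly {g : L → L} {N : ℕ} (q : L → Polynomial L)
    (hq0 : ∀ s, q s ≠ 0) (hqd : ∀ s, (q s).natDegree ≤ N)
    (hq : ∀ s t, g t = s → (q s).IsRoot t) : BF N g := by
  classical
  intro f hf hinj
  have h1 : (Finset.univ.image f).card = N + 1 := by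
    rw [Finset.card_image_of_injective _ hinj, Finset.card_univ, Fintype.card_fin]
  have h2 : (Finset.univ.image f).val ⊆ (q (g (f 0))).roots := by
    intro y hy
    obtain ⟨i, -, rfl⟩ := Finset.mem_image.1 (show y ∈ Finset.univ.image f from hy)
    exact (Polynomial.mem_roots (hq0 _)).2 (hq _ _ (hf i))
  have h3 := Polynomial.card_le_degree_of_subset_roots h2
  have h4 := hqd (g (f 0))
  omega

/-- The main property of the interpreted field. -/
theorem IntF.conc [Countable ι₀] [Countable κ] (hU : @Satd LR U (strR R)) (h : IntF a π)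
    (hct : (range (ty a π)).Countable) (hinf : Infinite h.k) :
    (∀ n : ℕ, 0 < n → ∀ s ∈ h.k, ∃ w, w ^ n = s) ∧
    (∀ (p : ℕ) [Fact p.Prime] [CharP L p], ∀ s ∈ h.k, ∃ w, w ^ p - w = s) := by
  have hs := h.surj
  have hv : DEF a π (fun w : Unit → L => w ()) := h.var ()
  have hE : DM a π id := dm_of (g := id) hv
  obtain ⟨G, hG1, hG2, hG3⟩ := exists_gen hU hE hs hct
  have dmadd : ∀ s ∈ h.k, DM a π (fun x => x + s) := fun s hsk =>
    dm_of (g := fun x => x + s) (h.addF hv (const_of hsk))
  have dmmul : ∀ s ∈ h.k, DM a π (fun x => s * x) := fun s hsk =>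
    dm_of (g := fun x => s * x) (h.mulF (const_of hsk) hv)
  have hcm : ∀ g : L → L, DM a π g → ∀ x y, ty a π x = ty a π y → ty a π (g x) = ty a π (g y) := by
    intro g hg x y hxy
    rw [← pull_ty hs hg, ← pull_ty hs hg, hxy]
  have hGK : GenK G (ty a π) h.k :=
    { ne := hG1
      fin := hG2
      inf := hinf
      add := fun s hsk x hx => hG3 _ 1 (dmadd s hsk) (bf_inj (add_left_injective s)) x hx
      mul := fun s hsk hs0 x hx => hG3 _ 1 (dmmul s hsk) (bf_inj (mul_right_injective₀ hs0)) x hx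
      cadd := fun s hsk => hcm _ (dmadd s hsk)
      cmul := fun s hsk _ => hcm _ (dmmul s hsk) }
  constructor
  · intro n hn
    have hpow : DM a π (fun x => x ^ n) := dm_of (g := fun x => x ^ n) (h.pow hv n)
    have hinv : DM a π (fun x => x⁻¹) := dm_of (g := fun x => x⁻¹) (h.inv hv)
    refine hGK.pow ?_ hn ?_ ?_ ?_
    · intro x y hxy hx
      have h1 : Dfn a (fun x : κ → U => π x ∈ ({0} : Set L)) :=
        set_of (h.eq hv h.zero)
      exact ty_set hs h1 hxy hx
    · intro x y hxy hx
      have h1 : DE a π (fun w : Unit ⊕ Unit → L => ¬ (w (Sum.inr ()) = 0) ∧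
          w (Sum.inr ()) ^ n = w (Sum.inl ())) :=
        (h.eq (h.var _) h.zero).not.and (h.eq (h.pow (h.var _) n) (h.var _))
      have h2 : DE a π (fun w : Unit → L => w () ∈ {z : L | ∃ w, w ≠ 0 ∧ w ^ n = z}) := by
        refine (DE.ex hs h1).congr fun w => ?_
        constructor
        · rintro ⟨w', hw'⟩
          exact ⟨w' (), hw'⟩
        · rintro ⟨w', hw'⟩
          exact ⟨fun _ => w', hw'⟩
      exact ty_set hs (set_of h2) hxy hx
    · intro x hx
      refine hG3 _ n hpow (bf_poly (fun s => Polynomial.X ^ n - Polynomial.C s)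
        (fun s => Polynomial.X_pow_sub_C_ne_zero hn s)
        (fun s => (Polynomial.natDegree_X_pow_sub_C).le) ?_) x hx
      intro s t hst
      simp [Polynomial.IsRoot, ← hst]
    · intro x hx
      exact hG3 _ 1 hinv (bf_inj inv_injective) x hx
  · intro p hp hc
    have hp' : p.Prime := Fact.out
    have has : DM a π (fun x => x ^ p - x) :=
      dm_of (g := fun x => x ^ p - x) (h.sub (h.pow hv p) hv)
    refine hGK.as p ?_ ?_
    · intro x y hxy hx
      have h1 : DE a π (fun w : Unit ⊕ Unit → L =>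
          w (Sum.inr ()) ^ p - w (Sum.inr ()) = w (Sum.inl ())) :=
        h.eq (h.sub (h.pow (h.var _) p) (h.var _)) (h.var _)
      have h2 : DE a π (fun w : Unit → L => w () ∈ {z : L | ∃ w, w ^ p - w = z}) := by
        refine (DE.ex hs h1).congr fun w => ?_
        constructor
        · rintro ⟨w', hw'⟩
          exact ⟨w' (), hw'⟩
        · rintro ⟨w', hw'⟩
          exact ⟨fun _ => w', hw'⟩
      exact ty_set hs (set_of h2) hxy hx
    · intro x hx
      refine hG3 _ p has (bf_poly (fun s => Polynomial.X ^ p - Polynomial.X - Polynomial.C s)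
        ?_ ?_ ?_) x hx
      · intro s h0
        have h1 := congrArg (fun q => Polynomial.coeff q p) h0
        have hp1 : p ≠ 1 := hp'.one_lt.ne'
        have hp0 : p ≠ 0 := hp'.ne_zero
        simp [Polynomial.coeff_X, Polynomial.coeff_C, hp0, hp1.symm] at h1
      · intro s
        refine (Polynomial.natDegree_sub_le _ _).trans (max_le ?_ (by simp))
        refine (Polynomial.natDegree_sub_le _ _).trans (max_le (by simp) ?_)
        rw [Polynomial.natDegree_X]
        exact hp'.one_lt.le
      · intro s t hst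
        simp [Polynomial.IsRoot, ← hst]

end

end Pool.Agent.Hp8CR
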