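import Mathlib

set_option autoImplicit false
set_option linter.style.haveILetI false

/-!
A field is algebraically closed if in all its finite extensions the power maps are surjective and, in
characteristic `p`, the map `x ^ p - x` is surjective (Macintyre's argument with Kummer and
Artin-Schreier theory).
-/

namespace Pool.Agent.Hp8CR

open Polynomial Module

theorem mem_cast {N : Type} [Field N] (q : ℕ) [Fact q.Prime] [CharP N q] (x : N) (hx : x ^ q = x) :
    ∃ n : ℕ, (n : N) = x := by
  classical
  by_contra h
  have hq : q.Prime := Fact.out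
  let S : Finset N := insert x ((Finset.range q).image (fun n : ℕ => (n : N)))
  have hinj : Set.InjOn (fun n : ℕ => (n : N)) (Finset.range q : Finset ℕ) := by
    intro a ha b hb hab
    have h1 : (a : ℕ) ≡ b [MOD q] := (CharP.natCast_eq_natCast N q).1 hab
    simp only [Finset.coe_range, Set.mem_Iio] at ha hb
    exact Nat.ModEq.eq_of_lt_of_lt h1 ha hb
  have hcard : S.card = q + 1 := by
    rw [Finset.card_insert_of_notMem, Finset.card_image_of_injOn hinj, Finset.card_range]
    intro hm
    obtain ⟨n, -, hn⟩ := Finset.mem_image.1 hm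
    exact h ⟨n, hn⟩
  have hS : ∀ y ∈ S, y ^ q = y := by
    intro y hy
    rcases Finset.mem_insert.1 hy with rfl | hy
    · exact hx
    · obtain ⟨n, -, rfl⟩ := Finset.mem_image.1 hy
      exact map_natCast (frobenius N q) n
  have h0 : (X ^ q - X : N[X]) ≠ 0 := FiniteField.X_pow_card_sub_X_ne_zero N hq.one_lt
  have h1 : S.val ⊆ (X ^ q - X : N[X]).roots := by
    intro y hy
    rw [mem_roots h0]
    simp [IsRoot, hS y hy]
  have h2 := card_le_degree_of_subset_roots h1
  rw [FiniteField.X_pow_card_sub_X_natDegree_eq N hq.one_lt, hcard] at h2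
  omega

section
variable {M N : Type} [Field M] [Field N] [Algebra M N] [FiniteDimensional M N] [IsGalois M N]

theorem card_gal : Nat.card (N ≃ₐ[M] N) = finrank M N := IsGalois.card_aut_eq_finrank M N

/-- Artin-Schreier. -/
theorem artin_schreier (q : ℕ) [Fact q.Prime] [CharP N q] (h : finrank M N = q)
    (hs : ∀ s : M, ∃ w : M, w ^ q - w = s) : False := by
  classical
  have hq : q.Prime := Fact.out
  have hcard : Nat.card (N ≃ₐ[M] N) = q := card_gal.trans h
  have hcyc : IsCyclic (N ≃ₐ[M] N) := isCyclic_of_prime_card hcard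
  obtain ⟨σ, hσ⟩ := hcyc
  have hord : orderOf σ = q := (orderOf_eq_card_of_forall_mem_zpowers hσ).trans hcard
  obtain ⟨θ, hθ⟩ := Algebra.trace_surjective M N 1
  have htr : ∑ i ∈ Finset.range q, (σ ^ i) θ = 1 := by
    have h1 := trace_eq_sum_automorphisms (K := M) (L := N) θ
    rw [hθ, map_one] at h1
    rw [h1, ← IsCyclic.image_range_orderOf hσ, hord, Finset.sum_image]
    intro i hi j hj hij
    simp only [Finset.coe_range, Set.mem_Iio] at hi hj
    exact pow_injOn_Iio_orderOf (by simpa [hord] using hi) (by simpa [hord] using hj) hij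
  let α : N := ∑ i ∈ Finset.range q, (i : N) * (σ ^ i) θ
  have hσα : σ α = α - 1 := by
    have h1 : σ α = ∑ i ∈ Finset.range q, (i : N) * (σ ^ (i + 1)) θ := by
      simp only [α, map_sum, map_mul, map_natCast, pow_succ', AlgEquiv.mul_apply]
    have h2 : ∑ i ∈ Finset.range q, ((i + 1 : ℕ) : N) * (σ ^ (i + 1)) θ = α := by
      have h3 := Finset.sum_range_succ' (fun i => (i : N) * (σ ^ i) θ) q
      have h4 := Finset.sum_range_succ (fun i => (i : N) * (σ ^ i) θ) q
      rw [h4, CharP.cast_eq_zero, zero_mul, add_zero, Nat.cast_zero, zero_mul, add_zero] at h3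
      exact h3.symm
    have h5 : ∑ i ∈ Finset.range q, (σ ^ (i + 1)) θ = 1 := by
      have h6 := congrArg σ htr
      rw [map_sum, map_one] at h6
      rw [← h6]
      refine Finset.sum_congr rfl fun i _ => ?_
      rw [pow_succ', AlgEquiv.mul_apply]
    rw [h1, eq_sub_iff_add_eq, ← h5, ← Finset.sum_add_distrib]
    conv_rhs => rw [← h2]
    refine Finset.sum_congr rfl fun i _ => ?_
    push_cast
    ring
  have hfix : ∀ x : N, σ x = x → ∃ y : M, algebraMap M N y = x := by
    intro x hx
    have h1 : x ∈ (⊥ : IntermediateField M N) := by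
      rw [IsGalois.mem_bot_iff_fixed]
      intro τ
      obtain ⟨n, rfl⟩ := Subgroup.mem_zpowers_iff.1 (hσ τ)
      have h2 : σ ∈ MulAction.stabilizer (N ≃ₐ[M] N) x := hx
      exact (MulAction.stabilizer (N ≃ₐ[M] N) x).zpow_mem h2 n
    exact IntermediateField.mem_bot.1 h1
  have h1 : σ (α ^ q - α) = α ^ q - α := by
    rw [map_sub, map_pow, hσα, sub_pow_char, one_pow]
    ring
  obtain ⟨y, hy⟩ := hfix _ h1
  obtain ⟨w, hw⟩ := hs y
  have h2 : (α - algebraMap M N w) ^ q = α - algebraMap M N w := by
    rw [sub_pow_char, ← map_pow]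
    have : algebraMap M N (w ^ q) = algebraMap M N w + (α ^ q - α) := by
      rw [← hy, ← hw, map_sub]
      ring
    rw [this]
    ring
  obtain ⟨n, hn⟩ := mem_cast q _ h2
  have h3 : σ (α - algebraMap M N w) = α - algebraMap M N w := by
    rw [← hn, map_natCast]
  rw [map_sub, hσα, AlgEquiv.commutes] at h3
  have : (1 : N) = 0 := by linear_combination -h3
  exact one_ne_zero this

/-- Kummer. -/
theorem kummer (q : ℕ) [Fact q.Prime] (h : finrank M N = q) (ζ : M) (hζ : IsPrimitiveRoot ζ q)
    (hs : ∀ s : M, ∃ w : M, w ^ q = s) : False := by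
  have hq : q.Prime := Fact.out
  have hcard : Nat.card (N ≃ₐ[M] N) = q := card_gal.trans h
  have hcyc : IsCyclic (N ≃ₐ[M] N) := isCyclic_of_prime_card hcard
  obtain ⟨α, ⟨a, ha⟩, hα⟩ := exists_root_adjoin_eq_top_of_isCyclic M N
    (by rw [h]; exact ⟨ζ, (mem_primitiveRoots hq.pos).2 hζ⟩)
  obtain ⟨w, hw⟩ := hs a
  have hmem : ∃ y : M, algebraMap M N y = α := by
    by_cases hw0 : w = 0
    · refine ⟨0, ?_⟩
      rw [map_zero]
      have : α ^ finrank M N = 0 := by
        rw [← ha, ← hw, hw0, zero_pow hq.ne_zero, map_zero]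
      exact (eq_zero_of_pow_eq_zero this).symm
    · have hw1 : algebraMap M N w ≠ 0 := fun h0 => hw0 ((map_eq_zero _).1 h0)
      have h1 : (α / algebraMap M N w) ^ q = 1 := by
        rw [div_pow, ← map_pow, hw, ha, h]
        refine div_self ?_
        rw [← h, ← ha, ← hw, map_pow]
        exact pow_ne_zero _ hw1
      have h2 : IsPrimitiveRoot (algebraMap M N ζ) q := hζ.map_of_injective (algebraMap M N).injective
      obtain ⟨i, -, hi⟩ := h2.eq_pow_of_pow_eq_one h1
      refine ⟨ζ ^ i * w, ?_⟩
      rw [map_mul, map_pow, hi, div_mul_cancel₀ _ hw1]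
  obtain ⟨y, hy⟩ := hmem
  have h3 : (IntermediateField.adjoin M {α}) = ⊥ := by
    rw [IntermediateField.adjoin_simple_eq_bot_iff, IntermediateField.mem_bot]
    exact ⟨y, hy⟩
  have h4 : (⊥ : IntermediateField M N) = ⊤ := h3.symm.trans hα
  have h5 : finrank M N = 1 := by
    rw [← IntermediateField.finrank_top', ← h4, IntermediateField.finrank_bot]
  rw [h] at h5
  exact hq.one_lt.ne' h5

end

/-- There are no cyclic extensions of degree `q` of finite extensions of `K`. -/
def NoC (K : Type) [Field K] (q : ℕ) : Prop :=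
  ∀ (M N : Type) [Field M] [Field N] [Algebra K M] [FiniteDimensional K M] [Algebra M N]
    [FiniteDimensional M N] [IsGalois M N], finrank M N ≠ q

theorem triv_of {K : Type} [Field K] {M N : Type} [Field M] [Field N] [Algebra K M]
    [FiniteDimensional K M] [Algebra M N] [FiniteDimensional M N] [IsGalois M N]
    (h : ∀ r : ℕ, r.Prime → r ∣ finrank M N → NoC K r) : finrank M N = 1 := by
  by_contra hne
  obtain ⟨r, hr, hd⟩ := Nat.exists_prime_and_dvd hne
  haveI : Fact r.Prime := ⟨hr⟩
  have hd' : r ∣ Nat.card (N ≃ₐ[M] N) := by rw [card_gal]; exact hd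
  obtain ⟨σ, hσ⟩ := exists_prime_orderOf_dvd_card' r hd'
  let E : IntermediateField M N := IntermediateField.fixedField (Subgroup.zpowers σ)
  letI : Algebra K E := ((algebraMap M E).comp (algebraMap K M)).toAlgebra
  haveI : IsScalarTower K M E := IsScalarTower.of_algebraMap_eq fun _ => rfl
  haveI : FiniteDimensional K E := FiniteDimensional.trans K M E
  refine h r hr hd E N ?_
  rw [IntermediateField.finrank_fixedField_eq_card, Nat.card_zpowers, hσ]

theorem noC {K : Type} [Field K]
    (h1 : ∀ (L : Type) [Field L] [Algebra K L] [FiniteDimensional K L] (n : ℕ), 0 < n →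
      ∀ s : L, ∃ w : L, w ^ n = s)
    (h2 : ∀ (L : Type) [Field L] [Algebra K L] [FiniteDimensional K L] (p : ℕ) [Fact p.Prime]
      [CharP L p] (s : L), ∃ w : L, w ^ p - w = s) (q : ℕ) (hq : q.Prime) : NoC K q := by
  induction q using Nat.strong_induction_on with
  | _ q ih =>
    intro M N _ _ _ _ _ _ _ h
    haveI : Fact q.Prime := ⟨hq⟩
    by_cases hc : (q : M) = 0
    · haveI : CharP M q := (CharP.charP_iff_prime_eq_zero hq).2 hc
      haveI : CharP N q := charP_of_injective_algebraMap (algebraMap M N).injective q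
      exact artin_schreier (M := M) (N := N) q h (h2 M q)
    · haveI : NeZero (q : M) := ⟨hc⟩
      haveI : NeZero q := ⟨hq.ne_zero⟩
      haveI : IsGalois M (CyclotomicField q M) := IsCyclotomicExtension.isGalois {q} M _
      haveI : FiniteDimensional M (CyclotomicField q M) :=
        IsCyclotomicExtension.finiteDimensional {q} M _
      have hle : finrank M (CyclotomicField q M) < q := by
        have hζ := IsCyclotomicExtension.zeta_spec q M (CyclotomicField q M)
        have h3 := (hζ.powerBasis M).finrank
        rw [h3]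
        have h4 : (hζ.powerBasis M).dim = (minpoly M (IsCyclotomicExtension.zeta q M
            (CyclotomicField q M))).natDegree := by
          rw [← PowerBasis.natDegree_minpoly, IsPrimitiveRoot.powerBasis_gen]
        rw [h4]
        have h5 : minpoly M (IsCyclotomicExtension.zeta q M (CyclotomicField q M)) ∣
            cyclotomic q M := by
          refine minpoly.dvd _ _ ?_
          rw [aeval_def, eval₂_eq_eval_map, map_cyclotomic, ← IsRoot.def]
          haveI : NeZero ((q : ℕ) : CyclotomicField q M) :=
            NeZero.nat_of_injective (algebraMap M (CyclotomicField q M)).injective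
          exact isRoot_cyclotomic_iff.2 hζ
        refine lt_of_le_of_lt (natDegree_le_of_dvd h5 (cyclotomic_ne_zero q M)) ?_
        rw [natDegree_cyclotomic, Nat.totient_prime hq]
        exact Nat.sub_lt hq.pos one_pos
      have hone : finrank M (CyclotomicField q M) = 1 := by
        refine triv_of (K := K) fun r hr hd => ih r ?_ hr
        exact lt_of_le_of_lt (Nat.le_of_dvd finrank_pos hd) hle
      obtain ⟨ζ, hζ⟩ : ∃ ζ : M, algebraMap M (CyclotomicField q M) ζ =
          IsCyclotomicExtension.zeta q M (CyclotomicField q M) := by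
        have h3 : (⊥ : Subalgebra M (CyclotomicField q M)) = ⊤ :=
          Subalgebra.bot_eq_top_of_finrank_eq_one hone
        have h4 : IsCyclotomicExtension.zeta q M (CyclotomicField q M) ∈
          (⊥ : Subalgebra M (CyclotomicField q M)) := by rw [h3]; trivial
        exact Algebra.mem_bot.1 h4
      have hζ' : IsPrimitiveRoot ζ q := by
        refine IsPrimitiveRoot.of_map_of_injective (f := algebraMap M (CyclotomicField q M)) ?_
          (algebraMap M (CyclotomicField q M)).injective
        rw [hζ]
        exact IsCyclotomicExtension.zeta_spec q M (CyclotomicField q M)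
      exact kummer (M := M) (N := N) q h ζ hζ' (h1 M q hq.pos)

theorem isAlgClosed_of_pow {K : Type} [Field K]
    (h1 : ∀ (L : Type) [Field L] [Algebra K L] [FiniteDimensional K L] (n : ℕ), 0 < n →
      ∀ s : L, ∃ w : L, w ^ n = s)
    (h2 : ∀ (L : Type) [Field L] [Algebra K L] [FiniteDimensional K L] (p : ℕ) [Fact p.Prime]
      [CharP L p] (s : L), ∃ w : L, w ^ p - w = s) : IsAlgClosed K := by
  haveI : PerfectField K := by
    obtain ⟨p, hp⟩ := ExpChar.exists K
    rcases hp with _ | ⟨hp⟩
    · infer_instance
    · haveI : Fact p.Prime := ⟨hp⟩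
      haveI : PerfectRing K p := PerfectRing.ofSurjective K p fun s => by
        obtain ⟨w, hw⟩ := h1 K p hp.pos s
        exact ⟨w, hw⟩
      exact PerfectRing.toPerfectField K p
  refine IsAlgClosed.of_exists_root K fun f hf hi => ?_
  haveI : IsGalois K f.SplittingField := IsGalois.of_separable_splitting_field
    (p := f) (PerfectField.separable_of_irreducible hi)
  have hone : finrank K f.SplittingField = 1 := triv_of (K := K) fun r hr _ => noC h1 h2 r hr
  have hs := SplittingField.splits f
  obtain ⟨x, hx⟩ := hs.exists_eval_eq_zero (by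
    rw [degree_map]
    exact (degree_pos_of_irreducible hi).ne')
  obtain ⟨y, hy⟩ : ∃ y : K, algebraMap K f.SplittingField y = x := by
    have h3 : (⊥ : Subalgebra K f.SplittingField) = ⊤ :=
      Subalgebra.bot_eq_top_of_finrank_eq_one hone
    have h4 : x ∈ (⊥ : Subalgebra K f.SplittingField) := by rw [h3]; trivial
    exact Algebra.mem_bot.1 h4
  refine ⟨y, ?_⟩
  rw [← hy, eval_map_algebraMap, aeval_algebraMap_apply] at hx
  exact (map_eq_zero _).1 hx

end Pool.Agent.Hp8CR
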