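import Mathlib

set_option autoImplicit false

/-!
Generic types of a field: if finitely many types of generic elements are permuted by the
translations and multiplications with the elements of an infinite subfield `k`, then the elements of
`k` are powers and, in characteristic `p`, of the form `w ^ p - w`.
-/

namespace Pool.Agent.Hp8CR

section
variable {L X : Type} [Field L] (G : Set L) (c : L → X) (k : Subfield L)

/-- the generic elements `G` and their types `c` are compatible with `k` -/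
structure GenK : Prop where
  ne : G.Nonempty
  fin : (c '' G).Finite
  inf : Infinite k
  add : ∀ s ∈ k, ∀ x ∈ G, x + s ∈ G
  mul : ∀ s ∈ k, s ≠ 0 → ∀ x ∈ G, s * x ∈ G
  cadd : ∀ s ∈ k, ∀ x y, c x = c y → c (x + s) = c (y + s)
  cmul : ∀ s ∈ k, s ≠ 0 → ∀ x y, c x = c y → c (s * x) = c (s * y)

variable {G c k}

theorem GenK.key (h : GenK G c k) : ∀ s ∈ k, ∀ x ∈ G, c (x + s) = c x := by
  classical
  have hfin : Finite (c '' G) := h.fin
  have hinf := h.inf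
  choose r hr1 hr2 using fun t : c '' G => t.2
  let φ : k → (c '' G) → (c '' G) := fun s t =>
    ⟨c (r t + s), r t + s, h.add s s.2 _ (hr1 t), rfl⟩
  obtain ⟨s, s', hne, hs⟩ := Finite.exists_ne_map_eq_of_infinite φ
  have h1 : ∀ x ∈ G, c (x + s) = c (x + s') := by
    intro x hx
    have h2 := congrFun hs ⟨c x, x, hx, rfl⟩
    have h3 : c (r ⟨c x, x, hx, rfl⟩ + s) = c (r ⟨c x, x, hx, rfl⟩ + s') := congrArg Subtype.val h2
    have h4 : c (r ⟨c x, x, hx, rfl⟩) = c x := hr2 _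
    rw [h.cadd s s.2 _ _ h4, h.cadd s' s'.2 _ _ h4] at h3
    exact h3
  let s0 : L := (s : L) - s'
  have hs0 : s0 ∈ k := k.sub_mem s.2 s'.2
  have hs0' : s0 ≠ 0 := fun h0 => hne (Subtype.ext (sub_eq_zero.1 h0))
  have h2 : ∀ x ∈ G, c (x + s0) = c x := by
    intro x hx
    have h3 := h1 (x + -(s' : L)) (h.add _ (k.neg_mem s'.2) x hx)
    rw [neg_add_cancel_right] at h3
    rw [← h3]
    congr 1
    show x + ((s : L) - s') = _
    ring
  intro t ht x hx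
  rcases eq_or_ne t 0 with rfl | ht0
  · rw [add_zero]
  have ha : t / s0 ∈ k := k.div_mem ht hs0
  have ha0 : t / s0 ≠ 0 := div_ne_zero ht0 hs0'
  have h3 := h2 ((t / s0)⁻¹ * x) (h.mul _ (k.inv_mem ha) (inv_ne_zero ha0) x hx)
  have h4 := h.cmul _ ha ha0 _ _ h3
  rw [mul_add, mul_inv_cancel_left₀ ha0, div_mul_cancel₀ _ hs0'] at h4
  exact h4

theorem GenK.pow (h : GenK G c k) (h0 : ∀ x y, c x = c y → x = 0 → y = 0) {n : ℕ} (hn : 0 < n)
    (hH : ∀ x y, c x = c y → (∃ w, w ≠ 0 ∧ w ^ n = x) → ∃ w, w ≠ 0 ∧ w ^ n = y)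
    (hp : ∀ x ∈ G, x ^ n ∈ G) (hi : ∀ x ∈ G, x⁻¹ ∈ G) : ∀ s ∈ k, ∃ w, w ^ n = s := by
  have key := h.key
  intro s hs
  rcases eq_or_ne s 0 with rfl | hs0
  · exact ⟨0, zero_pow hn.ne'⟩
  obtain ⟨x, hx⟩ := h.ne
  have hne : ∀ x ∈ G, x ≠ 0 := by
    rintro y hy rfl
    have h1 := key 1 k.one_mem 0 hy
    rw [zero_add] at h1
    exact one_ne_zero (h0 _ _ h1.symm rfl)
  have hx0 := hne x hx
  have hy := hp x hx
  obtain ⟨w1, hw1, hw1'⟩ := hH _ _ (key s⁻¹ (k.inv_mem hs) _ hy).symm ⟨x, hx0, rfl⟩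
  obtain ⟨w2, hw2, hw2'⟩ := hH _ _ (key s hs _ (hi _ hy)).symm
    ⟨x⁻¹, inv_ne_zero hx0, by rw [inv_pow]⟩
  refine ⟨x * w2 / w1, ?_⟩
  have hxn : x ^ n ≠ 0 := pow_ne_zero _ hx0
  rw [div_pow, mul_pow, hw1', hw2', div_eq_iff (by rw [← hw1']; exact pow_ne_zero _ hw1)]
  field_simp
  ring

theorem GenK.as (h : GenK G c k) (p : ℕ) [Fact p.Prime] [CharP L p]
    (hH : ∀ x y, c x = c y → (∃ w, w ^ p - w = x) → ∃ w, w ^ p - w = y)
    (hp : ∀ x ∈ G, x ^ p - x ∈ G) : ∀ s ∈ k, ∃ w, w ^ p - w = s := by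
  have key := h.key
  intro s hs
  obtain ⟨x, hx⟩ := h.ne
  have hy := hp x hx
  obtain ⟨w, hw⟩ := hH _ _ (key s hs _ hy).symm ⟨x, rfl⟩
  refine ⟨w - x, ?_⟩
  rw [sub_pow_char]
  linear_combination hw

end

end Pool.Agent.Hp8CR
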