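import Pool.Agent.Hp8CR.UltR

set_option autoImplicit false
set_option linter.style.haveILetI false

/-!
Commutative rings whose theory does not have perfectly many models: strong pi-regularity with
bounded exponents, and boundedness of the part with large residue fields.
-/

namespace Pool.Agent.Hp8CR

open FirstOrder FirstOrder.Language Pool.Agent.N641.VB Pool.Agent.Hp8VC Set H968

section
variable {N : Type} [R : CommRing N]

theorem dfn_formula {κ : Type} {P : (κ → N) → Prop} (h : Dfn (Empty.elim : Empty → N) P) :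
    ∃ φ : LR.Formula κ, ∀ v, Rz φ v ↔ P v := by
  obtain ⟨φ, hφ⟩ := h
  refine ⟨Formula.relabel (Sum.elim Empty.elim id) φ, fun v => ?_⟩
  letI := strR R
  rw [Rz, Formula.realize_relabel]
  refine Iff.trans (iff_of_eq (congrArg _ ?_)) (hφ PUnit.unit v)
  funext x
  rcases x with x | x
  · exact x.elim
  · rfl

theorem perf_pat [Infinite N] {T : LR.Theory} (hN : @Theory.Model LR N (strR R) T) {ι J : Type}
    [Finite ι] (Q : J → (ι → N) → Prop) (hQ : ∀ j, Dfn (Empty.elim : Empty → N) (Q j))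
    (P : Set (J → Prop)) (hP : ¬ P.Countable)
    (hfin : ∀ p ∈ P, ∀ s : Finset J, ∃ v : ι → N, ∀ j ∈ s, (Q j v ↔ p j)) : Perfect LR T := by
  choose φ hφ using fun j => dfn_formula (hQ j)
  letI := strR R
  haveI : Countable LR.Symbols := ctbl_LR'
  haveI := infinite_ult N
  refine perf_of_patterns (L := LR) N hN φ P hP fun p hp s => ?_
  obtain ⟨v, hv⟩ := hfin p hp s
  exact ⟨v, fun j hj => (hφ j v).trans (hv j hj)⟩

/-- the condition on all elements -/
def PiReg (N : Type) [CommRing N] (n : ℕ) : Prop := ∀ a : N, a ^ (n + 1) ∣ a ^ n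

theorem perf_of_not_pi [Infinite N] {T : LR.Theory} (hN : @Theory.Model LR N (strR R) T)
    (h : ∀ n, ¬ PiReg N n) : Perfect LR T := by
  classical
  let Q : ℕ × ℕ → (Fin 2 → N) → Prop := fun j v => ∃ w : Unit → N,
    v 1 ^ (j.2 + 1) = v 0 ^ (j.1 + 1) * w ()
  have hQ : ∀ j, Dfn (Empty.elim : Empty → N) (Q j) := by
    intro j
    exact Dfn.ex (κ := Fin 2) (κ' := Unit) (Dn.eq ((DnF.var (Sum.inl 1)).pow (j.2 + 1))
      (((DnF.var (Sum.inl 0)).pow (j.1 + 1)).mul (DnF.var (Sum.inr ()))))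
  let pr : ℝ → (ℕ × ℕ → Prop) := fun r j => ((j.1 + 1 : ℕ) : ℝ) / ((j.2 + 1 : ℕ) : ℝ) ≤ r
  refine perf_pat hN Q hQ (pr '' Set.Ioi 0) ?_ ?_
  · intro hc
    have hinj : Set.InjOn pr (Set.Ioi 0) := by
      intro r hr r' hr' he
      by_contra hne
      wlog hlt : r < r' generalizing r r' with H
      · exact H hr' hr he.symm (Ne.symm hne) (lt_of_le_of_ne (not_lt.1 hlt) (Ne.symm hne))
      obtain ⟨q, hq1, hq2⟩ := exists_rat_btwn hlt
      have hq0 : 0 < q := by
        have : (0 : ℝ) < q := lt_trans hr hq1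
        exact_mod_cast this
      have hnum : 0 < q.num := Rat.num_pos.2 hq0
      obtain ⟨m, hm⟩ : ∃ m : ℕ, q.num = (m + 1 : ℕ) :=
        ⟨q.num.toNat - 1, by omega⟩
      obtain ⟨k, hk⟩ : ∃ k : ℕ, q.den = k + 1 := ⟨q.den - 1, by have := q.den_pos; omega⟩
      have h1 : ((m + 1 : ℕ) : ℝ) / ((k + 1 : ℕ) : ℝ) = q := by
        have h2 : (q : ℝ) = (q.num : ℝ) / (q.den : ℝ) := Rat.cast_def q
        rw [h2, hm, hk]
        push_cast
        rfl
      have h3 := congrFun he (m, k)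
      simp only [pr, h1, eq_iff_iff] at h3
      have h4 := h3.2 hq2.le
      exact absurd hq1 (not_lt.2 h4)
    have h1 : (Set.Ioi (0 : ℝ)).Countable := (Set.countable_of_injective_of_countable_image hinj hc)
    exact absurd h1 (by
      intro h2
      have h3 := Cardinal.mk_Ioi_real 0
      have h4 := Cardinal.le_aleph0_iff_set_countable.2 h2
      rw [h3] at h4
      exact absurd h4 (not_le.2 Cardinal.aleph0_lt_continuum))
  · rintro _ ⟨r, hr, rfl⟩ s
    have hr0 : (0 : ℝ) < r := hr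
    obtain ⟨q, hq1, hq2⟩ : ∃ q : ℚ, r < q ∧ ∀ j ∈ s, r < ((j.1 + 1 : ℕ) : ℝ) / ((j.2 + 1 : ℕ) : ℝ) →
        (q : ℝ) < ((j.1 + 1 : ℕ) : ℝ) / ((j.2 + 1 : ℕ) : ℝ) := by
      let s' := s.filter fun j => r < ((j.1 + 1 : ℕ) : ℝ) / ((j.2 + 1 : ℕ) : ℝ)
      rcases s'.eq_empty_or_nonempty with h0 | h0
      · obtain ⟨q, hq, -⟩ := exists_rat_btwn (lt_add_one r)
        refine ⟨q, hq, fun j hj hj' => ?_⟩
        have : j ∈ s' := Finset.mem_filter.2 ⟨hj, hj'⟩
        rw [h0] at this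
        exact absurd this (Finset.notMem_empty _)
      · obtain ⟨j0, hj0, hmin⟩ := s'.exists_min_image
          (fun j => ((j.1 + 1 : ℕ) : ℝ) / ((j.2 + 1 : ℕ) : ℝ)) h0
        obtain ⟨q, hq1, hq2⟩ := exists_rat_btwn (Finset.mem_filter.1 hj0).2
        exact ⟨q, hq1, fun j hj hj' => lt_of_lt_of_le hq2 (hmin j (Finset.mem_filter.2 ⟨hj, hj'⟩))⟩
    have hq0 : 0 < q := by
      have : (0 : ℝ) < q := lt_trans hr0 hq1
      exact_mod_cast this
    have hnum : 0 < q.num := Rat.num_pos.2 hq0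
    obtain ⟨u, hu⟩ : ∃ u : ℕ, q.num = u := ⟨q.num.toNat, by omega⟩
    let w : ℕ := q.den
    have hw : 0 < w := q.den_pos
    have hquw : (q : ℝ) = (u : ℝ) / (w : ℝ) := by
      have h2 : (q : ℝ) = (q.num : ℝ) / (q.den : ℝ) := Rat.cast_def q
      rw [h2, hu]
      push_cast
      rfl
    have hcmp : ∀ j ∈ s, (w * (j.1 + 1) ≤ u * (j.2 + 1) ↔
        ((j.1 + 1 : ℕ) : ℝ) / ((j.2 + 1 : ℕ) : ℝ) ≤ r) := by
      intro j hj
      have h1 : w * (j.1 + 1) ≤ u * (j.2 + 1) ↔
          ((j.1 + 1 : ℕ) : ℝ) / ((j.2 + 1 : ℕ) : ℝ) ≤ q := by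
        rw [hquw, div_le_div_iff₀ (by positivity) (by positivity)]
        norm_cast
        rw [mul_comm w]
      rw [h1]
      constructor
      · intro h2
        by_contra h3
        exact absurd (hq2 j hj (not_le.1 h3)) (not_lt.2 h2)
      · intro h2
        exact h2.trans hq1.le
    obtain ⟨B, hB⟩ : ∃ B : ℕ, ∀ j ∈ s, u * (j.2 + 1) ≤ B := by
      refine ⟨∑ j ∈ s, u * (j.2 + 1), fun j hj => ?_⟩
      exact Finset.single_le_sum (f := fun j : ℕ × ℕ => u * (j.2 + 1)) (fun _ _ => Nat.zero_le _) hj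
    have hB' := h B
    unfold PiReg at hB'
    push Not at hB'
    obtain ⟨a, ha⟩ := hB'
    refine ⟨![a ^ w, a ^ u], fun j hj => ?_⟩
    rw [show pr r j ↔ w * (j.1 + 1) ≤ u * (j.2 + 1) from (hcmp j hj).symm]
    show (∃ c : Unit → N, (a ^ u) ^ (j.2 + 1) = (a ^ w) ^ (j.1 + 1) * c ()) ↔ _
    rw [← pow_mul, ← pow_mul]
    constructor
    · rintro ⟨c, hc⟩
      by_contra hlt
      push Not at hlt
      refine ha ?_
      have h1 : a ^ (u * (j.2 + 1) + 1) ∣ a ^ (u * (j.2 + 1)) :=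
        (pow_dvd_pow a hlt).trans ⟨c (), hc⟩
      obtain ⟨t, ht⟩ := Nat.exists_eq_add_of_le (hB j hj)
      rw [ht, show u * (j.2 + 1) + t + 1 = (u * (j.2 + 1) + 1) + t by ring, pow_add a _ t,
        pow_add a _ t]
      exact mul_dvd_mul_right h1 _
    · intro hle
      obtain ⟨c, hc⟩ := pow_dvd_pow a hle
      exact ⟨fun _ => c, hc⟩

/-- `m` orthogonal idempotents on which the first `m` powers of some element differ -/
def Big (N : Type) [CommRing N] (m : ℕ) : Prop :=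
  ∃ (e : ℕ → N) (a : N), (∀ k < m, e k * e k = e k) ∧ (∀ k < m, e k ≠ 0) ∧
    (∀ k < m, ∀ l < m, k ≠ l → e k * e l = 0) ∧
    ∀ k < m, ∀ i < m, ∀ j < m, i ≠ j → (a ^ (i + 1) - a ^ (j + 1)) ∣ e k

theorem perf_of_big [Infinite N] {T : LR.Theory} (hN : @Theory.Model LR N (strR R) T)
    (h : ∀ m, Big N m) : Perfect LR T := by
  classical
  let Q : ℕ → (Fin 3 → N) → Prop := fun i v => ∃ w : Unit → N,
    w () * w () = w () ∧ w () * v 0 = w () ∧ ¬ w () = 0 ∧ w () * (v 2 - v 1 ^ (i + 1)) = 0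
  have hQ : ∀ j, Dfn (Empty.elim : Empty → N) (Q j) := by
    intro i
    have h1 : DnF (K := PUnit.{2}) (U := fun _ => N) (fun _ => (Empty.elim : Empty → N))
      (κ := Fin 3 ⊕ Unit) (fun _ v => v (Sum.inr ())) := DnF.var _
    have h2 : ∀ j : Fin 3, DnF (K := PUnit.{2}) (U := fun _ => N)
      (fun _ => (Empty.elim : Empty → N))
      (κ := Fin 3 ⊕ Unit) (fun _ v => v (Sum.inl j)) := fun j => DnF.var _
    have q1 : Dfn (Empty.elim : Empty → N) (fun v : Fin 3 ⊕ Unit → N =>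
      v (Sum.inr ()) * v (Sum.inr ()) = v (Sum.inr ())) := Dn.eq (h1.mul h1) h1
    have q2 : Dfn (Empty.elim : Empty → N) (fun v : Fin 3 ⊕ Unit → N =>
      v (Sum.inr ()) * v (Sum.inl 0) = v (Sum.inr ())) := Dn.eq (h1.mul (h2 0)) h1
    have q3 : Dfn (Empty.elim : Empty → N) (fun v : Fin 3 ⊕ Unit → N =>
      v (Sum.inr ()) = 0) := Dn.eq h1 DnF.zero
    have q4 : Dfn (Empty.elim : Empty → N) (fun v : Fin 3 ⊕ Unit → N =>
      v (Sum.inr ()) * (v (Sum.inl 2) - v (Sum.inl 1) ^ (i + 1)) = 0) :=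
      Dn.eq (h1.mul ((h2 2).sub ((h2 1).pow (i + 1)))) DnF.zero
    exact Dfn.ex (q1.and (q2.and (q3.not.and q4)))
  refine perf_pat hN Q hQ Set.univ ?_ ?_
  · intro hc
    have h1 : Countable (ℕ → Prop) := Set.countable_univ_iff.1 hc
    have h2 : Countable (Set ℕ) := h1
    obtain ⟨f, hf⟩ := exists_injective_nat (Set ℕ)
    exact Function.cantor_injective f hf
  · intro p _ s
    obtain ⟨m, hm⟩ : ∃ m : ℕ, ∀ i ∈ s, i < m := by
      refine ⟨∑ i ∈ s, (i + 1), fun j hj => ?_⟩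
      have := Finset.single_le_sum (f := fun i : ℕ => i + 1) (fun _ _ => Nat.zero_le _) hj
      exact this
    obtain ⟨e, a, he1, he2, he3, he4⟩ := h m
    let S := (Finset.range m).filter p
    have hS : ∀ i ∈ S, i < m := fun i hi => Finset.mem_range.1 (Finset.mem_filter.1 hi).1
    let E : N := ∑ i ∈ S, e i
    let b : N := ∑ i ∈ S, e i * a ^ (i + 1)
    have hE : ∀ i ∈ S, e i * E = e i := by
      intro i hi
      rw [Finset.mul_sum, Finset.sum_eq_single i]
      · exact he1 i (hS i hi)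
      · intro j hj hji
        exact he3 i (hS i hi) j (hS j hj) hji.symm
      · exact fun hh => absurd hi hh
    have hb : ∀ i ∈ S, e i * b = e i * a ^ (i + 1) := by
      intro i hi
      rw [Finset.mul_sum, Finset.sum_eq_single i]
      · rw [← mul_assoc, he1 i (hS i hi)]
      · intro j hj hji
        rw [← mul_assoc, he3 i (hS i hi) j (hS j hj) hji.symm, zero_mul]
      · exact fun hh => absurd hi hh
    refine ⟨![E, a, b], fun i hi => ?_⟩
    show (∃ w : Unit → N, w () * w () = w () ∧ w () * E = w () ∧ ¬ w () = 0 ∧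
      w () * (b - a ^ (i + 1)) = 0) ↔ p i
    constructor
    · rintro ⟨w, hw1, hw2, hw3, hw4⟩
      by_contra hp
      apply hw3
      rw [← hw2, Finset.mul_sum]
      refine Finset.sum_eq_zero fun j hj => ?_
      have hji : j ≠ i := fun h => hp (h ▸ (Finset.mem_filter.1 hj).2)
      obtain ⟨c, hc⟩ := he4 j (hS j hj) j (hS j hj) i (hm i hi) hji
      have h1 : w () * e j * (a ^ (j + 1) - a ^ (i + 1)) = 0 := by
        have h2 : e j * (w () * (b - a ^ (i + 1))) = 0 := by rw [hw4, mul_zero]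
        have h3 : w () * (e j * b) - w () * (e j * a ^ (i + 1)) = 0 := by
          rw [← h2]
          ring
        rw [hb j hj] at h3
        rw [← h3]
        ring
      have h4 : w () * e j = w () * e j * e j := by rw [mul_assoc, he1 j (hS j hj)]
      rw [h4]
      conv_lhs => rw [hc]
      have h5 : w () * ((a ^ (j + 1) - a ^ (i + 1)) * c) * ((a ^ (j + 1) - a ^ (i + 1)) * c) =
          w () * e j * (a ^ (j + 1) - a ^ (i + 1)) * c := by
        rw [hc]
        ring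
      rw [h5, h1, zero_mul]
    · intro hp
      have hiS : i ∈ S := Finset.mem_filter.2 ⟨Finset.mem_range.2 (hm i hi), hp⟩
      refine ⟨fun _ => e i, he1 i (hS i hiS), hE i hiS, he2 i (hS i hiS), ?_⟩
      rw [mul_sub, hb i hiS, sub_self]

end

end Pool.Agent.Hp8CR
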