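import Pool.Agent.Hp8CR.Trn

set_option autoImplicit false
set_option linter.style.haveILetI false

/-!
Elementary equivalence and isomorphism of products of rings.
-/

namespace Pool.Agent.Hp8CR

open FirstOrder FirstOrder.Language Pool.Agent.N641.VB Pool.Agent.Hp8VC Set H968 Filter

/-- isomorphic rings are isomorphic structures -/
def lrEquiv {A B : Type} [RA : CommRing A] [RB : CommRing B] (e : A ≃+* B) :
    @FirstOrder.Language.Equiv LR A B (strR RA) (strR RB) :=
  @FirstOrder.Language.Equiv.mk LR A B (strR RA) (strR RB) e.toEquiv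
    (fun {n} F v => by
      cases F with
      | add => exact e.map_add (v 0) (v 1)
      | mul => exact e.map_mul (v 0) (v 1))
    (fun {n} Q v => Empty.elim Q)

/-- isomorphic structures are isomorphic rings -/
def ringEquiv_of_lr {A B : Type} [RA : CommRing A] [RB : CommRing B]
    (e : @FirstOrder.Language.Equiv LR A B (strR RA) (strR RB)) : A ≃+* B where
  toEquiv := @FirstOrder.Language.Equiv.toEquiv LR A B (strR RA) (strR RB) e
  map_add' := fun x y => by
    letI := strR RA
    letI := strR RB
    have := e.map_fun' (SymR.add : LR.Functions 2) ![x, y]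
    exact this
  map_mul' := fun x y => by
    letI := strR RA
    letI := strR RB
    have := e.map_fun' (SymR.mul : LR.Functions 2) ![x, y]
    exact this

theorem Eqv.of_equiv {A B : Type} [CommRing A] [CommRing B] (e : A ≃+* B) : Eqv A B := by
  intro χ
  letI : LR.Structure A := strR inferInstance
  letI : LR.Structure B := strR inferInstance
  exact StrongHomClass.realize_sentence (lrEquiv e : A ≃[LR] B) χ

theorem Eqv.symm {A B : Type} [CommRing A] [CommRing B] (h : Eqv A B) : Eqv B A :=
  fun χ => (h χ).symm

theorem Eqv.trans {A B C : Type} [CommRing A] [CommRing B] [CommRing C] (h : Eqv A B)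
    (h' : Eqv B C) : Eqv A C := fun χ => (h χ).trans (h' χ)

theorem eqv_ult (A : Type) [CommRing A] : Eqv A (Ult A) := by
  intro χ
  letI : LR.Structure A := strR inferInstance
  have h1 := sameT_diag (L := LR) A (ι := Empty) Empty.elim χ
  rw [str_ult]
  have e1 : (Empty.elim : Empty → A) = default := Subsingleton.elim _ _
  have e2 : (fun i : Empty => (cls fun _ => (Empty.elim : Empty → A) i : Ult A)) = default :=
    Subsingleton.elim _ _
  rw [e1] at h1
  refine h1.trans (iff_of_eq (congrArg _ ?_))
  exact Subsingleton.elim _ _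

section
variable {N M : Type} [CommRing N] [CommRing M] (ρ : N →+* M)

/-- the map on sequences -/
noncomputable def seqR : (ℕ → N) →+* Ult M :=
  (clsHom M).comp (RingHom.pi fun i => ρ.comp (Pi.evalRingHom (fun _ : ℕ => N) i))

theorem seqR_apply (r : ℕ → N) : seqR ρ r = clsHom M (fun i => ρ (r i)) := rfl

theorem clsR_eq_zero {N : Type} [CommRing N] (r : ℕ → N) :
    clsHom N r = 0 ↔ ∀ᶠ i in (hyp : Filter ℕ), r i = 0 := by
  rw [← map_zero (clsHom N)]
  exact cls_eq r 0

theorem clsR_surj (N : Type) [CommRing N] : Function.Surjective (clsHom N) := fun x => by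
  obtain ⟨r, hr⟩ := cls_surj_sat x
  exact ⟨r, hr⟩

/-- the map between the ultrapowers -/
noncomputable def ultR : Ult N →+* Ult M :=
  (clsHom N).liftOfSurjective (clsR_surj N) ⟨seqR ρ, by
    intro r hr
    rw [RingHom.mem_ker] at hr ⊢
    rw [clsR_eq_zero] at hr
    rw [seqR_apply, clsR_eq_zero]
    exact hr.mono fun i hi => by rw [hi, map_zero]⟩

theorem ultR_cls (r : ℕ → N) : ultR ρ (clsHom N r) = clsHom M (fun i => ρ (r i)) :=
  RingHom.liftOfRightInverse_comp_apply _ _ _ _ _

end

/-- the ultrapower of a product -/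
theorem ult_prod (A C : Type) [CommRing A] [CommRing C] :
    Nonempty (Ult (A × C) ≃+* Ult A × Ult C) := by
  let f : Ult (A × C) →+* Ult A × Ult C :=
    RingHom.prod (ultR (RingHom.fst A C)) (ultR (RingHom.snd A C))
  refine ⟨RingEquiv.ofBijective f ⟨?_, ?_⟩⟩
  · rw [injective_iff_map_eq_zero]
    intro x hx
    obtain ⟨r, rfl⟩ := clsR_surj _ x
    have h1 : ultR (RingHom.fst A C) (clsHom _ r) = 0 := congrArg Prod.fst hx
    have h2 : ultR (RingHom.snd A C) (clsHom _ r) = 0 := congrArg Prod.snd hx
    rw [ultR_cls, clsR_eq_zero] at h1 h2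
    rw [clsR_eq_zero]
    exact (h1.and h2).mono fun i hi => Prod.ext hi.1 hi.2
  · rintro ⟨x, y⟩
    obtain ⟨r, rfl⟩ := clsR_surj _ x
    obtain ⟨s, rfl⟩ := clsR_surj _ y
    refine ⟨clsHom _ fun i => (r i, s i), ?_⟩
    refine Prod.ext ?_ ?_
    · show ultR (RingHom.fst A C) _ = _
      rw [ultR_cls]
      rfl
    · show ultR (RingHom.snd A C) _ = _
      rw [ultR_cls]
      rfl

section
variable {A A' C : Type} [RA : CommRing A] [RA' : CommRing A'] [RC : CommRing C]

theorem term_fst {α : Type} (t : LR.Term α) (v : α → A × C) :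
    (@Term.realize LR (A × C) (strR inferInstance) α v t).1 =
      @Term.realize LR A (strR inferInstance) α (fun i => (v i).1) t := by
  induction t with
  | var i => rfl
  | func F ts ih =>
    cases F with
    | add =>
      show (_ : A × C).1 + (_ : A × C).1 = (_ : A) + (_ : A)
      exact congrArg₂ (· + ·) (ih 0) (ih 1)
    | mul =>
      show (_ : A × C).1 * (_ : A × C).1 = (_ : A) * (_ : A)
      exact congrArg₂ (· * ·) (ih 0) (ih 1)

theorem term_snd {α : Type} (t : LR.Term α) (v : α → A × C) :
    (@Term.realize LR (A × C) (strR inferInstance) α v t).2 =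
      @Term.realize LR C (strR inferInstance) α (fun i => (v i).2) t := by
  induction t with
  | var i => rfl
  | func F ts ih =>
    cases F with
    | add =>
      show (_ : A × C).2 + (_ : A × C).2 = (_ : C) + (_ : C)
      exact congrArg₂ (· + ·) (ih 0) (ih 1)
    | mul =>
      show (_ : A × C).2 * (_ : A × C).2 = (_ : C) * (_ : C)
      exact congrArg₂ (· * ·) (ih 0) (ih 1)

/-- same types in rings -/
def SR (A A' : Type) [CommRing A] [CommRing A'] {ι : Type} (a : ι → A) (a' : ι → A') : Prop :=
  @SameT LR A A' (strR inferInstance) (strR inferInstance) ι a a'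

theorem SR.symm {ι : Type} {a : ι → A} {a' : ι → A'} (h : SR A A' a a') : SR A' A a' a :=
  fun φ => (h φ).symm

/-- the extension property -/
def Ext (A A' : Type) [CommRing A] [CommRing A'] : Prop :=
  ∀ (ι : Type) [Countable ι] (a : ι → A) (a' : ι → A'), SR A A' a a' → ∀ b : A, ∃ b' : A',
    SR A A' (Sum.elim a fun _ : Unit => b) (Sum.elim a' fun _ : Unit => b')

theorem prod_aux (h1 : Ext A A') (h2 : Ext A' A) {α : Type} [Countable α] :
    ∀ {n : ℕ} (φ : LR.BoundedFormula α n) (v : α → A × C) (xs : Fin n → A × C)
      (v' : α → A' × C) (xs' : Fin n → A' × C),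
      SR A A' (Sum.elim (fun i => (v i).1) fun i => (xs i).1)
        (Sum.elim (fun i => (v' i).1) fun i => (xs' i).1) →
      (∀ i, (v i).2 = (v' i).2) → (∀ i, (xs i).2 = (xs' i).2) →
      (@BoundedFormula.Realize LR (A × C) (strR inferInstance) α n φ v xs ↔
        @BoundedFormula.Realize LR (A' × C) (strR inferInstance) α n φ v' xs') := by
  intro n φ
  induction φ with
  | falsum =>
    intro v xs v' xs' _ _ _
    exact Iff.rfl
  | @equal n t1 t2 =>
    intro v xs v' xs' h hv hx
    have e1 : ∀ (B : Type) [CommRing B] (v : α → B × C) (xs : Fin n → B × C) (t : LR.Term (α ⊕ Fin n)),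
        (@Term.realize LR (B × C) (strR inferInstance) _ (Sum.elim v xs) t).1 =
        @Term.realize LR B (strR inferInstance) _ (Sum.elim (fun i => (v i).1) fun i => (xs i).1) t :=
      by
      intro B _ v xs t
      rw [term_fst]
      congr 1
      funext i
      rcases i with i | i <;> rfl
    have e2 : ∀ (B : Type) [CommRing B] (v : α → B × C) (xs : Fin n → B × C) (t : LR.Term (α ⊕ Fin n)),
        (@Term.realize LR (B × C) (strR inferInstance) _ (Sum.elim v xs) t).2 =
        @Term.realize LR C (strR inferInstance) _ (Sum.elim (fun i => (v i).2) fun i => (xs i).2) t :=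
      by
      intro B _ v xs t
      rw [term_snd]
      congr 1
      funext i
      rcases i with i | i <;> rfl
    have e3 : (Sum.elim (fun i => (v i).2) fun i => (xs i).2) =
        (Sum.elim (fun i => (v' i).2) fun i => (xs' i).2) := by
      funext i
      rcases i with i | i
      · exact hv i
      · exact hx i
    show (@Term.realize LR (A × C) (strR inferInstance) _ (Sum.elim v xs) t1 =
      @Term.realize LR (A × C) (strR inferInstance) _ (Sum.elim v xs) t2) ↔
      (@Term.realize LR (A' × C) (strR inferInstance) _ (Sum.elim v' xs') t1 =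
      @Term.realize LR (A' × C) (strR inferInstance) _ (Sum.elim v' xs') t2)
    rw [Prod.ext_iff, Prod.ext_iff, e1, e1, e1, e1, e2, e2, e2, e2, e3]
    refine and_congr ?_ Iff.rfl
    have h3 := h (Term.equal t1 t2)
    letI : LR.Structure A := strR inferInstance
    letI : LR.Structure A' := strR inferInstance
    rw [Formula.realize_equal, Formula.realize_equal] at h3
    exact h3
  | rel Q => exact Empty.elim Q
  | imp f g ih1 ih2 =>
    intro v xs v' xs' h hv hx
    exact imp_congr (ih1 v xs v' xs' h hv hx) (ih2 v xs v' xs' h hv hx)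
  | @all n f ih =>
    intro v xs v' xs' h hv hx
    have key : ∀ (A A' : Type) [CommRing A] [CommRing A'] (_ : Ext A A') (v : α → A × C)
        (xs : Fin n → A × C) (v' : α → A' × C) (xs' : Fin n → A' × C),
        SR A A' (Sum.elim (fun i => (v i).1) fun i => (xs i).1)
          (Sum.elim (fun i => (v' i).1) fun i => (xs' i).1) →
        (∀ i, (v i).2 = (v' i).2) → (∀ i, (xs i).2 = (xs' i).2) → ∀ x : A × C, ∃ x' : A' × C,
        SR A A' (Sum.elim (fun i => (v i).1) fun i => ((Fin.snoc xs x : Fin (n + 1) → A × C) i).1)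
          (Sum.elim (fun i => (v' i).1) fun i => ((Fin.snoc xs' x' : Fin (n + 1) → A' × C) i).1) ∧
        (∀ i, ((Fin.snoc xs x : Fin (n + 1) → A × C) i).2 =
          ((Fin.snoc xs' x' : Fin (n + 1) → A' × C) i).2) := by
      intro A A' _ _ hE v xs v' xs' h hv hx x
      obtain ⟨b', hb'⟩ := hE (α ⊕ Fin n) _ _ h x.1
      refine ⟨(b', x.2), ?_, ?_⟩
      · let g : α ⊕ Fin (n + 1) → (α ⊕ Fin n) ⊕ Unit := Sum.elim (fun i => Sum.inl (Sum.inl i))
          (Fin.snoc (fun i => Sum.inl (Sum.inr i)) (Sum.inr ()))
        have e : ∀ (B : Type) [CommRing B] (v : α → B × C) (xs : Fin n → B × C) (x : B × C),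
            (Sum.elim (fun i => (v i).1) fun i => ((Fin.snoc xs x : Fin (n + 1) → B × C) i).1) =
            (Sum.elim (Sum.elim (fun i => (v i).1) fun i => (xs i).1) fun _ : Unit => x.1) ∘ g := by
          intro B _ v xs x
          funext i
          rcases i with i | i
          · rfl
          · refine Fin.lastCases ?_ (fun i => ?_) i
            · simp [g]
            · simp [g]
        rw [e, e]
        letI : LR.Structure A := strR inferInstance
        letI : LR.Structure A' := strR inferInstance
        exact fun φ => SameT.comp (L := LR) hb' g φ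
      · intro i
        refine Fin.lastCases ?_ (fun i => ?_) i
        · simp
        · simp [hx]
    constructor
    · intro hh x'
      obtain ⟨x, hx1, hx2⟩ := key A' A h2 v' xs' v xs h.symm (fun i => (hv i).symm)
        (fun i => (hx i).symm) x'
      exact (ih v _ v' _ hx1.symm hv fun i => (hx2 i).symm).1 (hh x)
    · intro hh x
      obtain ⟨x', hx1, hx2⟩ := key A A' h1 v xs v' xs' h hv hx x
      exact (ih v _ v' _ hx1 hv hx2).2 (hh x')

end

/-- elementary equivalence of products -/
theorem prod_eqv {A A' C : Type} [CommRing A] [CommRing A'] [CommRing C] (h : Eqv A A') :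
    Eqv (A × C) (A' × C) := by
  have key : ∀ (A A' : Type) [CommRing A] [CommRing A'], Ext (Ult A) (Ult A') := by
    intro A A' _ _ ι _ a a' haa b
    letI : LR.Structure (Ult A) := strR inferInstance
    letI : LR.Structure (Ult A') := strR inferInstance
    haveI : Nonempty (Ult A) := ⟨0⟩
    haveI : Nonempty (Ult A') := ⟨0⟩
    obtain ⟨b', hb'⟩ := ext_tuple (L := LR) (satd_ring A') haa (fun _ : Unit => b)
    exact ⟨b' (), hb'⟩
  have h1 : Eqv (Ult A) (Ult A') := (eqv_ult A).symm.trans (h.trans (eqv_ult A'))
  have h2 : Eqv (Ult A × Ult C) (Ult A' × Ult C) := by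
    intro χ
    refine prod_aux (key A A') (key A' A) (χ : LR.BoundedFormula Empty 0) default default default
      default ?_ (fun i => i.elim) (fun i => i.elim0)
    intro φ
    have h3 := h1 (Formula.relabel (Sum.elim id fun i : Fin 0 => i.elim0) φ)
    letI : LR.Structure (Ult A) := strR inferInstance
    letI : LR.Structure (Ult A') := strR inferInstance
    have h4 : ∀ (B : Type) [LR.Structure B], Sentence.Realize B
        (Formula.relabel (Sum.elim id fun i : Fin 0 => i.elim0) φ : LR.Sentence) ↔
        ∀ w : Empty ⊕ Fin 0 → B, φ.Realize w := by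
      intro B _
      show Formula.Realize _ _ ↔ _
      rw [Formula.realize_relabel]
      constructor
      · intro hh w
        exact (iff_of_eq (congrArg _ (Subsingleton.elim _ _))).1 hh
      · intro hh
        exact hh _
    rw [h4, h4] at h3
    constructor
    · intro hh
      refine h3.1 (fun w => ?_) _
      exact (iff_of_eq (congrArg _ (Subsingleton.elim _ _))).1 hh
    · intro hh
      refine h3.2 (fun w => ?_) _
      exact (iff_of_eq (congrArg _ (Subsingleton.elim _ _))).1 hh
  obtain ⟨e1⟩ := ult_prod A C
  obtain ⟨e2⟩ := ult_prod A' C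
  exact (eqv_ult (A × C)).trans ((Eqv.of_equiv e1).trans (h2.trans ((Eqv.of_equiv e2).symm.trans
    (eqv_ult (A' × C)).symm)))

end Pool.Agent.Hp8CR
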