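import Pool.Agent.Hp8CR.Prd

set_option autoImplicit false
set_option linter.style.haveILetI false

/-!
The theory of the first factor of a canonical decomposition is determined by the theory of the
product, and so is its isomorphism type.
-/

namespace Pool.Agent.Hp8CR

open FirstOrder FirstOrder.Language Pool.Agent.N641.VB Pool.Agent.Hp8VC Set H968 Filter

section
variable {A F : Type} [CommRing A] [CommRing F] {q : ℕ}

theorem dq_prod (hq : 2 ≤ q) (hA : ∀ x : A, x ^ q = x) (hF : ∀ x : F, Dq F q x → x = 0)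
    (x : A × F) : Dq (A × F) q x ↔ x.2 = 0 := by
  constructor
  · intro h
    refine hF _ fun y => ?_
    have := h (0, y)
    exact congrArg Prod.snd this
  · intro h y
    refine Prod.ext (hA _) ?_
    show (x.2 * y.2) ^ q = x.2 * y.2
    rw [h, zero_mul, zero_pow (by omega)]

theorem term_pair {α : Type} (t : LR.Term α) (v : α → A) :
    @Term.realize LR (A × F) (strR inferInstance) α (fun i => (v i, 0)) t =
      (@Term.realize LR A (strR inferInstance) α v t, 0) := by
  induction t with
  | var i => rfl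
  | func G ts ih =>
    cases G with
    | add =>
      show @Term.realize LR (A × F) (strR inferInstance) α (fun i => (v i, 0)) (ts 0) +
        @Term.realize LR (A × F) (strR inferInstance) α (fun i => (v i, 0)) (ts 1) = _
      rw [ih 0, ih 1, Prod.mk_add_mk, add_zero]
      rfl
    | mul =>
      show @Term.realize LR (A × F) (strR inferInstance) α (fun i => (v i, 0)) (ts 0) *
        @Term.realize LR (A × F) (strR inferInstance) α (fun i => (v i, 0)) (ts 1) = _
      rw [ih 0, ih 1, Prod.mk_mul_mk, mul_zero]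
      rfl

end

theorem dn_dq (q : ℕ) : Dn (κ := Unit) nop (fun k v => Dq k.1 q (v ())) := by
  have h : Dn nop (κ := Unit) (fun (k : Fm) (v : Unit → k.1) =>
      ∀ w : Unit → k.1, (v () * w ()) ^ q = v () * w ()) :=
    Dn.all (κ' := Unit) (Dn.eq
      (((DnF.var (Sum.inl ())).mul (DnF.var (Sum.inr ()))).pow q)
      ((DnF.var (Sum.inl ())).mul (DnF.var (Sum.inr ()))))
  refine h.congr fun k v => ?_
  exact ⟨fun h y => h fun _ => y, fun h w => h (w ())⟩

/-- the formula on the last variable -/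
theorem exists_dqf (q : ℕ) (α : Type) (n : ℕ) : ∃ D : LR.BoundedFormula α (n + 1),
    ∀ (R : Type) [CommRing R] (v : α → R) (xs : Fin n → R) (x : R),
      @BoundedFormula.Realize LR R (strR inferInstance) α (n + 1) D v (Fin.snoc xs x) ↔
        Dq R q x := by
  obtain ⟨φ, hφ⟩ := dn_dq q
  refine ⟨BoundedFormula.relabel (n := n + 1) (k := 0)
    (Sum.elim Empty.elim fun _ => Sum.inr (Fin.last n) : Empty ⊕ Unit → α ⊕ Fin (n + 1)) φ, ?_⟩
  intro R _ v xs x
  letI : LR.Structure R := strR inferInstance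
  refine Iff.trans ?_ (hφ ⟨R, inferInstance⟩ fun _ => x)
  have h := BoundedFormula.realize_relabel (L := LR) (M := R) (m := n + 1) (n := 0) (φ := φ)
    (g := (Sum.elim Empty.elim fun _ => Sum.inr (Fin.last n) : Empty ⊕ Unit → α ⊕ Fin (n + 1)))
    (v := v) (xs := (Fin.snoc xs x : Fin (n + 1) → R))
  refine h.trans (iff_of_eq ?_)
  have e1 : (Sum.elim v ((Fin.snoc xs x : Fin (n + 1) → R) ∘ Fin.castAdd 0) ∘
      (Sum.elim Empty.elim fun _ => Sum.inr (Fin.last n) : Empty ⊕ Unit → α ⊕ Fin (n + 1))) =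
      Sum.elim Empty.elim fun _ => x := by
    funext i
    rcases i with i | i
    · exact i.elim
    · show (Fin.snoc xs x : Fin (n + 1) → R) (Fin.castAdd 0 (Fin.last n)) = x
      have : Fin.castAdd 0 (Fin.last n) = Fin.last n := rfl
      rw [this, Fin.snoc_last]
  rw [e1]
  exact congrArg _ (Subsingleton.elim _ _)

/-- relativisation to the first factor -/
theorem rel_aux {q : ℕ} (hq : 2 ≤ q) {α : Type} : ∀ {n : ℕ} (φ : LR.BoundedFormula α n),
    ∃ ψ : LR.BoundedFormula α n, ∀ (A F : Type) [CommRing A] [CommRing F],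
      (∀ x : A, x ^ q = x) → (∀ x : F, Dq F q x → x = 0) → ∀ (v : α → A) (xs : Fin n → A),
      (@BoundedFormula.Realize LR (A × F) (strR inferInstance) α n ψ (fun i => (v i, 0))
        (fun i => (xs i, 0)) ↔ @BoundedFormula.Realize LR A (strR inferInstance) α n φ v xs) := by
  intro n φ
  induction φ with
  | falsum => exact ⟨BoundedFormula.falsum, fun A F _ _ _ _ v xs => Iff.rfl⟩
  | @equal n t1 t2 =>
    refine ⟨BoundedFormula.equal t1 t2, fun A F _ _ _ _ v xs => ?_⟩
    have e : (Sum.elim (fun i => (v i, (0 : F))) fun i => (xs i, (0 : F))) =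
        fun i => ((Sum.elim v xs : α ⊕ Fin n → A) i, (0 : F)) := by
      funext i
      rcases i with i | i <;> rfl
    show (@Term.realize LR (A × F) (strR inferInstance) _ (Sum.elim (fun i => (v i, (0 : F)))
      fun i => (xs i, (0 : F))) t1 = @Term.realize LR (A × F) (strR inferInstance) _
      (Sum.elim (fun i => (v i, (0 : F))) fun i => (xs i, (0 : F))) t2) ↔
      (@Term.realize LR A (strR inferInstance) _ (Sum.elim v xs) t1 =
      @Term.realize LR A (strR inferInstance) _ (Sum.elim v xs) t2)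
    rw [e, term_pair, term_pair]
    constructor
    · intro h
      exact congrArg Prod.fst h
    · intro h
      rw [h]
  | rel Q => exact Empty.elim Q
  | imp f g ih1 ih2 =>
    obtain ⟨ψ1, h1⟩ := ih1
    obtain ⟨ψ2, h2⟩ := ih2
    refine ⟨ψ1.imp ψ2, fun A F _ _ hA hF v xs => ?_⟩
    exact imp_congr (h1 A F hA hF v xs) (h2 A F hA hF v xs)
  | @all n f ih =>
    obtain ⟨ψ, h⟩ := ih
    obtain ⟨D, hD⟩ := exists_dqf q α n
    refine ⟨(D.imp ψ).all, fun A F _ _ hA hF v xs => ?_⟩
    have e : ∀ a : A, (Fin.snoc (fun i => (xs i, (0 : F))) (a, (0 : F)) : Fin (n + 1) → A × F) =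
        fun i => ((Fin.snoc xs a : Fin (n + 1) → A) i, (0 : F)) := by
      intro a
      funext i
      refine Fin.lastCases ?_ (fun i => ?_) i
      · simp
      · simp
    constructor
    · intro hh a
      have h1 := hh (a, 0) ((hD (A × F) _ _ _).2 ((dq_prod hq hA hF _).2 rfl))
      rw [e] at h1
      exact (h A F hA hF v _).1 h1
    · intro hh x hx
      have h1 : x.2 = 0 := (dq_prod hq hA hF _).1 ((hD (A × F) _ _ _).1 hx)
      obtain ⟨a, b⟩ := x
      simp only at h1
      subst h1
      rw [e]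
      exact (h A F hA hF v _).2 (hh a)

theorem sent_iff {M : Type} [LR.Structure M] (ψ : LR.BoundedFormula Empty 0) (v : Empty → M)
    (xs : Fin 0 → M) : ψ.Realize v xs ↔ Sentence.Realize M (ψ : LR.Sentence) :=
  iff_of_eq (congrArg₂ (fun a b => ψ.Realize a b) (Subsingleton.elim _ _) (Subsingleton.elim _ _))

/-- the theory of the first factor -/
theorem eqv_fst {q : ℕ} (hq : 2 ≤ q) {A F A' F' : Type} [CommRing A] [CommRing F] [CommRing A']
    [CommRing F'] (hA : ∀ x : A, x ^ q = x) (hF : ∀ x : F, Dq F q x → x = 0)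
    (hA' : ∀ x : A', x ^ q = x) (hF' : ∀ x : F', Dq F' q x → x = 0)
    (h : Eqv (A × F) (A' × F')) : Eqv A A' := by
  intro χ
  obtain ⟨ψ, hψ⟩ := rel_aux hq (χ : LR.BoundedFormula Empty 0)
  have h1 := hψ A F hA hF default default
  have h2 := hψ A' F' hA' hF' default default
  have h3 := h ψ
  refine h1.symm.trans (Iff.trans ?_ h2)
  exact (@sent_iff (A × F) (strR inferInstance) ψ _ _).trans (h3.trans
    (@sent_iff (A' × F') (strR inferInstance) ψ _ _).symm)

/-- the isomorphism type of the first factor -/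
theorem iso_fst {q : ℕ} (hq : 2 ≤ q) {A F A' F' : Type} [CommRing A] [CommRing F] [CommRing A']
    [CommRing F'] (hA : ∀ x : A, x ^ q = x) (hF : ∀ x : F, Dq F q x → x = 0)
    (hA' : ∀ x : A', x ^ q = x) (hF' : ∀ x : F', Dq F' q x → x = 0)
    (e : A × F ≃+* A' × F') : Nonempty (A ≃+* A') := by
  have hD : ∀ (R S : Type) [CommRing R] [CommRing S] (e : R ≃+* S) (x : R), Dq R q x →
      Dq S q (e x) := by
    intro R S _ _ e x hx y
    obtain ⟨y, rfl⟩ := e.surjective y
    rw [← map_mul, ← map_pow, hx y]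
  have h1 : ∀ a : A, (e (a, 0)).2 = 0 := fun a =>
    (dq_prod hq hA' hF' _).1 (hD _ _ e _ ((dq_prod hq hA hF _).2 rfl))
  have h2 : ∀ a : A', (e.symm (a, 0)).2 = 0 := fun a =>
    (dq_prod hq hA hF _).1 (hD _ _ e.symm _ ((dq_prod hq hA' hF' _).2 rfl))
  have h1' : ∀ a : A, ((e (a, 0)).1, (0 : F')) = e (a, 0) := fun a => Prod.ext rfl (h1 a).symm
  have h2' : ∀ a : A', ((e.symm (a, 0)).1, (0 : F)) = e.symm (a, 0) :=
    fun a => Prod.ext rfl (h2 a).symm
  refine ⟨{ toFun := fun a => (e (a, 0)).1
            invFun := fun a => (e.symm (a, 0)).1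
            left_inv := fun a => ?_
            right_inv := fun a => ?_
            map_mul' := fun a b => ?_
            map_add' := fun a b => ?_ }⟩
  · show (e.symm ((e (a, 0)).1, 0)).1 = a
    rw [h1', e.symm_apply_apply]
  · show (e ((e.symm (a, 0)).1, 0)).1 = a
    rw [h2', e.apply_symm_apply]
  · show (e (a * b, 0)).1 = (e (a, 0)).1 * (e (b, 0)).1
    rw [← Prod.fst_mul, ← map_mul, Prod.mk_mul_mk, mul_zero]
  · show (e (a + b, 0)).1 = (e (a, 0)).1 + (e (b, 0)).1
    rw [← Prod.fst_add, ← map_add, Prod.mk_add_mk, add_zero]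

end Pool.Agent.Hp8CR
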