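import Pool.Agent.Hp8CR.UltR
import Pool.Agent.Hp8CR.Gal

set_option autoImplicit false
set_option linter.style.haveILetI false

/-!
Infinite residue fields, at definable maximal ideals, of rings with countably many types are
algebraically closed.
-/

namespace Pool.Agent.Hp8CR

open FirstOrder FirstOrder.Language Pool.Agent.N641.VB Pool.Agent.Hp8VC Set H968 Filter

/-- countably many types of tuples -/
def FewT (U : Type) [CommRing U] : Prop :=
  ∀ (ι : Type) [Finite ι], {t : Set (LR.Formula ι) | ∃ v : ι → U, t = {χ | Rz χ v}}.Countable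

theorem ty_countable {U : Type} [CommRing U] (hfew : FewT U) {ι₀ κ : Type} [Finite ι₀] [Finite κ]
    (a : ι₀ → U) {L : Type} (π : (κ → U) → L) (hE : DM a π id) (hs : Function.Surjective π) :
    (range (ty a π)).Countable := by
  classical
  choose ψ hψ using fun φ : LR.Formula (ι₀ ⊕ κ) => dfn_sat hE φ
  refine ((hfew (ι₀ ⊕ κ)).image (fun t (φ : LR.Formula (ι₀ ⊕ κ)) => decide (ψ φ ∈ t))).mono ?_
  rintro _ ⟨s, rfl⟩
  obtain ⟨x, rfl⟩ := hs s
  refine ⟨_, ⟨Sum.elim a x, rfl⟩, ?_⟩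
  funext φ
  have h1 := hψ φ PUnit.unit x
  rw [Bool.eq_iff_iff, decide_eq_true_iff]
  exact h1

section
variable {U : Type} [CommRing U] {K : Type} [Field K] (ρ : U →+* K) (g : U) (n : ℕ)
  (hk : ∀ x, ρ x = 0 ↔ (g * x) ^ n = 0) {ι₀ : Type} (a : ι₀ → U) (i0 : ι₀) (hi0 : a i0 = g)

include hk hi0 in
theorem dfn_ker {κ J : Type} [Finite J] {f : J → (κ → U) → U}
    (hf : ∀ j, DnF (K := PUnit.{2}) (U := fun _ => U) (fun _ => a) (fun _ => f j)) :
    Dfn a (fun v => ∀ j, ρ (f j v) = 0) := by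
  have h1 : Dfn a (fun v : κ → U => ∀ j, (a i0 * f j v) ^ n = 0) :=
    Dfn.iAnd (P := fun j (v : κ → U) => (a i0 * f j v) ^ n = 0) fun j =>
      Dn.eq (((DnF.par i0).mul (hf j)).pow n) DnF.zero
  exact h1.congr fun v => forall_congr' fun j => by rw [hk, hi0]

variable {L : Type} [Field L] [Algebra K L] {d : ℕ} (b : Module.Basis (Fin d) K L)

/-- the elements of `L` are represented by tuples -/
noncomputable def pim (x : Fin d → U) : L := b.equivFun.symm (fun j => ρ (x j))

theorem pim_eq {x : Fin d → U} {s : L} :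
    pim ρ b x = s ↔ ∀ j, ρ (x j) = b.equivFun s j := by
  rw [pim, LinearEquiv.symm_apply_eq, funext_iff]

theorem pim_surj (hρ : Function.Surjective ρ) : Function.Surjective (pim ρ b) := by
  intro s
  choose r hr using hρ
  exact ⟨fun j => r (b.equivFun s j), (pim_eq ρ b).2 fun j => hr _⟩

theorem equiv_pim (x : Fin d → U) (j : Fin d) : b.equivFun (pim ρ b x) j = ρ (x j) := by
  rw [pim, LinearEquiv.apply_symm_apply]

theorem equiv_mul (x y : Fin d → U) (k : Fin d) : b.equivFun (pim ρ b x * pim ρ b y) k =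
    ∑ i, ∑ j, ρ (x i) * ρ (y j) * b.equivFun (b i * b j) k := by
  have h1 : ∀ x : Fin d → U, pim ρ b x = ∑ j, ρ (x j) • b j := by
    intro x
    rw [pim, Module.Basis.equivFun_symm_apply]
  rw [h1, h1, Finset.sum_mul_sum, map_sum, Finset.sum_apply]
  refine Finset.sum_congr rfl fun i _ => ?_
  rw [map_sum, Finset.sum_apply]
  refine Finset.sum_congr rfl fun j _ => ?_
  rw [smul_mul_smul_comm, map_smul]
  rfl

include hk hi0 in
theorem intF_of (hρ : Function.Surjective ρ) (c : Fin d × Fin d × Fin d → ι₀)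
    (hc : ∀ i j k, ρ (a (c (i, j, k))) = b.equivFun (b i * b j) k) : IntF a (pim ρ b) where
  surj := pim_surj ρ b hρ
  add := by
    have h1 := dfn_ker (κ := Fin 3 × Fin d) ρ g n hk a i0 hi0
      (f := fun (j : Fin d) (v : Fin 3 × Fin d → U) => v (0, j) + v (1, j) - v (2, j))
      (fun j => ((DnF.var (0, j)).add (DnF.var (1, j))).sub (DnF.var (2, j)))
    refine h1.congr fun v => ?_
    show _ ↔ pim ρ b (fun j => v (0, j)) + pim ρ b (fun j => v (1, j)) =
      pim ρ b (fun j => v (2, j))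
    rw [eq_comm (a := pim ρ b _ + pim ρ b _), pim_eq]
    refine forall_congr' fun j => ?_
    rw [map_add b.equivFun, Pi.add_apply, equiv_pim, equiv_pim, map_sub, map_add, sub_eq_zero,
      eq_comm]
  mul := by
    have h1 := dfn_ker (κ := Fin 3 × Fin d) ρ g n hk a i0 hi0
      (f := fun (k : Fin d) (v : Fin 3 × Fin d → U) =>
        (∑ i, ∑ j, v (0, i) * v (1, j) * a (c (i, j, k))) - v (2, k))
      (fun k => (DnF.sum _ fun i => DnF.sum _ fun j =>
        ((DnF.var (0, i)).mul (DnF.var (1, j))).mul (DnF.par (c (i, j, k)))).sub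
          (DnF.var (2, k)))
    refine h1.congr fun v => ?_
    show _ ↔ pim ρ b (fun j => v (0, j)) * pim ρ b (fun j => v (1, j)) =
      pim ρ b (fun j => v (2, j))
    rw [eq_comm (a := pim ρ b _ * pim ρ b _), pim_eq]
    refine forall_congr' fun k => ?_
    rw [equiv_mul, map_sub, sub_eq_zero, map_sum, eq_comm]
    refine iff_of_eq (congrArg _ (Finset.sum_congr rfl fun i _ => ?_))
    rw [map_sum]
    refine Finset.sum_congr rfl fun j _ => ?_
    rw [map_mul, map_mul, hc]

include hk hi0 in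
theorem mem_k (h : IntF a (pim ρ b)) (u : L) (c : Fin d → ι₀)
    (hc : ∀ j, ρ (a (c j)) = b.equivFun u j) : u ∈ h.k := by
  have h3 : ∀ j : Fin d, DnF (K := PUnit.{2}) (U := fun _ => U) (fun _ => a)
      (κ := (Empty ⊕ Unit) × Fin d) (fun _ v => v (Sum.inr (), j) - a (c j)) := fun j =>
    (DnF.var (Sum.inr (), j)).sub (DnF.par (c j))
  have h1 : Dfn a (fun v : (Empty ⊕ Unit) × Fin d → U =>
      ∀ j : Fin d, ρ (v (Sum.inr (), j) - a (c j)) = 0) := dfn_ker ρ g n hk a i0 hi0 h3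
  have h2 : DEF a (pim ρ b) (fun _ : Empty → L => u) := by
    show Dfn a (fun v : (Empty ⊕ Unit) × Fin d → U => pim ρ b (fun j => v (Sum.inr (), j)) = u)
    refine Dfn.congr h1 fun v => Iff.trans ?_ (pim_eq ρ b).symm
    refine forall_congr' fun j => ?_
    rw [map_sub, sub_eq_zero, hc]
  exact h2

end

/-- the index set of the parameters -/
abbrev ParI (d : ℕ) : Type := Unit ⊕ ((Fin d × Fin d × Fin d) ⊕ (Fin d ⊕ Fin d))

/-- the parameters -/
def parF {U : Type} {d : ℕ} (g : U) (c : Fin d → Fin d → Fin d → U) (s t : Fin d → U) :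
    ParI d → U :=
  Sum.elim (fun _ => g) (Sum.elim (fun x => c x.1 x.2.1 x.2.2) (Sum.elim s t))

theorem closed_aux {U : Type} [CommRing U] (hU : @Satd LR U (strR inferInstance))
    (hfew : FewT U) {K : Type} [Field K] (ρ : U →+* K) (hρ : Function.Surjective ρ) (g : U) (n : ℕ)
    (hk : ∀ x, ρ x = 0 ↔ (g * x) ^ n = 0) (t0 : K) (ht : Function.Injective fun i : ℕ => t0 ^ i)
    (L : Type) [Field L] [Algebra K L] [FiniteDimensional K L] (s : L) :
      (∀ n : ℕ, 0 < n → ∃ w : L, w ^ n = s) ∧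
      ∀ (p : ℕ) [Fact p.Prime] [CharP L p], ∃ w : L, w ^ p - w = s := by
  classical
  obtain ⟨d, ⟨b⟩⟩ : ∃ d : ℕ, Nonempty (Module.Basis (Fin d) K L) :=
    ⟨_, ⟨Module.finBasis K L⟩⟩
  obtain ⟨l, hl⟩ := hρ.hasRightInverse
  obtain ⟨t, ht'⟩ : ∃ t : L, t = algebraMap K L t0 := ⟨_, rfl⟩
  obtain ⟨a, ha⟩ : ∃ a : ParI d → U, a = parF g (fun i j k => l (b.equivFun (b i * b j) k))
    (fun j => l (b.equivFun s j)) (fun j => l (b.equivFun t j)) := ⟨_, rfl⟩
  have hI : IntF a (pim ρ b) := intF_of ρ g n hk a (Sum.inl ()) (by rw [ha]; rfl) b hρ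
    (fun x => Sum.inr (Sum.inl x)) (fun i j k => by rw [ha]; exact hl _)
  have hmem : ∀ (u : L) (c : Fin d → ParI d), (∀ j, ρ (a (c j)) = b.equivFun u j) →
      u ∈ hI.k := fun u c hc => mem_k ρ g n hk a (Sum.inl ()) (by rw [ha]; rfl) b hI u c hc
  have hsk : s ∈ hI.k := hmem s (fun j => Sum.inr (Sum.inr (Sum.inl j))) fun j => by
    rw [ha]
    exact hl _
  have htk : t ∈ hI.k := hmem t (fun j => Sum.inr (Sum.inr (Sum.inr j))) fun j => by
    rw [ha]
    exact hl _
  have hinf : Infinite hI.k := by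
    refine Infinite.of_injective (fun i : ℕ => (⟨t ^ i, pow_mem htk i⟩ : hI.k)) ?_
    intro i j hij
    have h1 : t ^ i = t ^ j := congrArg Subtype.val hij
    have h2 : algebraMap K L (t0 ^ i) = algebraMap K L (t0 ^ j) := by
      rw [map_pow, map_pow, ← ht']
      exact h1
    exact ht ((algebraMap K L).injective h2)
  have hE : DM a (pim ρ b) id := dm_of (g := id) (hI.var ())
  have hct := ty_countable hfew a (pim ρ b) hE hI.surj
  exact ⟨fun m hm => (hI.conc hU hct hinf).1 m hm s hsk,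
    fun p _ _ => (hI.conc hU hct hinf).2 p s hsk⟩

/-- The residue field is algebraically closed. -/
theorem closed_of {U : Type} [CommRing U] (hU : @Satd LR U (strR inferInstance))
    (hfew : FewT U) {K : Type} [Field K] (ρ : U →+* K) (hρ : Function.Surjective ρ) (g : U) (n : ℕ)
    (hk : ∀ x, ρ x = 0 ↔ (g * x) ^ n = 0) (t0 : K) (ht : Function.Injective fun i : ℕ => t0 ^ i) :
    IsAlgClosed K :=
  isAlgClosed_of_pow
    (fun L _ _ _ m hm s => (closed_aux hU hfew ρ hρ g n hk t0 ht L s).1 m hm)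
    (fun L _ _ _ p _ _ s => (closed_aux hU hfew ρ hρ g n hk t0 ht L s).2 p)

end Pool.Agent.Hp8CR
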