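import Pool.Agent.Hp8CR.Alg2

set_option autoImplicit false
set_option linter.style.haveILetI false

/-!
The largest ideal in which `x ^ q = x`, and the canonical decomposition.
-/

namespace Pool.Agent.Hp8CR

open Ideal

section
variable {R : Type} [CommRing R]

/-- all multiples `z` of `x` satisfy `z ^ q = z` -/
def Dq (R : Type) [CommRing R] (q : ℕ) (x : R) : Prop := ∀ y : R, (x * y) ^ q = x * y

theorem Dq.self {q : ℕ} {x : R} (h : Dq R q x) : x ^ q = x := by
  have := h 1
  rwa [mul_one] at this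

theorem Dq.mul {q : ℕ} {x : R} (h : Dq R q x) (c : R) : Dq R q (x * c) := by
  intro y
  rw [mul_assoc]
  exact h _

theorem Dq.idem {q : ℕ} (hq : 2 ≤ q) {x : R} (h : Dq R q x) :
    ∃ e, e * e = e ∧ e * x = x ∧ Dq R q e := by
  obtain ⟨r, rfl⟩ := Nat.exists_eq_add_of_le hq
  have h0 : x ^ (r + 1) * x = x := by
    rw [← pow_succ]
    have := h.self
    rwa [show 2 + r = r + 1 + 1 by ring] at this
  refine ⟨x ^ (r + 1), ?_, h0, ?_⟩
  · calc x ^ (r + 1) * x ^ (r + 1) = x ^ r * (x ^ (r + 1) * x) := by ring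
      _ = x ^ r * x := by rw [h0]
      _ = x ^ (r + 1) := by ring
  · rw [pow_succ']
    exact h.mul _

theorem idem_pow {e : R} (he : e * e = e) {q : ℕ} (hq : q ≠ 0) : e ^ q = e := by
  obtain ⟨r, rfl⟩ := Nat.exists_eq_succ_of_ne_zero hq
  induction r with
  | zero => simp
  | succ r ih => rw [pow_succ, ih (by omega), he]

theorem Dq.add {q : ℕ} (hq : 2 ≤ q) {x x' : R} (h : Dq R q x) (h' : Dq R q x') :
    Dq R q (x + x') := by
  obtain ⟨e, he, hex, hD⟩ := h.idem hq
  obtain ⟨e', he', hex', hD'⟩ := h'.idem hq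
  intro y
  have hf : (1 - e) * (1 - e) = 1 - e := by
    have : (1 - e) * (1 - e) = 1 - e - e + e * e := by ring
    rw [this, he]
    ring
  have h1 : e * ((x + x') * y) ^ q = e * ((x + x') * y) := by
    have := hD ((x + x') * y)
    rwa [mul_pow, idem_pow he (by omega)] at this
  have h3 : (1 - e) * ((x + x') * y) = e' * ((1 - e) * (x' * y)) := by
    calc (1 - e) * ((x + x') * y) = (x - e * x) * y + (1 - e) * (x' * y) := by ring
      _ = (1 - e) * ((e' * x') * y) := by rw [hex, hex']; ring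
      _ = _ := by ring
  have h2 : (1 - e) * ((x + x') * y) ^ q = (1 - e) * ((x + x') * y) := by
    have := hD' ((1 - e) * (x' * y))
    rw [← h3, mul_pow, idem_pow hf (by omega)] at this
    exact this
  calc ((x + x') * y) ^ q = e * ((x + x') * y) ^ q + (1 - e) * ((x + x') * y) ^ q := by ring
    _ = (x + x') * y := by rw [h1, h2]; ring

/-- the ideal of these elements -/
def DqI (R : Type) [CommRing R] (q : ℕ) (hq : 2 ≤ q) : Ideal R where
  carrier := {x | Dq R q x}
  add_mem' := fun h h' => Dq.add hq h h'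
  zero_mem' := fun y => by rw [zero_mul, zero_pow (by omega)]
  smul_mem' := fun c x h => by
    show Dq R q (c • x)
    rw [smul_eq_mul, mul_comm]
    exact Dq.mul h c

theorem mem_DqI {q : ℕ} {hq : 2 ≤ q} {x : R} : x ∈ DqI R q hq ↔ Dq R q x := Iff.rfl

theorem DqI_idem {q : ℕ} (hq : 2 ≤ q) : IsIdempotentElem (DqI R q hq) := by
  refine le_antisymm Ideal.mul_le_left fun x hx => ?_
  obtain ⟨e, he, hex, hD⟩ := Dq.idem hq hx
  rw [← hex]
  exact Ideal.mul_mem_mul hD hx

theorem DqI_fg {q : ℕ} (hq : 2 ≤ q) {e1 : R} (h1 : Dq R q e1)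
    (hA : IsArtinianRing (R ⧸ span {e1})) : (DqI R q hq).FG := by
  haveI : IsNoetherianRing (R ⧸ span {e1}) := inferInstance
  refine Submodule.fg_of_fg_map_of_fg_inf_ker (Submodule.mkQ (span {e1} : Ideal R)) ?_ ?_
  · let J : Ideal (R ⧸ span {e1}) := (DqI R q hq).map (Ideal.Quotient.mk (span {e1}))
    have hJ : J.FG := IsNoetherian.noetherian J
    have h2 := Submodule.FG.restrictScalars_of_surjective (R := R) hJ
      (Ideal.Quotient.mk_surjective (I := span {e1}))
    have h3 : Submodule.map (Submodule.mkQ (span {e1} : Ideal R)) (DqI R q hq) =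
        Submodule.restrictScalars R J := by
      ext x
      constructor
      · rintro ⟨y, hy, rfl⟩
        exact Ideal.mem_map_of_mem _ hy
      · intro hx
        obtain ⟨y, hy, rfl⟩ := (Ideal.mem_map_iff_of_surjective _
          (Ideal.Quotient.mk_surjective (I := span {e1}))).1 hx
        exact ⟨y, hy, rfl⟩
    rw [h3]
    exact h2
  · rw [Submodule.ker_mkQ]
    have : DqI R q hq ⊓ span {e1} = span {e1} := by
      refine inf_eq_right.2 ?_
      rw [span_singleton_le_iff_mem]
      exact h1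
    rw [this]
    exact ⟨{e1}, by simp⟩

/-- canonical decomposition -/
theorem decomp {q : ℕ} (hq : 2 ≤ q) {e1 : R} (h1 : Dq R q e1)
    (hA : IsArtinianRing (R ⧸ span {e1})) :
    ∃ e0 : R, e0 * e0 = e0 ∧ (∀ x, Dq R q x ↔ e0 * x = x) ∧ IsArtinianRing (R ⧸ span {e0}) := by
  obtain ⟨e0, he0, hI⟩ := (Ideal.isIdempotentElem_iff_of_fg _ (DqI_fg hq h1 hA)).1 (DqI_idem hq)
  have hmem : ∀ x, Dq R q x ↔ e0 * x = x := by
    intro x
    rw [← mem_DqI (hq := hq), hI]
    constructor
    · intro hx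
      obtain ⟨c, rfl⟩ := mem_span_singleton'.1 hx
      calc e0 * (c * e0) = c * (e0 * e0) := by ring
        _ = c * e0 := by rw [he0.eq]
    · intro hx
      rw [← hx]
      exact Ideal.mul_mem_right _ _ (mem_span_singleton_self _)
  refine ⟨e0, he0, hmem, ?_⟩
  have hle : span {e1} ≤ span {e0} := by
    rw [span_singleton_le_iff_mem]
    have := (hmem e1).1 h1
    rw [← this]
    exact Ideal.mul_mem_right _ _ (mem_span_singleton_self _)
  exact Function.Surjective.isArtinianRing (Ideal.Quotient.factor_surjective hle)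

/-- the quotient has no such elements -/
theorem dq_quot {q : ℕ} (hq : 2 ≤ q) {e0 : R} (he0 : e0 * e0 = e0)
    (hm : ∀ x, Dq R q x ↔ e0 * x = x) (x : R ⧸ span {e0}) (hx : Dq (R ⧸ span {e0}) q x) :
    x = 0 := by
  obtain ⟨x, rfl⟩ := Ideal.Quotient.mk_surjective x
  have h1 : Dq R q ((1 - e0) * x) := by
    intro y
    have h2 := hx (Ideal.Quotient.mk _ y)
    rw [← map_mul, ← map_pow, Ideal.Quotient.eq] at h2
    obtain ⟨c, hc⟩ := mem_span_singleton'.1 h2
    have hf : (1 - e0) * (1 - e0) = 1 - e0 := by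
      have : (1 - e0) * (1 - e0) = 1 - e0 - e0 + e0 * e0 := by ring
      rw [this, he0]
      ring
    have h3 : ((1 - e0) * x * y) ^ q = (1 - e0) * (x * y) ^ q := by
      rw [mul_assoc, mul_pow, idem_pow hf (by omega)]
    have h4 : (1 - e0) * ((x * y) ^ q - x * y) = 0 := by
      rw [← hc]
      have : (1 - e0) * (c * e0) = c * (e0 - e0 * e0) := by ring
      rw [this, he0, sub_self, mul_zero]
    rw [h3]
    have h5 : (1 - e0) * (x * y) ^ q = (1 - e0) * x * y := by
      rw [mul_sub, sub_eq_zero] at h4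
      rw [h4, mul_assoc]
    exact h5
  have h2 := (hm _).1 h1
  have h3 : e0 * ((1 - e0) * x) = (e0 - e0 * e0) * x := by ring
  rw [h3, he0, sub_self, zero_mul] at h2
  rw [Ideal.Quotient.eq_zero_iff_mem]
  have h4 : x = e0 * x := by
    have : (1 - e0) * x = x - e0 * x := by ring
    rw [this] at h2
    exact (sub_eq_zero.1 h2.symm)
  rw [h4]
  exact Ideal.mul_mem_right _ _ (mem_span_singleton_self _)

theorem quot_pow {q : ℕ} {e0 : R} (hm : ∀ x, Dq R q x ↔ e0 * x = x) (he0 : e0 * e0 = e0)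
    (x : R ⧸ span {1 - e0}) : x ^ q = x := by
  obtain ⟨x, rfl⟩ := Ideal.Quotient.mk_surjective x
  have h1 : Ideal.Quotient.mk (span {1 - e0}) x = Ideal.Quotient.mk (span {1 - e0}) (e0 * x) := by
    rw [Ideal.Quotient.eq]
    exact mem_span_singleton'.2 ⟨x, by ring⟩
  rw [h1, ← map_pow, ((hm e0).2 he0) x]

/-- the ring is the product -/
theorem prod_equiv {e0 : R} (he0 : e0 * e0 = e0) :
    Nonempty (R ≃+* (R ⧸ span {1 - e0}) × (R ⧸ span {e0})) := by
  have hc : IsCoprime (span {1 - e0} : Ideal R) (span {e0}) := by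
    rw [Ideal.isCoprime_iff_exists]
    exact ⟨1 - e0, mem_span_singleton_self _, e0, mem_span_singleton_self _, by ring⟩
  have hi : (span {1 - e0} ⊓ span {e0} : Ideal R) = ⊥ := by
    rw [eq_bot_iff]
    rintro x ⟨h1, h2⟩
    obtain ⟨c, rfl⟩ := mem_span_singleton'.1 h1
    obtain ⟨d, hd⟩ := mem_span_singleton'.1 h2
    show c * (1 - e0) = 0
    have h3 : c * (1 - e0) = e0 * (c * (1 - e0)) := by
      rw [← hd]
      have : e0 * (d * e0) = d * (e0 * e0) := by ring
      rw [this, he0]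
    rw [h3]
    have : e0 * (c * (1 - e0)) = c * (e0 - e0 * e0) := by ring
    rw [this, he0, sub_self, mul_zero]
  exact ⟨((RingEquiv.quotientBot R).symm.trans (Ideal.quotEquivOfEq hi.symm)).trans
    (Ideal.quotientInfEquivQuotientProd _ _ hc)⟩

/-- separation of a residue field -/
theorem sep_res {F : Type} [CommRing F] [IsArtinianRing F] {K : Type} [Field K] (ρ : F →+* K) :
    ∃ (g : F) (n : ℕ), 1 ≤ n ∧ ∀ x, ρ x = 0 ↔ (g * x) ^ n = 0 := by
  classical
  obtain ⟨n, hn⟩ := IsArtinianRing.isNilpotent_nilradical (R := F)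
  have hp : (RingHom.ker ρ).IsPrime := RingHom.ker_isPrime ρ
  have hmax : (RingHom.ker ρ).IsMaximal := Ideal.IsPrime.isMaximal' hp
  have hfin : Finite (MaximalSpectrum F) := inferInstance
  haveI := Fintype.ofFinite (MaximalSpectrum F)
  let m0 : MaximalSpectrum F := ⟨RingHom.ker ρ, hmax⟩
  have h1 : ¬ ((Finset.univ.erase m0).inf fun m : MaximalSpectrum F => m.asIdeal) ≤
      RingHom.ker ρ := by
    rw [hp.inf_le']
    rintro ⟨m, hm, hle⟩
    have h2 := Finset.ne_of_mem_erase hm
    refine h2 ?_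
    have h3 : m.asIdeal = RingHom.ker ρ := m.isMaximal.eq_of_le hp.ne_top hle
    exact MaximalSpectrum.ext h3
  obtain ⟨g, hg1, hg2⟩ := Set.not_subset.1 h1
  refine ⟨g, n + 1, by omega, fun x => ⟨fun hx => ?_, fun hx => ?_⟩⟩
  · have h2 : g * x ∈ nilradical F := by
      rw [nilradical_eq_sInf, Ideal.mem_sInf]
      intro p hpp
      haveI : p.IsPrime := hpp
      have hpm : p.IsMaximal := Ideal.IsPrime.isMaximal' hpp
      by_cases h : (⟨p, hpm⟩ : MaximalSpectrum F) = m0
      · have h3 : p = RingHom.ker ρ := congrArg MaximalSpectrum.asIdeal h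
        rw [h3]
        exact Ideal.mul_mem_left _ _ hx
      · refine Ideal.mul_mem_right _ _ ?_
        have h3 := (Submodule.mem_finsetInf.1 hg1) ⟨p, hpm⟩
          (Finset.mem_erase.2 ⟨h, Finset.mem_univ _⟩)
        exact h3
    have h3 := Ideal.pow_mem_pow h2 n
    rw [hn] at h3
    rw [pow_succ, show (g * x) ^ n = 0 from h3, zero_mul]
  · have h2 : ρ (g * x) = 0 := by
      have := congrArg ρ hx
      rw [map_pow, map_zero] at this
      exact pow_eq_zero_iff (by omega) |>.1 this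
    rw [map_mul] at h2
    rcases mul_eq_zero.1 h2 with h3 | h3
    · exact absurd h3 hg2
    · exact h3

/-- separation in the large ring -/
theorem sep_res' {e0 : R} (he0 : e0 * e0 = e0) [IsArtinianRing (R ⧸ span {e0})] {K : Type} [Field K]
    (ρ : (R ⧸ span {e0}) →+* K) :
    ∃ (g : R) (n : ℕ), ∀ x, ρ (Ideal.Quotient.mk _ x) = 0 ↔ (g * x) ^ n = 0 := by
  obtain ⟨g, n, hn, h⟩ := sep_res ρ
  obtain ⟨g, rfl⟩ := Ideal.Quotient.mk_surjective g
  have hf : (1 - e0) * (1 - e0) = 1 - e0 := by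
    have : (1 - e0) * (1 - e0) = 1 - e0 - e0 + e0 * e0 := by ring
    rw [this, he0]
    ring
  refine ⟨(1 - e0) * g, n, fun x => ?_⟩
  rw [h, ← map_mul, ← map_pow, Ideal.Quotient.eq_zero_iff_mem, mul_assoc,
    mul_pow (1 - e0), idem_pow hf (by omega)]
  constructor
  · intro hx
    obtain ⟨c, hc⟩ := mem_span_singleton'.1 hx
    rw [← hc]
    have : (1 - e0) * (c * e0) = c * (e0 - e0 * e0) := by ring
    rw [this, he0, sub_self, mul_zero]
  · intro hx
    have : (g * x) ^ n = (g * x) ^ n * e0 := by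
      have h2 : (1 - e0) * (g * x) ^ n = (g * x) ^ n - (g * x) ^ n * e0 := by ring
      rw [h2] at hx
      exact sub_eq_zero.1 hx
    rw [this]
    exact Ideal.mul_mem_left _ _ (mem_span_singleton_self _)

end

end Pool.Agent.Hp8CR
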