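import Pool.Agent.Hp8CR.Str
import Pool.Agent.Hp8CR.Pat

set_option autoImplicit false
set_option linter.style.haveILetI false

/-!
Transfer of first-order properties between commutative rings, and the decomposition for rings with
the theory of a product of a reduced and a Noetherian ring.
-/

namespace Pool.Agent.Hp8CR

open FirstOrder FirstOrder.Language Pool.Agent.N641.VB Ideal

/-- the family of all commutative rings -/
abbrev Fm : Type 1 := Σ U : Type, CommRing U

instance (k : Fm) : CommRing k.1 := k.2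

/-- elementarily equivalent rings -/
def Eqv (A B : Type) [CommRing A] [CommRing B] : Prop :=
  ∀ χ : LR.Sentence, @Sentence.Realize LR A (strR inferInstance) χ ↔
    @Sentence.Realize LR B (strR inferInstance) χ

/-- no parameters -/
abbrev nop : ∀ k : Fm, Empty → k.1 := fun _ => Empty.elim

theorem Dn.transfer {P : ∀ k : Fm, (Empty → k.1) → Prop} (h : Dn nop P) {A B : Type}
    [CommRing A] [CommRing B] (hAB : Eqv A B) :
    P ⟨A, inferInstance⟩ (Empty.elim : Empty → A) ↔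
      P ⟨B, inferInstance⟩ (Empty.elim : Empty → B) := by
  obtain ⟨φ, hφ⟩ := h
  have key : ∀ (A : Type) [CommRing A], @Sentence.Realize LR A (strR inferInstance)
      (Formula.relabel (Sum.elim id id) φ) ↔ P ⟨A, inferInstance⟩ (Empty.elim : Empty → A) := by
    intro A _
    letI : LR.Structure A := strR inferInstance
    rw [← hφ ⟨A, inferInstance⟩ Empty.elim]
    show Formula.Realize _ _ ↔ _
    rw [Formula.realize_relabel]
    refine iff_of_eq (congrArg _ ?_)
    funext x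
    rcases x with x | x <;> exact x.elim
  rw [← key A, ← key B]
  exact hAB _

theorem dn_pi (n : ℕ) : Dn (κ := Empty) nop (fun k _ => PiReg k.1 n) := by
  have h : Dn nop (fun (k : Fm) (_ : Empty → k.1) => ∀ w : Unit → k.1, ∃ c : Unit → k.1,
      (w ()) ^ n = (w ()) ^ (n + 1) * c ()) :=
    Dn.all (κ := Empty) (κ' := Unit) (Dn.ex (κ' := Unit)
      (Dn.eq ((DnF.var (Sum.inl (Sum.inr ()))).pow n)
      (((DnF.var (Sum.inl (Sum.inr ()))).pow (n + 1)).mul (DnF.var (Sum.inr ())))))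
  refine h.congr fun k _ => ?_
  constructor
  · intro h a
    obtain ⟨c, hc⟩ := h fun _ => a
    exact ⟨c (), hc⟩
  · intro h w
    obtain ⟨c, hc⟩ := h (w ())
    exact ⟨fun _ => c, hc⟩

/-- the condition on the decomposition -/
def Zd (R : Type) [CommRing R] (l : ℕ) : Prop :=
  ∃ e : R, e * e = e ∧ (∀ x, e * (x * x) = 0 → e * x = 0) ∧ Chn (1 - e) l

theorem dn_zd (l : ℕ) : Dn (κ := Empty) nop (fun k _ => Zd k.1 l) := by
  have h1 : Dn nop (κ := Empty ⊕ Unit) (fun (k : Fm) (v : Empty ⊕ Unit → k.1) =>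
      v (Sum.inr ()) * v (Sum.inr ()) = v (Sum.inr ())) :=
    Dn.eq ((DnF.var _).mul (DnF.var _)) (DnF.var _)
  have h2 : Dn nop (κ := Empty ⊕ Unit) (fun (k : Fm) (v : Empty ⊕ Unit → k.1) =>
      ∀ w : Unit → k.1, v (Sum.inr ()) * (w () * w ()) = 0 → v (Sum.inr ()) * w () = 0) :=
    Dn.all (κ' := Unit) (Dn.imp
      (Dn.eq ((DnF.var (Sum.inl (Sum.inr ()))).mul ((DnF.var (Sum.inr ())).mul
        (DnF.var (Sum.inr ())))) DnF.zero)
      (Dn.eq ((DnF.var (Sum.inl (Sum.inr ()))).mul (DnF.var (Sum.inr ()))) DnF.zero))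
  have h3 : Dn nop (κ := Empty ⊕ Unit) (fun (k : Fm) (v : Empty ⊕ Unit → k.1) =>
      ∀ y : ℕ → k.1, ∃ i : Fin (l + 1), ∃ c : ℕ → k.1, (1 - v (Sum.inr ())) * y i =
        ∑ j ∈ Finset.range i, c j * ((1 - v (Sum.inr ())) * y j)) :=
    Dn.all (κ' := ℕ) (Dn.iOr (ι := Fin (l + 1)) fun i => Dn.ex (κ' := ℕ) (Dn.eq
      ((DnF.one.sub (DnF.var (Sum.inl (Sum.inl (Sum.inr ()))))).mul
        (DnF.var (Sum.inl (Sum.inr (i : ℕ)))))
      (DnF.sum _ fun j => (DnF.var (Sum.inr j)).mul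
        ((DnF.one.sub (DnF.var (Sum.inl (Sum.inl (Sum.inr ()))))).mul
          (DnF.var (Sum.inl (Sum.inr j)))))))
  refine (Dn.ex (κ' := Unit) (h1.and (h2.and h3))).congr fun k _ => ?_
  constructor
  · rintro ⟨w, h1, h2, h3⟩
    refine ⟨w (), h1, fun x hx => h2 (fun _ => x) hx, fun y => ?_⟩
    obtain ⟨i, c, hc⟩ := h3 y
    exact ⟨i, by have := i.2; omega, c, hc⟩
  · rintro ⟨e, h1, h2, h3⟩
    refine ⟨fun _ => e, h1, fun x hx => h2 _ hx, fun y => ?_⟩
    obtain ⟨i, hi, c, hc⟩ := h3 y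
    exact ⟨⟨i, by omega⟩, c, hc⟩

theorem artinian_of_pi {B : Type} [CommRing B] [IsNoetherianRing B] {n : ℕ} (h : PiReg B n) :
    IsArtinianRing B := by
  haveI : Ring.KrullDimLE 0 B := by
    rw [Ring.krullDimLE_zero_iff]
    intro p hp
    rw [Ideal.isMaximal_iff]
    refine ⟨fun h1 => hp.ne_top (Ideal.eq_top_of_isUnit_mem _ h1 isUnit_one), ?_⟩
    intro J x hpJ hx hxJ
    obtain ⟨c, hc⟩ := h x
    have h1 : x ^ n * (1 - x * c) ∈ p := by
      have : x ^ n * (1 - x * c) = x ^ n - x ^ (n + 1) * c := by ring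
      rw [this, ← hc, sub_self]
      exact p.zero_mem
    have h2 : 1 - x * c ∈ p := by
      rcases hp.mem_or_mem h1 with h3 | h3
      · exact absurd (hp.mem_of_pow_mem n h3) hx
      · exact h3
    have h3 : (1 : B) = (1 - x * c) + x * c := by ring
    rw [h3]
    exact J.add_mem (hpJ h2) (J.mul_mem_right _ hxJ)
  exact IsNoetherianRing.isArtinianRing_of_krullDimLE_zero

theorem zd_prod {A B : Type} [CommRing A] [IsReduced A] [CommRing B] [IsNoetherianRing B] {n : ℕ}
    (h : PiReg (A × B) n) : ∃ l, Zd (A × B) l := by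
  have hB : PiReg B n := by
    intro b
    obtain ⟨c, hc⟩ := h (0, b)
    exact ⟨c.2, congrArg Prod.snd hc⟩
  haveI := artinian_of_pi hB
  obtain ⟨l, hl⟩ := chn_of_artinian (R := B)
  refine ⟨l, (1, 0), by simp, ?_, ?_⟩
  · rintro ⟨x, y⟩ hx
    have h1 : x * x = 0 := by simpa using congrArg Prod.fst hx
    have h2 : x = 0 := by
      rcases (pow_eq_zero_iff (M₀ := A) (n := 2) (by norm_num)).1 (by rw [pow_two, h1]) with rfl
      rfl
    subst h2
    simp
  · intro y
    obtain ⟨i, hi, c, hc⟩ := hl fun j => (y j).2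
    refine ⟨i, hi, fun j => (0, c j), ?_⟩
    simp only [one_mul] at hc
    refine Prod.ext ?_ ?_
    · simp [Prod.fst_sum]
    · simp [Prod.snd_sum, hc]

/-- the decomposition of the ring -/
theorem good_decomp {R : Type} [CommRing R] {n m : ℕ} (hpi : PiReg R n) (hbig : ¬ Big R m)
    {A B : Type} [CommRing A] [IsReduced A] [CommRing B] [IsNoetherianRing B]
    (h : Eqv R (A × B)) : ∃ (q : ℕ) (e0 : R), 2 ≤ q ∧ e0 * e0 = e0 ∧
      (∀ x, Dq R q x ↔ e0 * x = x) ∧ IsArtinianRing (R ⧸ span {e0}) := by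
  have h1 : PiReg (A × B) n := ((dn_pi n).transfer h).1 hpi
  obtain ⟨l, hl⟩ := zd_prod h1
  obtain ⟨e, he, hred, hch⟩ : Zd R l := ((dn_zd l).transfer h).2 hl
  obtain ⟨q, e1, hq, he1, hy, hA⟩ := structure_thm hpi hbig he hred hch
  obtain ⟨e0, h2, h3, h4⟩ := decomp hq hy hA
  exact ⟨q, e0, hq, h2, h3, h4⟩

end Pool.Agent.Hp8CR
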