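import Pool.Agent.Hp8CR.Dfn
import Pool.Agent.Hp8CR.CB
import Pool.Agent.Hp8CR.Gen

set_option autoImplicit false
set_option linter.style.haveILetI false

/-!
The space of types of the elements of an interpreted sort over finitely many parameters, in a
saturated ring, and the map induced by a definable map with bounded fibres.
-/

namespace Pool.Agent.Hp8CR

open FirstOrder FirstOrder.Language Pool.Agent.N641.VB Pool.Agent.Hp8VC Set

section
variable {U : Type} [R : CommRing U] {ι₀ : Type} (a : ι₀ → U)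

/-- definability with the parameters `a` -/
def Dfn {κ : Type} (P : (κ → U) → Prop) : Prop :=
  Dn (K := PUnit.{2}) (U := fun _ => U) (fun _ => a) (fun _ => P)

variable {a} {κ κ' : Type}

theorem Dfn.congr {P Q : (κ → U) → Prop} (h : Dfn a P) (hh : ∀ v, P v ↔ Q v) : Dfn a Q :=
  Dn.congr h fun _ v => hh v

theorem Dfn.not {P : (κ → U) → Prop} (h : Dfn a P) : Dfn a (fun v => ¬ P v) := Dn.not h

theorem Dfn.and {P Q : (κ → U) → Prop} (h : Dfn a P) (h' : Dfn a Q) :
    Dfn a (fun v => P v ∧ Q v) := Dn.and h h'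

theorem Dfn.or {P Q : (κ → U) → Prop} (h : Dfn a P) (h' : Dfn a Q) :
    Dfn a (fun v => P v ∨ Q v) := Dn.or h h'

theorem Dfn.imp {P Q : (κ → U) → Prop} (h : Dfn a P) (h' : Dfn a Q) :
    Dfn a (fun v => P v → Q v) := Dn.imp h h'

theorem Dfn.relabel {P : (κ → U) → Prop} (h : Dfn a P) (g : κ → κ') :
    Dfn a (fun v => P (v ∘ g)) := Dn.relabel h g

theorem Dfn.ex {P : (κ ⊕ κ' → U) → Prop} (h : Dfn a P) :
    Dfn a (fun v => ∃ w : κ' → U, P (Sum.elim v w)) := Dn.ex h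

theorem Dfn.all {P : (κ ⊕ κ' → U) → Prop} (h : Dfn a P) :
    Dfn a (fun v => ∀ w : κ' → U, P (Sum.elim v w)) := Dn.all h

theorem Dfn.fin_and {ι : Type} (s : Finset ι) {P : ι → (κ → U) → Prop}
    (h : ∀ i, Dfn a (P i)) : Dfn a (fun v => ∀ i ∈ s, P i v) :=
  Dn.fin_and s (P := fun i _ => P i) h

theorem Dfn.iAnd {ι : Type} [Finite ι] {P : ι → (κ → U) → Prop}
    (h : ∀ i, Dfn a (P i)) : Dfn a (fun v => ∀ i, P i v) :=
  Dn.iAnd (P := fun i _ => P i) h

/-- variables become parameters -/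
theorem Dfn.spec {P : (κ ⊕ κ' → U) → Prop} (h : Dfn a P) (b : κ' → U) :
    Dfn (Sum.elim a b) (fun v => P (Sum.elim v b)) := by
  obtain ⟨φ, hφ⟩ := h
  let e : ι₀ ⊕ (κ ⊕ κ') → (ι₀ ⊕ κ') ⊕ κ := fun x => match x with
    | Sum.inl i => Sum.inl (Sum.inl i)
    | Sum.inr (Sum.inl i) => Sum.inr i
    | Sum.inr (Sum.inr i) => Sum.inl (Sum.inr i)
  refine ⟨Formula.relabel e φ, fun k v => ?_⟩
  letI := strR R
  rw [Rz, Formula.realize_relabel]
  refine Iff.trans (iff_of_eq (congrArg _ ?_)) (hφ k (Sum.elim v b))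
  funext x
  rcases x with x | x | x <;> rfl

theorem Dfn.weak {P : (κ → U) → Prop} (h : Dfn a P) (b : κ' → U) :
    Dfn (Sum.elim a b) P :=
  (Dfn.spec (κ' := κ') (h.relabel Sum.inl) b).congr fun _ => Iff.rfl

/-- saturation -/
theorem sat_sem [Countable ι₀] [Countable κ] (hU : @Satd LR U (strR R)) {J : Type}
    {P : J → (κ → U) → Prop} (hP : ∀ j, Dfn a (P j))
    (hfin : ∀ s : Finset J, ∃ x, ∀ j ∈ s, P j x) : ∃ x, ∀ j, P j x := by
  classical
  choose φ hφ using hP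
  letI := strR R
  obtain ⟨b, hb⟩ := hU ι₀ κ a (range φ) (by
    intro s hs hs'
    obtain ⟨t, ht⟩ := hs'.exists_finset
    choose j hj using fun ψ : t => hs ((ht ψ.1).1 ψ.2)
    obtain ⟨x, hx⟩ := hfin (Finset.univ.image j)
    refine ⟨x, fun ψ hψ => ?_⟩
    have h1 := hx (j ⟨ψ, (ht ψ).2 hψ⟩) (Finset.mem_image_of_mem _ (Finset.mem_univ _))
    have h2 := (hφ (j ⟨ψ, (ht ψ).2 hψ⟩) PUnit.unit x).2 h1
    rw [hj] at h2
    exact h2)
  exact ⟨b, fun j => (hφ j PUnit.unit b).1 (hb _ ⟨j, rfl⟩)⟩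

end

section
variable {U : Type} [R : CommRing U] {ι₀ : Type} (a : ι₀ → U) {κ : Type} {L : Type}
  (π : (κ → U) → L)

open Classical in
/-- the type of an element of the sort `L` -/
noncomputable def ty (s : L) : LR.Formula (ι₀ ⊕ κ) → Bool := fun φ =>
  decide (∃ x, π x = s ∧ Rz φ (Sum.elim a x))

theorem ty_iff (s : L) (φ : LR.Formula (ι₀ ⊕ κ)) :
    ty a π s φ = true ↔ ∃ x, π x = s ∧ Rz φ (Sum.elim a x) := by
  simp only [ty, decide_eq_true_eq]

/-- definable maps -/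
def DM (g : L → L) : Prop := Dfn a (fun v : κ ⊕ κ → U => π (v ∘ Sum.inr) = g (π (v ∘ Sum.inl)))

variable {a π} (hs : Function.Surjective π)

include hs in
theorem ty_set {W : Set L} (hW : Dfn a (fun x : κ → U => π x ∈ W)) {s t : L}
    (h : ty a π s = ty a π t) (hsW : s ∈ W) : t ∈ W := by
  obtain ⟨φ, hφ⟩ := hW
  have h1 := congrFun h φ
  simp only [ty, decide_eq_decide] at h1
  obtain ⟨x, rfl⟩ := hs s
  obtain ⟨y, hy, hy'⟩ := h1.1 ⟨x, rfl, (hφ PUnit.unit x).2 hsW⟩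
  rw [← hy]
  exact (hφ PUnit.unit y).1 hy'

/-- the definable set of the elements with a representative in `φ` -/
theorem dfn_sat (hE : DM a π id) (φ : LR.Formula (ι₀ ⊕ κ)) :
    Dfn a (fun x : κ → U => ty a π (π x) φ = true) := by
  have h1 : Dfn a (fun x : κ → U => Rz φ (Sum.elim a x)) := ⟨φ, fun _ _ => Iff.rfl⟩
  have h2 : Dfn a (fun v : κ ⊕ κ → U => π (v ∘ Sum.inr) = π (v ∘ Sum.inl) ∧
    Rz φ (Sum.elim a (v ∘ Sum.inr))) := Dfn.and hE (h1.relabel Sum.inr)
  exact h2.ex.congr fun x => by simp only [ty, decide_eq_true_eq]; rfl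

theorem dfn_sat' (hE : DM a π id) (φ : LR.Formula (ι₀ ⊕ κ)) (b : Bool) :
    Dfn a (fun x : κ → U => ty a π (π x) φ = b) := by
  cases b with
  | true => exact dfn_sat hE φ
  | false => exact (dfn_sat hE φ).not.congr fun x => by simp

theorem ty_closed [Countable ι₀] [Countable κ] (hU : @Satd LR U (strR R)) (hE : DM a π id)
    (hs : Function.Surjective π) : IsClosed (range (ty a π)) := by
  refine isClosed_of_closure_subset fun ξ hξ => ?_
  obtain ⟨x, hx⟩ := sat_sem (a := a) hU (fun φ => dfn_sat' hE φ (ξ φ)) (by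
    intro s
    have h1 : IsOpen {ζ : LR.Formula (ι₀ ⊕ κ) → Bool | ∀ φ ∈ s, ζ φ = ξ φ} := by
      have : {ζ : LR.Formula (ι₀ ⊕ κ) → Bool | ∀ φ ∈ s, ζ φ = ξ φ} =
          ⋂ φ ∈ s, {ζ | ζ φ = ξ φ} := by
        ext ζ
        simp
      rw [this]
      refine isOpen_biInter_finset fun φ _ => ?_
      exact (continuous_apply (A := fun _ => Bool) φ).isOpen_preimage _ (isOpen_discrete {ξ φ})
    obtain ⟨ζ, hζ1, t, rfl⟩ := mem_closure_iff.1 hξ _ h1 (fun _ _ => rfl)
    obtain ⟨x, rfl⟩ := hs t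
    exact ⟨x, hζ1⟩)
  exact ⟨π x, funext hx⟩

theorem dm_pull {g : L → L} (hg : DM a π g) (φ : LR.Formula (ι₀ ⊕ κ)) :
    ∃ ψ : LR.Formula (ι₀ ⊕ κ), ∀ x, Rz ψ (Sum.elim a x) ↔ ty a π (g (π x)) φ = true := by
  have h1 : Dfn a (fun x : κ → U => Rz φ (Sum.elim a x)) := ⟨φ, fun _ _ => Iff.rfl⟩
  have h2 : Dfn a (fun v : κ ⊕ κ → U => π (v ∘ Sum.inr) = g (π (v ∘ Sum.inl)) ∧
    Rz φ (Sum.elim a (v ∘ Sum.inr))) := Dfn.and hg (h1.relabel Sum.inr)
  obtain ⟨ψ, hψ⟩ := h2.ex
  refine ⟨ψ, fun x => (hψ PUnit.unit x).trans ?_⟩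
  simp only [ty, decide_eq_true_eq]
  rfl

/-- the map on types -/
noncomputable def pull {g : L → L} (hg : DM a π g) (ξ : LR.Formula (ι₀ ⊕ κ) → Bool) :
    LR.Formula (ι₀ ⊕ κ) → Bool := fun φ => ξ (dm_pull hg φ).choose

include hs in
theorem pull_ty {g : L → L} (hg : DM a π g) (s : L) : pull hg (ty a π s) = ty a π (g s) := by
  funext φ
  have h := (dm_pull hg φ).choose_spec
  rw [Bool.eq_iff_iff]
  show ty a π s (dm_pull hg φ).choose = true ↔ _
  have h1 : ty a π s (dm_pull hg φ).choose = true ↔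
      ∃ x, π x = s ∧ Rz (dm_pull hg φ).choose (Sum.elim a x) := ty_iff a π s _
  rw [h1]
  constructor
  · rintro ⟨x, rfl, hx⟩
    exact (h x).1 hx
  · intro h2
    obtain ⟨x, rfl⟩ := hs s
    exact ⟨x, rfl, (h x).2 h2⟩

theorem pull_cont {g : L → L} (hg : DM a π g) : Continuous (pull hg) :=
  continuous_pi fun _ => continuous_apply _

/-- elements with a given type in a fibre -/
theorem lift_fib [Countable ι₀] [Countable κ] (hU : @Satd LR U (strR R)) (hE : DM a π id)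
    (hs : Function.Surjective π) {g : L → L} (hg : DM a π g) (s t : L)
    (h : ty a π (g s) = ty a π t) : ∃ s' : L, ty a π s' = ty a π s ∧ g s' = t := by
  obtain ⟨y0, rfl⟩ := hs t
  let P : Option (LR.Formula (ι₀ ⊕ κ)) → (κ → U) → Prop := fun o x => match o with
    | none => π y0 = g (π x)
    | some φ => ty a π (π x) φ = ty a π s φ
  obtain ⟨x, hx⟩ := sat_sem (a := Sum.elim a y0) (P := P) hU (by
    intro o
    cases o with
    | none => exact Dfn.spec hg y0
    | some φ => exact Dfn.weak (dfn_sat' hE φ _) y0) (by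
    intro F
    classical
    let F' : Finset (LR.Formula (ι₀ ⊕ κ)) := F.eraseNone
    have h1 : Dfn a (fun x : κ → U => ∀ φ ∈ F', ty a π (π x) φ = ty a π s φ) :=
      Dfn.fin_and F' fun φ => dfn_sat' hE φ _
    have h2 : Dfn a (fun v : κ ⊕ κ → U => π (v ∘ Sum.inl) = g (π (v ∘ Sum.inr)) ∧
        ∀ φ ∈ F', ty a π (π (v ∘ Sum.inr)) φ = ty a π s φ) := by
      refine Dfn.and ?_ (h1.relabel Sum.inr)
      exact (Dfn.relabel hg (Sum.swap : κ ⊕ κ → κ ⊕ κ)).congr fun v => Iff.rfl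
    have h3 : Dfn a (fun y : κ → U => π y ∈ {r : L | ∃ x : κ → U, r = g (π x) ∧
        ∀ φ ∈ F', ty a π (π x) φ = ty a π s φ}) := h2.ex
    obtain ⟨x0, hx0⟩ := hs s
    obtain ⟨x, hx1, hx2⟩ := ty_set hs h3 h ⟨x0, by rw [hx0], fun φ _ => by rw [hx0]⟩
    refine ⟨x, fun o ho => ?_⟩
    cases o with
    | none => exact hx1
    | some φ => exact hx2 φ (Finset.mem_eraseNone.2 ho))
  exact ⟨π x, funext fun φ => hx (some φ), (hx none).symm⟩

/-- the fibres of `g` have at most `N` elements -/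
def BF (N : ℕ) (g : L → L) : Prop :=
  ∀ f : Fin (N + 1) → L, (∀ i, g (f i) = g (f 0)) → ¬ Function.Injective f

/-- generic elements -/
theorem exists_gen [Countable ι₀] [Countable κ] [Nonempty L] (hU : @Satd LR U (strR R))
    (hE : DM a π id) (hs : Function.Surjective π) (hct : (range (ty a π)).Countable) :
    ∃ G : Set L, G.Nonempty ∧ (ty a π '' G).Finite ∧
      ∀ (g : L → L) (N : ℕ), DM a π g → BF N g → ∀ s ∈ G, g s ∈ G := by
  classical
  let X : Type := range (ty a π)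
  haveI : CompactSpace X := isCompact_iff_compactSpace.1 (ty_closed hU hE hs).isCompact
  haveI : Countable X := hct.to_subtype
  haveI : Nonempty X := ⟨⟨_, Classical.arbitrary L, rfl⟩⟩
  obtain ⟨F, hF1, ⟨⟨_, s0, rfl⟩, hx0⟩, hF3⟩ := exists_core (X := X)
  refine ⟨{s | (⟨ty a π s, s, rfl⟩ : X) ∈ F}, ⟨s0, hx0⟩, ?_, ?_⟩
  · refine (hF1.image Subtype.val).subset ?_
    rintro _ ⟨s, hsF, rfl⟩
    exact ⟨_, hsF, rfl⟩
  · intro g N hg hN s hsG
    have hmem : ∀ x : X, pull hg x.1 ∈ range (ty a π) := by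
      rintro ⟨_, s, rfl⟩
      exact ⟨g s, (pull_ty hs hg s).symm⟩
    let g' : X → X := fun x => ⟨pull hg x.1, hmem x⟩
    have hc : Continuous g' := ((pull_cont hg).comp continuous_subtype_val).subtype_mk _
    have hfin : ∀ x : X, {y | g' y = x}.Finite := by
      intro x
      by_contra hinf
      have hinf' : Set.Infinite {y | g' y = x} := hinf
      let e := hinf'.natEmbedding
      choose r hr using fun i : Fin (N + 1) => (e i.1).1.2
      have h1 : ∀ i, ty a π (g (r i)) = ty a π (g (r 0)) := by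
        intro i
        have h2 : ∀ j, ty a π (g (r j)) = x.1 := by
          intro j
          rw [← pull_ty hs hg, hr j]
          exact congrArg Subtype.val (e j.1).2
        rw [h2, h2]
      choose r' hr1 hr2 using fun i => lift_fib hU hE hs hg (r i) (g (r 0)) (h1 i)
      refine hN r' (fun i => by rw [hr2, hr2]) ?_
      intro i j hij
      have h3 : ty a π (r i) = ty a π (r j) := by rw [← hr1, ← hr1, hij]
      rw [hr, hr] at h3
      have h4 : e i.1 = e j.1 := Subtype.ext (Subtype.ext h3)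
      exact Fin.ext (e.injective h4)
    have h1 := hF3 g' hc hfin _ hsG
    have h2 : g' ⟨ty a π s, s, rfl⟩ = ⟨ty a π (g s), g s, rfl⟩ := Subtype.ext (pull_ty hs hg s)
    rw [h2] at h1
    exact h1

end

end Pool.Agent.Hp8CR
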