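import Pool.Agent.Hp8CR.Few
import Pool.Agent.Hp8CR.Fld

set_option autoImplicit false
set_option linter.style.haveILetI false

/-!
Ultrapowers of commutative rings.
-/

namespace Pool.Agent.Hp8CR

open FirstOrder FirstOrder.Language Pool.Agent.N641.VB Pool.Agent.Hp8VC Set H968 Filter

/-- the ring structure of the ultrapower -/
noncomputable instance ultRing (N : Type) [CommRing N] : CommRing (Ult N) :=
  inferInstanceAs (CommRing (Filter.Germ (hyp : Filter ℕ) N))

/-- the ring homomorphism onto the ultrapower -/
noncomputable def clsHom (N : Type) [CommRing N] : (ℕ → N) →+* Ult N :=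
  Filter.Germ.coeRingHom (hyp : Filter ℕ)

theorem clsHom_eq {N : Type} [CommRing N] (r : ℕ → N) : clsHom N r = cls r := rfl

theorem cls_eq {N : Type} (r s : ℕ → N) :
    (cls r : Ult N) = cls s ↔ ∀ᶠ i in (hyp : Filter ℕ), r i = s i :=
  ⟨fun h => Quotient.exact h, fun h => Quotient.sound h⟩

theorem str_ult (N : Type) [R : CommRing N] :
    strR (ultRing N) = @FirstOrder.Language.Ultraproduct.structure ℕ (fun _ => N) hyp LR
      (fun _ => strR R) := by
  letI := strR R
  refine Structure.ext ?_ ?_
  · funext n F v
    choose r hr using fun i => cls_surj_sat (v i)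
    obtain rfl : v = fun i => cls (r i) := funext fun i => (hr i).symm
    rw [show (fun i => (cls (r i) : Ult N)) = fun i => (((r i : ℕ → N)) :
      (hyp : Filter ℕ).Product (fun _ => N)) from rfl]
    have := FirstOrder.Language.Ultraproduct.funMap_cast (u := hyp) (M := fun _ : ℕ => N) F r
    refine Eq.trans ?_ this.symm
    cases F <;> rfl
  · funext n Q
    exact Empty.elim Q

theorem ctbl_LR' : Countable LR.Symbols := by
  have : ∀ k, Countable (LR.Functions k) := fun k => by
    have : Function.Injective (fun r : SymR k => match r with
      | .add => (0 : ℕ)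
      | .mul => 1) := by
      intro r s hrs
      cases r <;> cases s <;> simp_all
    exact this.countable
  have : ∀ k, Countable (LR.Relations k) := fun k => inferInstanceAs (Countable Empty)
  exact inferInstanceAs (Countable ((Σ l, LR.Functions l) ⊕ Σ l, LR.Relations l))

theorem satd_ring (N : Type) [CommRing N] : @Satd LR (Ult N) (strR (ultRing N)) := by
  letI : LR.Structure N := strR inferInstance
  haveI : Countable LR.Symbols := ctbl_LR'
  rw [str_ult]
  exact satd_ult (L := LR) N

end Pool.Agent.Hp8CR
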