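import Pool.Agent.Hp8CR.Cnt

set_option autoImplicit false
set_option linter.style.haveILetI false

/-!
Coefficient rings of local rings with nilpotent maximal ideal and perfect residue field.
-/

namespace Pool.Agent.Hp8CR

open Ideal WittVector

section
variable {B K : Type} [CommRing B] [Field K] (π : B →+* K) {N : ℕ}

theorem adic_complete_of_nilpotent (I : Ideal B) (hN : I ^ N = ⊥) : IsAdicComplete I B := by
  have h0 : (I ^ N • ⊤ : Submodule B B) = ⊥ := by
    rw [hN, Submodule.bot_smul]
  refine { haus' := ?_, prec' := ?_ }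
  · intro x hx
    have h1 := hx N
    rw [h0, SModEq.bot] at h1
    exact h1
  · intro f hf
    refine ⟨f N, fun n => ?_⟩
    rcases le_total n N with h | h
    · exact hf h
    · have h1 := hf h
      rw [h0, SModEq.bot] at h1
      rw [h1]

theorem exists_witt (p : ℕ) [Fact p.Prime] [CharP K p] [PerfectRing K p]
    (hπ : Function.Surjective π) (hn : RingHom.ker π ^ N = ⊥) :
    ∃ f : WittVector p K →+* B, Function.Surjective (π.comp f) := by
  have hp : π (p : B) = 0 := by rw [map_natCast, CharP.cast_eq_zero]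
  haveI hu : Fact (¬ IsUnit (p : B)) := ⟨fun h => by
    have h1 := h.map π
    rw [hp] at h1
    exact not_isUnit_zero h1⟩
  have hle : span {(p : B)} ≤ RingHom.ker π := by
    rw [span_singleton_le_iff_mem]
    exact hp
  haveI : IsAdicComplete (span {(p : B)}) B := adic_complete_of_nilpotent (N := N) _ (by
    rw [eq_bot_iff, ← hn]
    exact Ideal.pow_right_mono hle N)
  let πb : ModP B p →+* K := Ideal.Quotient.lift (span {(p : B)}) π fun a ha => hle ha
  have hπb : ∀ b, πb (Ideal.Quotient.mk _ b) = π b := fun b => rfl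
  have hker : ∀ y : ModP B p, πb y = 0 → ∀ k, N ≤ k → y ^ k = 0 := by
    intro y hy k hk
    obtain ⟨b, rfl⟩ := Ideal.Quotient.mk_surjective y
    have h1 : b ^ N ∈ RingHom.ker π ^ N := Ideal.pow_mem_pow hy N
    rw [hn] at h1
    rw [← map_pow, ← Nat.sub_add_cancel hk, pow_add, show b ^ N = 0 from h1, mul_zero, map_zero]
  have hpN : N ≤ p ^ N := (Nat.lt_pow_self (Fact.out (p := p.Prime)).one_lt).le
  let τ : PreTilt B p →+* K := πb.comp (PreTilt.coeff 0)
  have hcoeff : ∀ (x : PreTilt B p) (n k : ℕ),
      (PreTilt.coeff (n + k) x) ^ p ^ k = PreTilt.coeff n x := by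
    intro x n k
    induction k with
    | zero => simp
    | succ k ih => rw [pow_succ', pow_mul, ← add_assoc, PreTilt.coeff_pow_p, ih]
  have hinj : Function.Injective τ := by
    rw [injective_iff_map_eq_zero]
    intro x hx
    refine Perfection.ext fun n => ?_
    show PreTilt.coeff n x = PreTilt.coeff n 0
    rw [map_zero, ← hcoeff x n N]
    refine hker _ ?_ _ hpN
    have h1 : (πb (PreTilt.coeff (n + N) x)) ^ p ^ (n + N) = 0 := by
      rw [← map_pow]
      have := hcoeff x 0 (n + N)
      rw [zero_add] at this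
      rw [this]
      exact hx
    exact (pow_eq_zero_iff (pow_ne_zero _ (Fact.out (p := p.Prime)).ne_zero)).1 h1
  have hsurj : Function.Surjective τ := by
    intro c
    have hc : ∀ n : ℕ, ∃ b : ModP B p, πb b = ((frobeniusEquiv K p).symm^[n]) c := by
      intro n
      obtain ⟨b, hb⟩ := hπ (((frobeniusEquiv K p).symm^[n]) c)
      exact ⟨Ideal.Quotient.mk _ b, hb⟩
    choose b hb using hc
    have hfr : ∀ n, (πb (b (n + 1))) ^ p = πb (b n) := by
      intro n
      rw [hb, hb, Function.iterate_succ_apply', frobeniusEquiv_symm_pow_p]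
    let x : PreTilt B p := ⟨fun n => b (n + N) ^ p ^ N, fun n => by
      show (b (n + 1 + N) ^ p ^ N) ^ p = b (n + N) ^ p ^ N
      rw [← pow_mul, mul_comm, pow_mul, ← sub_eq_zero, ← sub_pow_char_pow]
      refine hker _ ?_ _ hpN
      rw [map_sub, map_pow, show n + 1 + N = n + N + 1 by ring, hfr, sub_self]⟩
    refine ⟨x, ?_⟩
    show πb (b (0 + N) ^ p ^ N) = c
    rw [map_pow, zero_add, hb]
    have : ∀ k : ℕ, (((frobeniusEquiv K p).symm^[k]) c) ^ p ^ k = c := by
      intro k
      induction k with
      | zero => simp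
      | succ k ih =>
        rw [Function.iterate_succ_apply', pow_succ', pow_mul, frobeniusEquiv_symm_pow_p, ih]
    exact this N
  let e : PreTilt B p ≃+* K := RingEquiv.ofBijective τ ⟨hinj, hsurj⟩
  refine ⟨(fontaineTheta B p).comp (WittVector.map (e.symm : K →+* PreTilt B p)), fun c => ?_⟩
  refine ⟨teichmuller p c, ?_⟩
  show π (fontaineTheta B p (WittVector.map (e.symm : K →+* PreTilt B p) (teichmuller p c))) = c
  rw [← hπb, mk_fontaineTheta, WittVector.map_coeff, teichmuller_coeff_zero]
  exact e.apply_symm_apply c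

end

/-- the coefficient rings in mixed characteristic -/
abbrev WN (p : ℕ) [Fact p.Prime] (K : Type) [Field K] (N : ℕ) : Type :=
  WittVector p K ⧸ span {((p : WittVector p K) ^ N)}

theorem wn_props (p : ℕ) [Fact p.Prime] (K : Type) [Field K] [CharP K p] [PerfectRing K p]
    [Countable K] (N : ℕ) : Countable (WN p K N) ∧ IsNoetherianRing (WN p K N) := by
  refine ⟨?_, inferInstance⟩
  let g : (Fin N → K) → WN p K N := fun t =>
    Ideal.Quotient.mk _ (WittVector.mk p fun i => if h : i < N then t ⟨i, h⟩ else 0)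
  have hg : Function.Surjective g := by
    intro y
    obtain ⟨x, rfl⟩ := Ideal.Quotient.mk_surjective y
    refine ⟨fun i => x.coeff i, ?_⟩
    rw [Ideal.Quotient.eq, mem_span_p_pow_iff_le_coeff_eq_zero,
      ← le_coeff_eq_iff_le_sub_coeff_eq_zero]
    intro i hi
    rw [coeff_mk, dif_pos hi]
  exact hg.countable

end Pool.Agent.Hp8CR
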